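import Pool.Agent.Helper85.BFC.Basic

/-!
# The orbits of the re-rootings are free: `G_0` is acyclic
-/

set_option autoImplicit false

namespace Pool.Agent.Helper85.BFC

theorem free_flip_same (n : ℕ) (k : ℕ → Bool) : flip n k n = !(k n) := by
  unfold flip
  rw [Function.update_self]

theorem free_flip_ne {n i : ℕ} (h : i ≠ n) (k : ℕ → Bool) : flip n k i = k i := by
  unfold flip
  rw [Function.update_of_ne h]

/-- positions that are not flipped keep their value -/
theorem free_const {K : ℕ → ℕ → Bool} {n : ℕ → ℕ} {m N a : ℕ}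
    (h1 : ∀ i, i < m → K (i + 1) = flip (n i) (K i)) :
    ∀ b, a ≤ b → b ≤ m → (∀ l, a ≤ l → l < b → n l ≠ N) → K b N = K a N := by
  intro b hab
  induction b, hab using Nat.le_induction with
  | base => intro _ _; rfl
  | succ b hab ih =>
    intro hbm hn
    rw [h1 b (by omega), free_flip_ne (hn b hab (by omega)).symm]
    exact ih (by omega) fun l hl hl' => hn l hl (by omega)

/-- The abstract form of the acyclicity of `G_0`. -/
theorem free_abs {K : ℕ → ℕ → Bool} {n : ℕ → ℕ} {m : ℕ}
    (h1 : ∀ i, i < m → K (i + 1) = flip (n i) (K i))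
    (h2 : ∀ i, i < m → ∀ l, l < n i → K i l = gz (n i) l)
    (h3 : ∀ i, i + 1 < m → n i ≠ n (i + 1)) :
    ∀ d a b, b = a + d → 0 < d → b ≤ m → K b ≠ K a := by
  intro d
  induction d using Nat.strong_induction_on with
  | _ d ih =>
    intro a b hb hd hbm heq
    -- the maximal index
    obtain ⟨i0, hi0, hmax⟩ := (Finset.Ico a b).exists_max_image n ⟨a, Finset.mem_Ico.2 ⟨le_rfl, by omega⟩⟩
    rw [Finset.mem_Ico] at hi0
    have hex : ∃ i, a ≤ i ∧ i < b ∧ n i = n i0 := ⟨i0, hi0.1, hi0.2, rfl⟩
    classical
    obtain ⟨hi1, hi2, hi3⟩ := Nat.find_spec hex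
    set i := Nat.find hex with hi
    have hmin : ∀ l, a ≤ l → l < i → n l ≠ n i0 := fun l hl hl' h =>
      Nat.find_min hex hl' ⟨hl, by omega, h⟩
    have e1 : K i (n i0) = K a (n i0) := free_const h1 i hi1 (by omega) hmin
    have e2 : K (i + 1) (n i0) = !(K i (n i0)) := by
      rw [h1 i (by omega), hi3, free_flip_same]
    have hex2 : ∃ j, i + 1 ≤ j ∧ j < b ∧ n j = n i0 := by
      by_contra hcon
      push Not at hcon
      have e3 : K b (n i0) = K (i + 1) (n i0) :=
        free_const h1 b (by omega) hbm hcon
      rw [e2, e1, heq] at e3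
      cases h : K a (n i0) <;> rw [h] at e3 <;> simp at e3
    obtain ⟨hj1, hj2, hj3⟩ := Nat.find_spec hex2
    set j := Nat.find hex2 with hj
    have hjmin : ∀ l, i + 1 ≤ l → l < j → n l ≠ n i0 := fun l hl hl' h =>
      Nat.find_min hex2 hl' ⟨hl, by omega, h⟩
    have hne : j ≠ i + 1 := by
      intro h
      apply h3 i (by omega)
      rw [hi3, ← h, hj3]
    refine ih (j - (i + 1)) (by omega) (i + 1) j (by omega) (by omega) (by omega) ?_
    funext l
    rcases lt_or_ge l (n i0) with hl | hl
    · rw [h2 j (by omega) l (by omega), h1 i (by omega), hi3, free_flip_ne hl.ne,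
        h2 i (by omega) l (by omega), hi3, hj3]
    · refine free_const h1 j hj1 (by omega) fun q hq hq' h => ?_
      have h4 : n q ≤ n i0 := hmax q (Finset.mem_Ico.2 ⟨by omega, by omega⟩)
      exact hjmin q hq hq' (by omega)

theorem act_ne {z : Z0} (hz : Vld z) {w : List D} (hw : w ≠ []) (hc : w.IsChain (· ≠ ·)) :
    (act w z).1 ≠ z.1 := by
  have step : ∀ i, i < w.length → act (w.take (i + 1)) z = sig (w.getD i 0) (act (w.take i) z) := by
    intro i hi
    rw [List.take_add_one, List.getElem?_eq_getElem hi, Option.toList_some, act_append,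
      List.getD_eq_getElem _ _ hi]
    rfl
  have hv : ∀ i, Vld (act (w.take i) z) := fun i => vld_act hz _
  have key := free_abs (K := fun i => (act (w.take i) z).1)
    (n := fun i => (act (w.take i) z).2 (w.getD i 0) 0) (m := w.length)
    (fun i hi => by
      show (act (w.take (i + 1)) z).1 = _
      rw [step i hi]
      rfl)
    (fun i _ l hl => by
      have := (hv i).1 (w.getD i 0) 0
      rw [OK_zero] at this
      exact this l hl)
    (fun i hi => by
      have h1 := (hv (i + 1)).2 (w.getD i 0) (w.getD (i + 1) 0) (by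
        rw [List.getD_eq_getElem _ _ (by omega), List.getD_eq_getElem _ _ hi]
        exact List.isChain_iff_getElem.1 hc i hi)
      have h2 : (act (w.take (i + 1)) z).2 (w.getD i 0) 0 = (act (w.take i) z).2 (w.getD i 0) 0 := by
        rw [step i (by omega)]
        exact rer_zero _ _
      rw [h2] at h1
      exact h1)
    w.length 0 w.length (by omega) (List.length_pos_iff.2 hw) le_rfl
  simpa [act] using key

/-- every word acts like a reduced word -/
theorem exists_reduced (w : List D) : ∃ w' : List D, w'.IsChain (· ≠ ·) ∧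
    ∀ p : PP, actP w p = actP w' p := by
  induction w with
  | nil => exact ⟨[], List.isChain_nil, fun _ => rfl⟩
  | cons s w ih =>
    obtain ⟨w', hc, h⟩ := ih
    rcases w' with _ | ⟨t, u⟩
    · exact ⟨[s], List.isChain_singleton _, fun p => h _⟩
    · by_cases hst : s = t
      · subst hst
        refine ⟨u, hc.tail, fun p => ?_⟩
        show actP w (sigP s p) = _
        rw [h]
        show actP u (sigP s (sigP s p)) = _
        rw [sigP_sigP]
      · refine ⟨s :: t :: u, ?_, fun p => h _⟩
        rw [List.isChain_cons_cons]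
        exact ⟨hst, hc⟩

end Pool.Agent.Helper85.BFC
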