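import Pool.Agent.Helper85.BFC.Nbr
import Pool.Agent.Helper85.BFC.Free

/-!
# The graph is a forest
-/

set_option autoImplicit false

namespace Pool.Agent.Helper85.BFC

/-- the other side of the big edge `t` at `p` -/
def acySD (p : PP) (t : D) (q : PP) : Prop :=
  ∃ w : List D, (t :: w).IsChain (· ≠ ·) ∧ q = actP (t :: w) p

theorem acySD_sigP (p : PP) (t : D) : acySD p t (sigP t p) :=
  ⟨[], List.isChain_singleton _, rfl⟩

theorem not_acySD_self {p : PP} (hp : Vld p.1) (t : D) : ¬ acySD p t p := by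
  rintro ⟨w, hw, h⟩
  have h1 := act_ne hp (List.cons_ne_nil t w) hw
  apply h1
  rw [← actP_fst, ← h]

theorem actP_concat (u : List D) (s : D) (p : PP) : actP (u ++ [s]) p = sigP s (actP u p) := by
  rw [actP_append]
  rfl

theorem acySD_step {p q : PP} {t s : D} (h : acySD p t q) (h' : ¬ acySD p t (sigP s q)) :
    q = sigP t p ∧ s = t := by
  obtain ⟨w, hw, rfl⟩ := h
  rcases List.eq_nil_or_concat w with rfl | ⟨w', r, rfl⟩
  · by_cases hst : s = t
    · exact ⟨rfl, hst⟩
    · exfalso
      apply h'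
      refine ⟨[s], ?_, rfl⟩
      simp only [List.isChain_cons_cons, List.isChain_singleton, and_true]
      exact fun h => hst h.symm
  · exfalso
    apply h'
    rw [List.concat_eq_append] at hw ⊢
    have e : t :: (w' ++ [r]) = (t :: w') ++ [r] := rfl
    rw [e] at hw ⊢
    have hw2 := List.isChain_append.1 hw
    by_cases hsr : s = r
    · refine ⟨w', hw2.1, ?_⟩
      rw [actP_concat, hsr, sigP_sigP]
    · refine ⟨w' ++ [r, s], ?_, ?_⟩
      · have e2 : t :: (w' ++ [r, s]) = ((t :: w') ++ [r]) ++ [s] := by simp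
        rw [e2, List.isChain_append]
        refine ⟨hw, List.isChain_singleton _, ?_⟩
        intro x hx y hy
        simp only [List.head?_cons, Option.mem_some_iff] at hy
        rw [List.getLast?_append, List.getLast?_singleton] at hx
        simp only [Option.some_or, Option.mem_some_iff] at hx
        rw [← hx, ← hy]
        exact fun h => hsr h.symm
      · have e2 : t :: (w' ++ [r, s]) = ((t :: w') ++ [r]) ++ [s] := by simp
        rw [e2, actP_concat, actP_concat, actP_concat]

/-- a set of vertices crossed by one edge only makes this edge a bridge -/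
theorem acy_bridge (u v : YY) (S : YR → Prop) (hu : ¬ S u.1) (hv : S v.1)
    (hc : ∀ y : YR, YV y → S y → ∀ t, ¬ S (nbr y t) → y = v.1 ∧ nbr y t = u.1) :
    GG.IsBridge s(u, v) := by
  rw [SimpleGraph.isBridge_iff]
  intro hr
  have key : ∀ a b : YY, (GG \ SimpleGraph.fromEdgeSet {s(u, v)}).Reachable a b → S b.1 →
      S a.1 := by
    intro a b hab
    obtain ⟨w⟩ := hab
    induction w with
    | nil => exact id
    | cons hadj _ ih =>
      rename_i a c b _
      intro hb
      have hcS := ih hb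
      by_contra ha
      rw [SimpleGraph.sdiff_adj] at hadj
      obtain ⟨hadj1, hadj2⟩ := hadj
      obtain ⟨t, ht⟩ := (GG_adj c a).1 hadj1.symm
      have h1 := hc c.1 c.2 hcS t (by rw [ht]; exact ha)
      apply hadj2
      rw [SimpleGraph.fromEdgeSet_adj]
      refine ⟨?_, hadj1.ne⟩
      have h2 : c = v := Subtype.ext h1.1
      have h3 : a = u := Subtype.ext (ht.symm.trans h1.2)
      rw [h2, h3]
      rfl
  exact hu (key u v hr hv)

theorem acy_bit (p : PP) (t : D) : (sigP t p).2 t 0 = p.2 t 0 := rer_zero t p.2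

theorem acy_idx (p : PP) (t : D) : (sigP t p).1.2 t 0 = p.1.2 t 0 := rer_zero t p.1.2

theorem acy_val (p : PP) (t : D) :
    (sigP t p).1.1 ((sigP t p).1.2 t 0) = !(p.1.1 (p.1.2 t 0)) := by
  rw [acy_idx]
  show flip (p.1.2 t 0) p.1.1 (p.1.2 t 0) = _
  unfold flip
  rw [Function.update_self]

theorem acy_A (p : PP) (hp : Vld p.1) (t : D) (hb : p.2 t 0 = false) (u v : YY)
    (hu : u.1 = (p, none)) (hv : v.1 = (sigP t p, none)) : GG.IsBridge s(u, v) := by
  refine acy_bridge u v (fun y => acySD p t y.1) ?_ ?_ ?_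
  · rw [hu]; exact not_acySD_self hp t
  · rw [hv]; exact acySD_sigP p t
  · rw [hu, hv]
    rintro ⟨q, o⟩ hy hS r hN
    have hbit : ∀ q' : PP, q' = sigP t p → q'.2 t 0 = false := by
      rintro q' rfl
      rw [acy_bit, hb]
    match o, hy, hS, hN with
    | none, hy, hS, hN =>
      unfold nbr at hN ⊢
      simp only at hN hS ⊢
      split_ifs at hN ⊢ with h1 h2
      · obtain ⟨rfl, rfl⟩ := acySD_step hS hN
        exact ⟨rfl, by rw [sigP_sigP]⟩
      · exact absurd hS hN
      · obtain ⟨h3, rfl⟩ := acySD_step hS hN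
        exact absurd (hbit q h3) h1
    | some (s, 0), hy, hS, hN =>
      unfold nbr at hN ⊢
      simp only at hN hS ⊢
      split_ifs at hN ⊢ with h1 h2
      · exact absurd hS hN
      · obtain ⟨h3, rfl⟩ := acySD_step hS hN
        have h4 := (hy.2 s 0 rfl).1
        simp only at h4
        rw [hbit q h3] at h4
        exact absurd h4 (by decide)
      · exact absurd hS hN
    | some (s, n + 1), hy, hS, hN =>
      unfold nbr at hN ⊢
      simp only at hN hS ⊢
      split_ifs at hN ⊢ with h1 h2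
      all_goals exact absurd hS hN

/-- the crossing edges of the side of an owned big edge -/
theorem acy_B_aux (p : PP) (t : D) (ho : Owns p t) (y : YR) (hy : YV y)
    (hS : acySD p t y.1) (r : D) (hN : ¬ acySD p t (nbr y r).1) :
    y = (sigP t p, none) ∧ nbr y r = (p, some (t, 0)) := by
  obtain ⟨q, o⟩ := y
  have hbit : ∀ q' : PP, q' = sigP t p → q'.2 t 0 = true := by
    rintro q' rfl
    rw [acy_bit, ho.1]
  have hval : ∀ q' : PP, q' = sigP t p → q'.1.1 (q'.1.2 t 0) = true := by
    rintro q' rfl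
    rw [acy_val, ho.2]
    rfl
  match o, hy, hS, hN with
  | none, hy, hS, hN =>
    unfold nbr at hN ⊢
    simp only at hN hS ⊢
    split_ifs at hN ⊢ with h1 h2
    · obtain ⟨h3, rfl⟩ := acySD_step hS hN
      rw [hbit q h3] at h1
      exact absurd h1 (by decide)
    · exact absurd hS hN
    · obtain ⟨h3, rfl⟩ := acySD_step hS hN
      subst h3
      exact ⟨rfl, by rw [sigP_sigP]⟩
  | some (s, 0), hy, hS, hN =>
    unfold nbr at hN ⊢
    simp only at hN hS ⊢
    split_ifs at hN ⊢ with h1 h2
    · exact absurd hS hN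
    · obtain ⟨h3, rfl⟩ := acySD_step hS hN
      have h4 := (hy.2 s 0 rfl).2
      simp only at h4
      rw [hval q h3] at h4
      exact absurd h4 (by decide)
    · exact absurd hS hN
  | some (s, n + 1), hy, hS, hN =>
    unfold nbr at hN ⊢
    simp only at hN hS ⊢
    split_ifs at hN ⊢ with h1 h2
    all_goals exact absurd hS hN

theorem acy_B2 (p : PP) (hp : Vld p.1) (t : D) (ho : Owns p t) (u v : YY)
    (hu : u.1 = (p, some (t, 0))) (hv : v.1 = (sigP t p, none)) : GG.IsBridge s(u, v) := by
  refine acy_bridge u v (fun y => acySD p t y.1) ?_ ?_ ?_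
  · rw [hu]; exact not_acySD_self hp t
  · rw [hv]; exact acySD_sigP p t
  · rw [hu, hv]
    intro y hy hS r hN
    exact acy_B_aux p t ho y hy hS r hN

theorem acy_B1 (p : PP) (hp : Vld p.1) (t : D) (ho : Owns p t) (u v : YY)
    (hu : u.1 = (p, none)) (hv : v.1 = (p, some (t, 0))) : GG.IsBridge s(u, v) := by
  refine acy_bridge u v (fun y => acySD p t y.1 ∨ (y.1 = p ∧ ∃ n, y.2 = some (t, n))) ?_ ?_ ?_
  · rw [hu]
    rintro (h | ⟨-, n, h⟩)
    · exact not_acySD_self hp t h
    · simp at h
  · rw [hv]; exact Or.inr ⟨rfl, 0, rfl⟩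
  · rw [hu, hv]
    intro y hy hS r hN
    rcases hS with hS | ⟨hq, n, hn⟩
    · exfalso
      have h1 := acy_B_aux p t ho y hy hS r (fun h => hN (Or.inl h))
      apply hN
      right
      rw [h1.2]
      exact ⟨rfl, 0, rfl⟩
    · obtain ⟨q, o⟩ := y
      simp only at hq hn
      subst hq
      subst hn
      match n, hy, hN with
      | 0, hy, hN =>
        unfold nbr at hN ⊢
        simp only at hN ⊢
        split_ifs at hN ⊢ with h1 h2
        · exact ⟨trivial, rfl⟩
        · exact absurd (Or.inl (acySD_sigP q t)) hN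
        · exact absurd (Or.inr ⟨rfl, 1, rfl⟩) hN
      | n + 1, hy, hN =>
        unfold nbr at hN ⊢
        simp only at hN ⊢
        split_ifs at hN ⊢ with h1 h2
        · exact absurd (Or.inr ⟨rfl, _, rfl⟩) hN
        · exact absurd (Or.inr ⟨rfl, _, rfl⟩) hN
        · exact absurd (Or.inr ⟨rfl, _, rfl⟩) hN

theorem acy_C (p : PP) (s : D) (n : ℕ) (hn : 1 ≤ n) (u v : YY)
    (hu : u.1 = (p, some (s, n / 2))) (hv : v.1 = (p, some (s, n))) : GG.IsBridge s(u, v) := by
  refine acy_bridge u v (fun y => y.1 = p ∧ ∃ m j, y.2 = some (s, m) ∧ m / 2 ^ j = n) ?_ ?_ ?_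
  · rw [hu]
    rintro ⟨-, m, j, h1, h2⟩
    simp only [Option.some.injEq, Prod.mk.injEq, true_and] at h1
    subst h1
    have h3 : n / 2 / 2 ^ j ≤ n / 2 := Nat.div_le_self _ _
    omega
  · rw [hv]
    exact ⟨rfl, n, 0, rfl, by simp⟩
  · rw [hu, hv]
    rintro ⟨q, o⟩ hy ⟨h1, m, j, h2, h3⟩ r hN
    simp only at h1 h2
    subst h1
    subst h2
    have hm : 1 ≤ m := by
      rcases Nat.eq_zero_or_pos m with h | h
      · subst h
        simp at h3
        omega
      · exact h
    obtain ⟨m, rfl⟩ : ∃ m', m = m' + 1 := ⟨m - 1, by omega⟩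
    unfold nbr at hN ⊢
    simp only at hN ⊢
    split_ifs at hN ⊢ with h1 h2
    · rcases Nat.eq_zero_or_pos j with h | h
      · subst h
        simp only [pow_zero, Nat.div_one] at h3
        subst h3
        exact ⟨rfl, rfl⟩
      · exfalso
        apply hN
        refine ⟨rfl, (m + 1) / 2, j - 1, rfl, ?_⟩
        rw [Nat.div_div_eq_div_mul, ← pow_succ', show j - 1 + 1 = j by omega, h3]
    · exfalso
      apply hN
      refine ⟨rfl, 2 * (m + 1), j + 1, rfl, ?_⟩
      rw [pow_succ', ← Nat.div_div_eq_div_mul, Nat.mul_div_cancel_left _ (by norm_num : 0 < 2), h3]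
    · exfalso
      apply hN
      refine ⟨rfl, 2 * (m + 1) + 1, j + 1, rfl, ?_⟩
      rw [pow_succ', ← Nat.div_div_eq_div_mul,
        show (2 * (m + 1) + 1) / 2 = m + 1 by omega, h3]

theorem GG_acyclic : GG.IsAcyclic := by
  rw [SimpleGraph.isAcyclic_iff_forall_adj_isBridge]
  intro v w hvw
  obtain ⟨t, ht⟩ := (GG_adj v w).1 hvw
  have hsymm : ∀ a b : YY, GG.IsBridge s(a, b) → GG.IsBridge s(b, a) := by
    intro a b h
    rwa [Sym2.eq_swap]
  obtain ⟨⟨p, o⟩, hy⟩ := v
  obtain ⟨w, hw⟩ := w
  simp only at ht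
  have hp : Vld p.1 := hy.1
  match o, hy, ht with
  | none, hy, ht =>
    unfold nbr at ht
    simp only at ht
    split_ifs at ht with h1 h2
    · exact acy_A p hp t h1 _ _ rfl ht.symm
    · have ho : Owns p t := ⟨by simpa using h1, h2⟩
      exact acy_B1 p hp t ho _ _ rfl ht.symm
    · apply hsymm
      have h3 : Vld (sigP t p).1 := vld_sig hp t
      have ho : Owns (sigP t p) t := by
        refine ⟨by rw [acy_bit]; simpa using h1, ?_⟩
        rw [acy_val]
        simpa using h2
      exact acy_B2 (sigP t p) h3 t ho _ _ ht.symm (by rw [sigP_sigP])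
  | some (s, 0), hy, ht =>
    have ho : Owns p s := hy.2 s 0 rfl
    unfold nbr at ht
    simp only at ht
    split_ifs at ht with h1 h2
    · apply hsymm
      exact acy_B1 p hp s ho _ _ ht.symm rfl
    · exact acy_B2 p hp s ho _ _ rfl ht.symm
    · exact acy_C p s 1 le_rfl _ _ rfl ht.symm
  | some (s, n + 1), hy, ht =>
    unfold nbr at ht
    simp only at ht
    split_ifs at ht with h1 h2
    · apply hsymm
      exact acy_C p s (n + 1) (by omega) _ _ ht.symm rfl
    · exact acy_C p s (2 * (n + 1)) (by omega) _ _ (by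
        rw [Nat.mul_div_cancel_left _ (by norm_num : 0 < 2)]) ht.symm
    · exact acy_C p s (2 * (n + 1) + 1) (by omega) _ _ (by
        rw [show (2 * (n + 1) + 1) / 2 = n + 1 by omega]) ht.symm

end Pool.Agent.Helper85.BFC
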