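import Pool.Agent.Helper85.BFC.Defs

/-!
# Basic facts on re-rooting: involutions, validity, words
-/

set_option autoImplicit false

namespace Pool.Agent.Helper85.BFC

theorem flip_self (n : ℕ) (k : ℕ → Bool) : flip n k n = !k n := by
  unfold flip
  rw [Function.update_self]

theorem flip_of_ne {n i : ℕ} (h : i ≠ n) (k : ℕ → Bool) : flip n k i = k i := by
  unfold flip
  rw [Function.update_of_ne h]

theorem flip_flip (n : ℕ) (k : ℕ → Bool) : flip n (flip n k) = k := by
  funext i
  by_cases h : i = n
  · subst h
    rw [flip_self, flip_self, Bool.not_not]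
  · rw [flip_of_ne h, flip_of_ne h]

theorem sig_sig (s : D) (z : Z0) : sig s (sig s z) = z := by
  obtain ⟨k, g⟩ := z
  show (flip (rer s g s 0) (flip (g s 0) k), rer s (rer s g)) = (k, g)
  rw [rer_zero, flip_flip, rer_rer]

theorem sigP_sigP (s : D) (p : PP) : sigP s (sigP s p) = p := by
  obtain ⟨z, e⟩ := p
  show (sig s (sig s z), rer s (rer s e)) = (z, e)
  rw [sig_sig, rer_rer]

theorem vld_sig {z : Z0} (h : Vld z) (s : D) : Vld (sig s z) := by
  obtain ⟨k, g⟩ := z
  obtain ⟨h1, h2⟩ := h
  have h1' : ∀ t j, OK j k (g t) := h1
  have h2' : ∀ t t' : D, t ≠ t' → g t 0 ≠ g t' 0 := h2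
  have key : ∀ b : Bool, g s (1 + b.toNat) ≠ g s 0 ∧ (b = true → g s 2 ≠ g s 1) := by
    intro b
    have := h1' s (2 * 0 + 1 + b.toNat)
    rw [OK_succ] at this
    exact this.2 rfl
  refine ⟨?_, ?_⟩
  · intro t j
    show OK j (flip (g s 0) k) (rer s g t)
    rcases dir_cases s t with rfl | ⟨b, rfl⟩
    · rcases heap_cases j with rfl | ⟨j, b, rfl⟩
      · rw [OK_zero, rer_zero]
        intro i hi
        rw [flip_of_ne (by omega)]
        exact (OK_zero _ _).1 (h1' t 0) i hi
      · rw [OK_succ, rer_zero, flip_flip]
        have e : sub b (rer t g t) = g (oth t b) := by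
          funext j
          exact rer_self t g j b
        rw [e]
        refine ⟨h1' _ _, fun _ => ⟨?_, ?_⟩⟩
        · have e1 : rer t g t (1 + b.toNat) = g (oth t b) 0 := by
            have := rer_self t g 0 b
            rw [← this]
          rw [e1]
          exact h2' _ _ (oth_ne t b)
        · intro _
          have e1 : rer t g t 2 = g (oth t true) 0 := rer_self t g 0 true
          have e2 : rer t g t 1 = g (oth t false) 0 := rer_self t g 0 false
          rw [e1, e2]
          refine h2' _ _ (fun hh => ?_)
          have := oth_inj t hh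
          cases this
    · have e : rer s g (oth s b) = sub b (g s) := by
        funext j
        exact rer_oth s g b j
      rw [e]
      have := h1' s (2 * j + 1 + b.toNat)
      rw [OK_succ] at this
      exact this.1
  · intro t t' ht
    show rer s g t 0 ≠ rer s g t' 0
    have e0 : rer s g s 0 = g s 0 := rer_zero s g
    have e1 : ∀ b : Bool, rer s g (oth s b) 0 = g s (1 + b.toNat) := by
      intro b
      have := rer_oth s g b 0
      rw [this]
    rcases dir_cases s t with rfl | ⟨b, rfl⟩
    · rcases dir_cases t t' with rfl | ⟨b, rfl⟩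
      · exact absurd rfl ht
      · rw [e0, e1]
        exact (key b).1.symm
    · rcases dir_cases s t' with rfl | ⟨b', rfl⟩
      · rw [e0, e1]
        exact (key b).1
      · rw [e1, e1]
        cases b <;> cases b'
        · exact absurd rfl ht
        · exact ((key true).2 rfl).symm
        · exact (key true).2 rfl
        · exact absurd rfl ht

theorem vld_act {z : Z0} (h : Vld z) (w : List D) : Vld (act w z) := by
  induction w generalizing z with
  | nil => exact h
  | cons s w ih => exact ih (vld_sig h s)

theorem actP_fst (w : List D) (p : PP) : (actP w p).1 = act w p.1 := by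
  induction w generalizing p with
  | nil => rfl
  | cons s w ih => exact ih (sigP s p)

theorem act_append (u w : List D) (z : Z0) : act (u ++ w) z = act w (act u z) := by
  induction u generalizing z with
  | nil => rfl
  | cons s u ih => exact ih (sig s z)

theorem actP_append (u w : List D) (p : PP) : actP (u ++ w) p = actP w (actP u p) := by
  induction u generalizing p with
  | nil => rfl
  | cons s u ih => exact ih (sigP s p)

theorem actP_reverse (w : List D) (p : PP) : actP w.reverse (actP w p) = p := by
  induction w generalizing p with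
  | nil => rfl
  | cons s w ih =>
    rw [List.reverse_cons, actP_append]
    show sigP s (actP w.reverse (actP w (sigP s p))) = p
    rw [ih, sigP_sigP]

/-- the label changes at finitely many places along the orbit -/
theorem act_tail (w : List D) (z : Z0) : ∃ m, ∀ i, m ≤ i → (act w z).1 i = z.1 i := by
  induction w generalizing z with
  | nil => exact ⟨0, fun _ _ => rfl⟩
  | cons s w ih =>
    obtain ⟨m, hm⟩ := ih (sig s z)
    refine ⟨max m (z.2 s 0 + 1), fun i hi => ?_⟩
    have h1 : m ≤ i := le_trans (le_max_left _ _) hi
    have h2 : z.2 s 0 + 1 ≤ i := le_trans (le_max_right _ _) hi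
    show (act w (sig s z)).1 i = z.1 i
    rw [hm i h1]
    show flip (z.2 s 0) z.1 i = z.1 i
    exact flip_of_ne (by omega) _

end Pool.Agent.Helper85.BFC
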