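import Pool.Agent.Helper85.BFC.Defs

/-!
# Bits of sign patterns
-/

set_option autoImplicit false

namespace Pool.Agent.Helper85.BFC

theorem sub_not {b : Bool} (v : ℕ → Bool) : sub b (fun i => !(v i)) = fun i => !(sub b v i) := rfl

theorem ebits_not (n : ℕ) (u : Bool) (v : ℕ → Bool) :
    ebits n (!u) (fun i => !(v i)) = ebits n u v := by
  induction n using Nat.strong_induction_on generalizing u v with
  | _ n ih =>
    rcases heap_cases n with rfl | ⟨j, b, rfl⟩
    · rw [ebits_zero, ebits_zero]
      cases u <;> cases v 0 <;> rfl
    · rw [ebits_succ, ebits_succ, sub_not]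
      exact ih j (by omega) _ _

theorem bits_not (η : Vt → Bool) : bits (fun v => !(η v)) = bits η := by
  funext s n
  exact ebits_not n (η none) (fun r => η (some (s, r)))

theorem bits_zero (s : D) (η : Vt → Bool) : bits η s 0 = (η none == η (some (s, 0))) := by
  unfold bits
  rw [ebits_zero]

theorem bits_rho (s : D) (η : Vt → Bool) : bits (fun v => η (rho s v)) = rer s (bits η) := by
  funext t n
  rcases dir_cases s t with rfl | ⟨b, rfl⟩
  · rcases heap_cases n with rfl | ⟨j, b, rfl⟩
    · rw [rer_zero, bits_zero, bits_zero]
      show (η (rho t none) == η (rho t (some (t, 0)))) = _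
      rw [rho_none, rho_zero]
      cases η none <;> cases η (some (t, 0)) <;> rfl
    · rw [rer_self]
      unfold bits
      rw [ebits_succ]
      show ebits j (η (rho t (some (t, 0)))) (sub b fun r => η (rho t (some (t, r)))) = _
      rw [rho_zero]
      congr 1
      funext i
      show η (rho t (some (t, 2 * i + 1 + b.toNat))) = _
      rw [rho_self]
  · rw [rer_oth]
    unfold bits
    rw [ebits_succ]
    show ebits n (η (rho s none)) (fun r => η (rho s (some (oth s b, r)))) = _
    rw [rho_none]
    congr 1
    funext i
    show η (rho s (some (oth s b, i))) = η (some (s, 2 * i + 1 + b.toNat))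
    rw [rho_oth]

theorem measurable_ebits (n : ℕ) : Measurable (fun p : Bool × (ℕ → Bool) => ebits n p.1 p.2) := by
  induction n using Nat.strong_induction_on with
  | _ n ih =>
    rcases heap_cases n with rfl | ⟨j, b, rfl⟩
    · have h : (fun p : Bool × (ℕ → Bool) => ebits 0 p.1 p.2) =
          (fun q : Bool × Bool => (q.1 == q.2)) ∘ (fun p : Bool × (ℕ → Bool) => (p.1, p.2 0)) := by
        funext p
        rw [ebits_zero]
        rfl
      rw [h]
      exact (measurable_of_finite _).comp
        (measurable_fst.prodMk ((measurable_pi_apply 0).comp measurable_snd))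
    · have h : (fun p : Bool × (ℕ → Bool) => ebits (2 * j + 1 + b.toNat) p.1 p.2) =
          (fun p : Bool × (ℕ → Bool) => ebits j p.1 p.2) ∘
            (fun p : Bool × (ℕ → Bool) => (p.2 0, sub b p.2)) := by
        funext p
        rw [ebits_succ]
        rfl
      rw [h]
      refine (ih j (by omega)).comp (((measurable_pi_apply 0).comp measurable_snd).prodMk ?_)
      exact measurable_pi_lambda _ fun i => (measurable_pi_apply _).comp measurable_snd

theorem measurable_bits : Measurable bits := by
  refine measurable_pi_lambda _ fun s => measurable_pi_lambda _ fun n => ?_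
  have h : Measurable (fun η : Vt → Bool => ((η none, fun r => η (some (s, r))) : Bool × (ℕ → Bool))) :=
    (measurable_pi_apply none).prodMk (measurable_pi_lambda _ fun r => measurable_pi_apply _)
  exact (measurable_ebits n).comp h

end Pool.Agent.Helper85.BFC
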