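import Pool.Agent.Helper85.BFC.GraphDefs

/-!
# Fair coins: symmetries, Walsh coefficients (module D0b)
-/

set_option autoImplicit false

namespace Pool.Agent.Helper85.BFC

open MeasureTheory

open Classical in
theorem fair_apply (s : Set Bool) :
    fair s = ((if true ∈ s then (1 / 2 : ENNReal) else 0) + if false ∈ s then (1 / 2 : ENNReal) else 0) := by
  unfold fair
  rw [PMF.toMeasure_apply_fintype]
  simp [Set.indicator]

theorem fair_map_not : fair.map (fun b => !b) = fair := by
  ext s hs
  rw [Measure.map_apply measurable_from_top hs, fair_apply, fair_apply]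
  exact add_comm _ _

theorem measurable_chi {ι : Type} (V : Finset ι) : Measurable (chi V) := by
  unfold chi
  refine Finset.measurable_prod _ fun i _ => ?_
  exact (measurable_from_top (f := sg)).comp (measurable_pi_apply i)

theorem sg_not (b : Bool) : sg (!b) = - sg b := by
  cases b <;> simp [sg]

section Walsh
variable {ι : Type}

theorem coins_flip : MeasurePreserving (fun (η : ι → Bool) i => !(η i)) (coins ι) (coins ι) := by
  refine ⟨?_, ?_⟩
  · exact measurable_pi_lambda _ fun i =>
      (measurable_from_top (f := fun b : Bool => !b)).comp (measurable_pi_apply i)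
  · unfold coins
    have h := Measure.infinitePi_map_pi (μ := fun _ : ι => fair) (f := fun _ (b : Bool) => !b)
      (hf := fun _ => measurable_from_top)
    rw [h]
    congr 1
    funext i
    exact fair_map_not

theorem coins_perm (e : ι ≃ ι) : MeasurePreserving (fun (η : ι → Bool) i => η (e i)) (coins ι) (coins ι) := by
  refine ⟨?_, ?_⟩
  · exact measurable_pi_lambda _ fun i => measurable_pi_apply (e i)
  · have h := Measure.infinitePi_map_piCongrLeft (μ := fun _ : ι => fair) (e.symm)
    unfold coins
    have h2 : (MeasurableEquiv.piCongrLeft (fun _ : ι => Bool) e.symm : (ι → Bool) → (ι → Bool)) =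
        fun (η : ι → Bool) i => η (e i) := by
      funext η i
      have := MeasurableEquiv.piCongrLeft_apply_apply (β := fun _ : ι => Bool) e.symm η (e i)
      rw [Equiv.symm_apply_apply] at this
      exact this
    rw [h2] at h
    exact h

theorem coef_even {g : (ι → Bool) → ℝ} (hg : Measurable g) (ho : ∀ η, g (fun i => !(η i)) = - g η)
    {V : Finset ι} (hV : Even V.card) : coef g V = 0 := by
  have h1 : coef g V = - coef g V := by
    unfold coef
    have e1 : ∫ η, g η * chi V η ∂(coins ι) =
        ∫ η, g η * chi V η ∂((coins ι).map (fun (η : ι → Bool) i => !(η i))) := by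
      rw [coins_flip.map_eq]
    have hm : AEStronglyMeasurable (fun η => g η * chi V η)
        ((coins ι).map (fun (η : ι → Bool) i => !(η i))) :=
      (hg.mul (measurable_chi V)).aestronglyMeasurable
    rw [integral_map coins_flip.measurable.aemeasurable hm] at e1
    refine e1.trans ?_
    rw [← integral_neg]
    congr 1
    funext η
    rw [ho]
    have : chi V (fun i => !(η i)) = chi V η := by
      unfold chi
      simp only [sg_not]
      rw [Finset.prod_neg]
      rw [hV.neg_one_pow, one_mul]
    rw [this]; ring
  linarith

theorem coef_perm {g : (ι → Bool) → ℝ} (hg : Measurable g) (e : ι ≃ ι) (V : Finset ι) :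
    coef (fun η => g (fun i => η (e i))) V = coef g (V.map e.symm.toEmbedding) := by
  unfold coef
  have e1 : ∫ η, g η * chi (V.map e.symm.toEmbedding) η ∂(coins ι) =
      ∫ η, g η * chi (V.map e.symm.toEmbedding) η
        ∂((coins ι).map (fun (η : ι → Bool) i => η (e i))) := by
    rw [(coins_perm e).map_eq]
  have hm : AEStronglyMeasurable (fun η => g η * chi (V.map e.symm.toEmbedding) η)
      ((coins ι).map (fun (η : ι → Bool) i => η (e i))) :=
    (hg.mul (measurable_chi _)).aestronglyMeasurable
  rw [e1, integral_map (coins_perm e).measurable.aemeasurable hm]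
  congr 1
  funext η
  congr 1
  unfold chi
  rw [Finset.prod_map]
  apply Finset.prod_congr rfl
  intro i _
  simp

theorem measurable_coef {α : Type} [MeasurableSpace α] [Countable ι] {g : α → (ι → Bool) → ℝ}
    (hg : Measurable (fun q : α × (ι → Bool) => g q.1 q.2)) (V : Finset ι) :
    Measurable (fun a => coef (g a) V) := by
  unfold coef
  have h : Measurable (fun q : α × (ι → Bool) => g q.1 q.2 * chi V q.2) :=
    hg.mul ((measurable_chi V).comp measurable_snd)
  have h2 := h.stronglyMeasurable.integral_prod_right' (ν := coins ι)
  exact h2.measurable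

end Walsh

end Pool.Agent.Helper85.BFC
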