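import Mathlib

/-!
# Labelled rooted 3-regular trees, `G_0` labels, re-rooting

Edges of a binary branch are numbered as a heap, least significant bit first: edge `0` is the root
edge of the branch, and the sub-branch in direction `b` of the labelling `g` is `fun j => g (2 j + 1 + b)`.
-/

set_option autoImplicit false

namespace Pool.Agent.Helper85.BFC

/-- the three directions -/
abbrev D : Type := Fin 3

/-- the two directions different from `s` -/
def oth (s : D) (b : Bool) : D := if b then s + 2 else s + 1

theorem oth_ne (s : D) (b : Bool) : oth s b ≠ s := by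
  revert s b; decide

theorem oth_inj (s : D) {b b' : Bool} (h : oth s b = oth s b') : b = b' := by
  revert s b b'; decide

/-- which of the two other directions -/
def bt (s t : D) : Bool := decide (t = s + 2)

theorem bt_oth (s : D) (b : Bool) : bt s (oth s b) = b := by
  revert s b; decide

theorem oth_bt {s t : D} (h : t ≠ s) : oth s (bt s t) = t := by
  revert s t; decide

/-- sub-branch in direction `b` -/
def sub {α : Type} (b : Bool) (g : ℕ → α) : ℕ → α := fun j => g (2 * j + 1 + b.toNat)

/-- Re-rooting of a family of three labelled branches through the root edge `s`. -/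
def rer {α : Type} (s : D) (h : D → ℕ → α) : D → ℕ → α := fun t n =>
  if t = s then
    match n with
    | 0 => h s 0
    | n + 1 => h (oth s (n % 2 == 1)) (n / 2)
  else h s (2 * n + 1 + (bt s t).toNat)

theorem rer_zero {α : Type} (s : D) (h : D → ℕ → α) : rer s h s 0 = h s 0 := by
  unfold rer
  rw [if_pos rfl]

theorem mod_two_odd (j : ℕ) (b : Bool) : ((2 * j + b.toNat) % 2 == 1) = b := by
  cases b
  · simp
  · have : (2 * j + 1) % 2 = 1 := by omega
    simp [this]

theorem div_two_odd (j : ℕ) (b : Bool) : (2 * j + b.toNat) / 2 = j := by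
  cases b
  · simp
  · show (2 * j + 1) / 2 = j
    omega

theorem rer_self {α : Type} (s : D) (h : D → ℕ → α) (j : ℕ) (b : Bool) :
    rer s h s (2 * j + 1 + b.toNat) = h (oth s b) j := by
  have e : 2 * j + 1 + b.toNat = (2 * j + b.toNat) + 1 := by omega
  unfold rer
  rw [if_pos rfl, e]
  simp only
  rw [mod_two_odd, div_two_odd]

theorem rer_oth {α : Type} (s : D) (h : D → ℕ → α) (b : Bool) (j : ℕ) :
    rer s h (oth s b) j = h s (2 * j + 1 + b.toNat) := by
  unfold rer
  rw [if_neg (oth_ne s b), bt_oth]

/-- every index is `0` or `2 j + 1 + b` -/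
theorem heap_cases (n : ℕ) : n = 0 ∨ ∃ (j : ℕ) (b : Bool), n = 2 * j + 1 + b.toNat := by
  rcases n with _ | n
  · exact Or.inl rfl
  · right
    refine ⟨n / 2, n % 2 == 1, ?_⟩
    rcases Nat.mod_two_eq_zero_or_one n with h | h
    · rw [h]
      have : ((0 : ℕ) == 1) = false := rfl
      rw [this]
      simp only [Bool.toNat_false]
      omega
    · rw [h]
      have : ((1 : ℕ) == 1) = true := rfl
      rw [this]
      simp only [Bool.toNat_true]
      omega

/-- every direction is `s` or `oth s b` -/
theorem dir_cases (s t : D) : t = s ∨ ∃ b, t = oth s b := by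
  by_cases h : t = s
  · exact Or.inl h
  · exact Or.inr ⟨bt s t, (oth_bt h).symm⟩

theorem rer_rer {α : Type} (s : D) (h : D → ℕ → α) : rer s (rer s h) = h := by
  funext t n
  rcases dir_cases s t with rfl | ⟨b, rfl⟩
  · rcases heap_cases n with rfl | ⟨j, b, rfl⟩
    · rw [rer_zero, rer_zero]
    · rw [rer_self, rer_oth]
  · rw [rer_oth, rer_self]

/-- The sequence of `G_0`: `gz n` restricted to `[0, n)` is the `n`-th word. -/
def gz (n i : ℕ) : Bool :=
  ((Encodable.decode (α := List Bool) (Nat.unpair n).1).getD []).getD i false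

theorem gz_dense (p : List Bool) : ∃ n, p.length ≤ n ∧ ∀ i, i < p.length → gz n i = p.getD i false := by
  refine ⟨Nat.pair (Encodable.encode p) p.length, Nat.right_le_pair _ _, fun i _ => ?_⟩
  unfold gz
  rw [Nat.unpair_pair]
  simp

/-- flip bit `n` -/
def flip (n : ℕ) (k : ℕ → Bool) : ℕ → Bool := Function.update k n (!k n)

/-- Edge number `n` of the branch `g` is a correct `G_0` edge (the upper endpoint of the branch has
label `k`), and its index differs from the indices of its parent edge and, if it is a second child,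
of the sibling edge. -/
def OK : ℕ → (ℕ → Bool) → (ℕ → ℕ) → Prop
  | 0, k, g => ∀ i, i < g 0 → k i = gz (g 0) i
  | n + 1, k, g => OK (n / 2) (flip (g 0) k) (sub (n % 2 == 1) g) ∧
      (n = 0 → g 1 ≠ g 0) ∧ (n = 1 → g 2 ≠ g 0 ∧ g 2 ≠ g 1)
  termination_by n => n
  decreasing_by omega

theorem OK_zero (k : ℕ → Bool) (g : ℕ → ℕ) : OK 0 k g ↔ ∀ i, i < g 0 → k i = gz (g 0) i := by
  rw [OK]

theorem OK_succ (j : ℕ) (b : Bool) (k : ℕ → Bool) (g : ℕ → ℕ) :
    OK (2 * j + 1 + b.toNat) k g ↔ OK j (flip (g 0) k) (sub b g) ∧
      (j = 0 → g (1 + b.toNat) ≠ g 0 ∧ (b = true → g 2 ≠ g 1)) := by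
  have e : 2 * j + 1 + b.toNat = (2 * j + b.toNat) + 1 := by omega
  rw [e, OK, mod_two_odd, div_two_odd]
  apply and_congr_right'
  cases b
  · simp only [Bool.toNat_false, add_zero, Bool.false_eq_true, false_imp_iff, and_true]
    constructor
    · rintro ⟨h1, -⟩ hj
      exact h1 (by omega)
    · intro h
      exact ⟨fun hj => h (by omega), fun hj => by omega⟩
  · simp only [Bool.toNat_true]
    constructor
    · rintro ⟨-, h1⟩ hj
      exact ⟨(h1 (by omega)).1, fun _ => (h1 (by omega)).2⟩
    · intro h
      exact ⟨fun hj => by omega, fun hj => ⟨(h (by omega)).1, (h (by omega)).2 trivial⟩⟩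

/-- root label and three branches -/
abbrev Z0 : Type := (ℕ → Bool) × (D → ℕ → ℕ)

/-- Re-rooting through the root edge in direction `s`. -/
def sig (s : D) (z : Z0) : Z0 := (flip (z.2 s 0) z.1, rer s z.2)

/-- Valid labelled trees: all edges are edges of `G_0`, adjacent edges have distinct indices. -/
def Vld (z : Z0) : Prop := (∀ s j, OK j z.1 (z.2 s)) ∧ ∀ s t : D, s ≠ t → z.2 s 0 ≠ z.2 t 0

/-- Action of a word of directions (the first letter acts first). -/
def act : List D → Z0 → Z0
  | [], z => z
  | s :: w, z => act w (sig s z)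

/-- points of the macro graph: a labelled tree and a bit on every edge -/
abbrev PP : Type := Z0 × (D → ℕ → Bool)

/-- Re-rooting with bits. -/
def sigP (s : D) (p : PP) : PP := (sig s p.1, rer s p.2)

/-- Action of a word on points with bits. -/
def actP : List D → PP → PP
  | [], p => p
  | s :: w, p => actP w (sigP s p)

instance : MeasurableSpace (Option (D × ℕ)) := ⊤

instance : DiscreteMeasurableSpace (Option (D × ℕ)) := ⟨fun _ => trivial⟩

/-- raw vertices of the forest: `none` is the macro vertex, `some (s, n)` are the midpoint (`n = 0`) of the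
macro edge `s` and the vertices (`n ≥ 1`) of the binary tree hanging at it -/
abbrev YR : Type := PP × Option (D × ℕ)

/-- The macro edge `s` at `p` is subdivided and its midpoint belongs to `p`. -/
def Owns (p : PP) (s : D) : Prop := p.2 s 0 = true ∧ p.1.1 (p.1.2 s 0) = false

/-- valid vertices -/
def YV (y : YR) : Prop := Vld y.1.1 ∧ ∀ s n, y.2 = some (s, n) → Owns y.1 s

/-- The vertex set of the forest. -/
abbrev YY : Type := {y : YR // YV y}

/-- The three neighbours of a vertex (raw). -/
def nbr (y : YR) (t : D) : YR :=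
  match y.2 with
  | none =>
    if y.1.2 t 0 = false then (sigP t y.1, none)
    else if y.1.1.1 (y.1.1.2 t 0) = false then (y.1, some (t, 0))
    else (sigP t y.1, some (t, 0))
  | some (s, 0) => if t = 0 then (y.1, none) else if t = 1 then (sigP s y.1, none) else (y.1, some (s, 1))
  | some (s, n + 1) =>
    if t = 0 then (y.1, some (s, (n + 1) / 2))
    else if t = 1 then (y.1, some (s, 2 * (n + 1))) else (y.1, some (s, 2 * (n + 1) + 1))

/-- `some (s, n)` counts as size `n`. -/
def osize : Option (D × ℕ) → ℕ
  | none => 0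
  | some (_, n) => n

/-- The hyperfiniteness witness: same orbit, labels agree from bit `m` on, and bounded position in the
hanging trees unless the points are equal. -/
def FF (m : ℕ) (y y' : YR) : Prop :=
  (∃ w : List D, y'.1 = actP w y.1) ∧
  (∀ i, m ≤ i → y.1.1.1 i = y'.1.1.1 i) ∧ (y = y' ∨ (osize y.2 ≤ m ∧ osize y'.2 ≤ m))

/-! ## Signs and bits -/

/-- vertices of the rooted 3-regular tree: the root and the lower endpoints of the edges -/
abbrev Vt : Type := Option (D × ℕ)

/-- Bits of a branch: `u` is the sign of its upper endpoint, `v r` the sign of the lower endpoint of edge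
`r`; the bit of an edge is `true` iff the signs at its endpoints are equal. -/
def ebits : ℕ → Bool → (ℕ → Bool) → Bool
  | 0, u, v => (u == v 0)
  | n + 1, _, v => ebits (n / 2) (v 0) (sub (n % 2 == 1) v)
  termination_by n => n
  decreasing_by omega

/-- bits of a sign pattern -/
def bits (η : Vt → Bool) : D → ℕ → Bool := fun s n => ebits n (η none) (fun r => η (some (s, r)))

/-- Re-rooting of the vertices of the tree. -/
def rho (s : D) : Vt → Vt
  | none => some (s, 0)
  | some (t, n) =>
    if t = s then
      match n with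
      | 0 => none
      | n + 1 => some (oth s (n % 2 == 1), n / 2)
    else some (s, 2 * n + 1 + (bt s t).toNat)

theorem ebits_zero (u : Bool) (v : ℕ → Bool) : ebits 0 u v = (u == v 0) := by rw [ebits]

theorem ebits_succ (j : ℕ) (b u : Bool) (v : ℕ → Bool) :
    ebits (2 * j + 1 + b.toNat) u v = ebits j (v 0) (sub b v) := by
  have e : 2 * j + 1 + b.toNat = (2 * j + b.toNat) + 1 := by omega
  rw [e, ebits, mod_two_odd, div_two_odd]

theorem rho_none (s : D) : rho s none = some (s, 0) := rfl

theorem rho_zero (s : D) : rho s (some (s, 0)) = none := by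
  unfold rho; simp

theorem rho_self (s : D) (j : ℕ) (b : Bool) :
    rho s (some (s, 2 * j + 1 + b.toNat)) = some (oth s b, j) := by
  have e : 2 * j + 1 + b.toNat = (2 * j + b.toNat) + 1 := by omega
  unfold rho
  rw [e]
  simp only [if_true]
  rw [mod_two_odd, div_two_odd]

theorem rho_oth (s : D) (b : Bool) (j : ℕ) :
    rho s (some (oth s b, j)) = some (s, 2 * j + 1 + b.toNat) := by
  unfold rho
  simp only [if_neg (oth_ne s b), bt_oth]

theorem rho_rho (s : D) (v : Vt) : rho s (rho s v) = v := by
  rcases v with _ | ⟨t, n⟩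
  · rw [rho_none, rho_zero]
  · rcases dir_cases s t with rfl | ⟨b, rfl⟩
    · rcases heap_cases n with rfl | ⟨j, b, rfl⟩
      · rw [rho_zero, rho_none]
      · rw [rho_self, rho_oth]
    · rw [rho_oth, rho_self]

end Pool.Agent.Helper85.BFC
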