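import Pool.Agent.Helper85.BFC.Nbr

set_option autoImplicit false

namespace Pool.Agent.Helper85.BFC

open MeasureTheory

theorem GG_meas : MeasurableSet {p : YY × YY | GG.Adj p.1 p.2} := by
  have h : {p : YY × YY | GG.Adj p.1 p.2} = ⋃ t : D, {p : YY × YY | nbr p.1.1 t = p.2.1} := by
    ext p
    simp only [Set.mem_ofPred_eq, Set.mem_iUnion]
    exact GG_adj p.1 p.2
  rw [h]
  refine MeasurableSet.iUnion fun t => ?_
  exact measurableSet_eq_fun
    ((measurable_nbr t).comp (measurable_subtype_coe.comp measurable_fst))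
    (measurable_subtype_coe.comp measurable_snd)

theorem GG_reg (x : YY) : (GG.neighborSet x).ncard = 3 := by
  let f : D → YY := fun t => ⟨nbr x.1 t, nbr_valid x.2 t⟩
  have hf : Function.Injective f := fun t t' h => nbr_inj x.2 (congrArg Subtype.val h)
  have h : GG.neighborSet x = f '' Set.univ := by
    ext y
    rw [SimpleGraph.mem_neighborSet, GG_adj]
    constructor
    · rintro ⟨t, ht⟩
      exact ⟨t, Set.mem_univ _, Subtype.ext ht⟩
    · rintro ⟨t, -, ht⟩
      exact ⟨t, congrArg Subtype.val ht⟩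
  rw [h, Set.ncard_image_of_injective _ hf, Set.ncard_univ, Nat.card_eq_fintype_card,
    Fintype.card_fin]

theorem GG_direct (p : PP) (hp : Vld p.1) (t : D) (hp' : Vld (sigP t p).1) (h : p.2 t 0 = false) :
    GG.Adj (mac p hp) (mac (sigP t p) hp') := by
  rw [GG_adj]
  refine ⟨t, ?_⟩
  change nbr (p, none) t = (sigP t p, none)
  unfold nbr
  simp [h]

theorem GG_mid (p : PP) (hp : Vld p.1) (t : D) (hp' : Vld (sigP t p).1) (h : p.2 t 0 = true) :
    ∃ m, GG.Adj (mac p hp) m ∧ GG.Adj m (mac (sigP t p) hp') := by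
  by_cases hk : p.1.1 (p.1.2 t 0) = false
  · have hv : YV (p, some (t, 0)) := by
      refine ⟨hp, fun s n hs => ?_⟩
      simp only [Option.some.injEq, Prod.mk.injEq] at hs
      obtain ⟨rfl, -⟩ := hs
      exact ⟨h, hk⟩
    refine ⟨⟨(p, some (t, 0)), hv⟩, ?_, ?_⟩
    · rw [GG_adj]
      refine ⟨t, ?_⟩
      change nbr (p, none) t = (p, some (t, 0))
      unfold nbr
      simp [h, hk]
    · rw [GG_adj]
      refine ⟨1, ?_⟩
      change nbr (p, some (t, 0)) 1 = (sigP t p, none)
      unfold nbr
      simp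
  · have hk' : p.1.1 (p.1.2 t 0) = true := by simpa using hk
    have hv : YV (sigP t p, some (t, 0)) := by
      refine ⟨hp', fun s n hs => ?_⟩
      simp only [Option.some.injEq, Prod.mk.injEq] at hs
      obtain ⟨rfl, -⟩ := hs
      refine ⟨?_, ?_⟩
      · change rer t p.2 t 0 = true
        rw [rer_zero, h]
      · change flip (p.1.2 t 0) p.1.1 (rer t p.1.2 t 0) = false
        rw [rer_zero]
        unfold flip
        rw [Function.update_self, hk']
        rfl
    refine ⟨⟨(sigP t p, some (t, 0)), hv⟩, ?_, ?_⟩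
    · rw [GG_adj]
      refine ⟨t, ?_⟩
      change nbr (p, none) t = (sigP t p, some (t, 0))
      unfold nbr
      simp [h, hk']
    · rw [GG_adj]
      refine ⟨0, ?_⟩
      change nbr (sigP t p, some (t, 0)) 0 = (sigP t p, none)
      unfold nbr
      simp

end Pool.Agent.Helper85.BFC
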