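import Pool.Agent.Helper85.BFC.Defs

/-!
# Borel measurability of re-rooting and of the validity conditions
-/

set_option autoImplicit false

namespace Pool.Agent.Helper85.BFC

open MeasureTheory

theorem flip_apply (n : ℕ) (k : ℕ → Bool) (i : ℕ) :
    flip n k i = if i = n then !(k i) else k i := by
  unfold flip
  rw [Function.update_apply]
  by_cases h : i = n
  · rw [if_pos h, if_pos h, h]
  · rw [if_neg h, if_neg h]

theorem measurable_flip {α : Type} [MeasurableSpace α] {n : α → ℕ} {k : α → ℕ → Bool}
    (hn : Measurable n) (hk : Measurable k) : Measurable (fun a => flip (n a) (k a)) := by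
  refine measurable_pi_lambda _ fun i => ?_
  have e : (fun a => flip (n a) (k a) i) =
      (fun q : ℕ × Bool => if i = q.1 then !q.2 else q.2) ∘ (fun a => (n a, k a i)) := by
    funext a
    simp only [Function.comp_apply, flip_apply]
  rw [e]
  refine Measurable.comp (measurable_of_countable _) ?_
  exact hn.prodMk ((measurable_pi_apply i).comp hk)

theorem measurable_rer {β : Type} [MeasurableSpace β] (s : D) :
    Measurable (fun h : D → ℕ → β => rer s h) := by
  refine measurable_pi_lambda _ fun t => measurable_pi_lambda _ fun n => ?_
  have key : ∀ (t' : D) (n' : ℕ), Measurable (fun h : D → ℕ → β => h t' n') := fun t' n' =>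
    (measurable_pi_apply n').comp (measurable_pi_apply t')
  rcases dir_cases s t with rfl | ⟨b, rfl⟩
  · rcases heap_cases n with rfl | ⟨j, b, rfl⟩
    · simp only [rer_zero]
      exact key _ _
    · simp only [rer_self]
      exact key _ _
  · simp only [rer_oth]
    exact key _ _

theorem measurable_sig (s : D) : Measurable (sig s) := by
  unfold sig
  refine Measurable.prodMk ?_ ?_
  · refine measurable_flip ?_ measurable_fst
    exact (measurable_pi_apply 0).comp ((measurable_pi_apply s).comp measurable_snd)
  · exact (measurable_rer s).comp measurable_snd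

theorem measurable_sigP (s : D) : Measurable (sigP s) := by
  unfold sigP
  exact ((measurable_sig s).comp measurable_fst).prodMk ((measurable_rer s).comp measurable_snd)

theorem measurable_act (w : List D) : Measurable (act w) := by
  induction w with
  | nil => exact measurable_id
  | cons s w ih => exact ih.comp (measurable_sig s)

theorem measurable_actP (w : List D) : Measurable (actP w) := by
  induction w with
  | nil => exact measurable_id
  | cons s w ih => exact ih.comp (measurable_sigP s)

theorem measurable_sub {α : Type} [MeasurableSpace α] {β : Type} [MeasurableSpace β] (b : Bool)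
    {g : α → ℕ → β} (hg : Measurable g) : Measurable (fun a => sub b (g a)) := by
  refine measurable_pi_lambda _ fun j => ?_
  exact (measurable_pi_apply (2 * j + 1 + b.toNat)).comp hg

/-- legality conditions are Borel: for Borel maps into labels and branches -/
theorem measurableSet_OK {α : Type} [MeasurableSpace α] (n : ℕ) {k : α → ℕ → Bool} {g : α → ℕ → ℕ}
    (hk : Measurable k) (hg : Measurable g) : MeasurableSet {a | OK n (k a) (g a)} := by
  induction n using Nat.strong_induction_on generalizing k g with
  | _ n ih =>
    have key : ∀ i : ℕ, Measurable (fun a => g a i) := fun i => (measurable_pi_apply i).comp hg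
    rcases heap_cases n with rfl | ⟨j, b, rfl⟩
    · have e : {a | OK 0 (k a) (g a)} =
          ⋂ i : ℕ, (fun a => (g a 0, k a i)) ⁻¹' {q : ℕ × Bool | i < q.1 → q.2 = gz q.1 i} := by
        ext a
        simp only [Set.mem_setOf_eq, OK_zero, Set.mem_iInter, Set.mem_preimage]
      rw [e]
      refine MeasurableSet.iInter fun i => ?_
      exact ((key 0).prodMk ((measurable_pi_apply i).comp hk)) (Set.to_countable _).measurableSet
    · have e : {a | OK (2 * j + 1 + b.toNat) (k a) (g a)} =
          {a | OK j (flip (g a 0) (k a)) (sub b (g a))} ∩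
          (fun a => (g a 0, g a (1 + b.toNat), g a 2, g a 1)) ⁻¹'
            {q : ℕ × ℕ × ℕ × ℕ | j = 0 → q.2.1 ≠ q.1 ∧ (b = true → q.2.2.1 ≠ q.2.2.2)} := by
        ext a
        simp only [Set.mem_setOf_eq, OK_succ, Set.mem_inter_iff, Set.mem_preimage]
      rw [e]
      refine MeasurableSet.inter ?_ ?_
      · exact ih j (by omega) (measurable_flip (key 0) hk) (measurable_sub b hg)
      · exact ((key 0).prodMk ((key _).prodMk ((key 2).prodMk (key 1))))
          (Set.to_countable _).measurableSet

theorem measurableSet_vld : MeasurableSet {z : Z0 | Vld z} := by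
  have hb : ∀ s : D, Measurable (fun z : Z0 => z.2 s) := fun s =>
    (measurable_pi_apply s).comp measurable_snd
  have e : {z : Z0 | Vld z} = (⋂ s : D, ⋂ j : ℕ, {z : Z0 | OK j z.1 (z.2 s)}) ∩
      ⋂ s : D, ⋂ t : D, (fun z : Z0 => (z.2 s 0, z.2 t 0)) ⁻¹' {q : ℕ × ℕ | s ≠ t → q.1 ≠ q.2} := by
    ext z
    simp only [Set.mem_setOf_eq, Vld, Set.mem_inter_iff, Set.mem_iInter, Set.mem_preimage]
  rw [e]
  refine MeasurableSet.inter ?_ ?_
  · exact MeasurableSet.iInter fun s => MeasurableSet.iInter fun j =>
      measurableSet_OK j measurable_fst (hb s)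
  · refine MeasurableSet.iInter fun s => MeasurableSet.iInter fun t => ?_
    exact (((measurable_pi_apply 0).comp (hb s)).prodMk ((measurable_pi_apply 0).comp (hb t)))
      (Set.to_countable _).measurableSet

end Pool.Agent.Helper85.BFC
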