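import Pool.Agent.Helper85.BFC.GameDefs
import Pool.Agent.Helper85.BFC.Meas

/-!
# Module B3: the winning set of the game is Borel
-/

set_option autoImplicit false

namespace Pool.Agent.Helper85.BFC

open MeasureTheory

namespace MeasGameAux

/-- Sets depending on finitely many moves are measurable. -/
theorem fin_dep (N : ℕ) (S : Set ((ℕ → Mv) × (ℕ → Mv)))
    (h : ∀ w w' : (ℕ → Mv) × (ℕ → Mv), (∀ i < N, w.1 i = w'.1 i ∧ w.2 i = w'.2 i) → w ∈ S → w' ∈ S) :
    MeasurableSet S := by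
  let res : (ℕ → Mv) × (ℕ → Mv) → (Fin N → Mv) × (Fin N → Mv) :=
    fun w => (fun i => w.1 i, fun i => w.2 i)
  have hres : Measurable res := by
    apply Measurable.prodMk
    · exact measurable_pi_lambda _ fun i => (measurable_pi_apply (i : ℕ)).comp measurable_fst
    · exact measurable_pi_lambda _ fun i => (measurable_pi_apply (i : ℕ)).comp measurable_snd
  have he : S = res ⁻¹' (res '' S) := by
    apply Set.Subset.antisymm (Set.subset_preimage_image _ _)
    rintro w ⟨w', hw', e⟩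
    refine h w' w (fun i hi => ?_) hw'
    have e1 := congrFun (congrArg Prod.fst e) ⟨i, hi⟩
    have e2 := congrFun (congrArg Prod.snd e) ⟨i, hi⟩
    exact ⟨e1, e2⟩
  rw [he]
  exact hres (Set.Countable.measurableSet (Set.to_countable _))

theorem wd_dep (p : List Bool) (n : ℕ) (w w' : (ℕ → Mv) × (ℕ → Mv))
    (h : ∀ i < n, w.1 i = w'.1 i ∧ w.2 i = w'.2 i) : wd p w.1 w.2 n = wd p w'.1 w'.2 n := by
  induction n with
  | zero => rfl
  | succ n ih =>
    rw [wd_succ, wd_succ, ih (fun i hi => h i (by omega)), (h n (by omega)).1, (h n (by omega)).2]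

theorem meas_kk (p : List Bool) :
    Measurable (fun w : (ℕ → Mv) × (ℕ → Mv) => kk p w.1 w.2) := by
  refine measurable_pi_lambda _ fun i => measurable_to_countable' fun b => ?_
  apply fin_dep (i + 1)
  intro w w' h hw
  rw [Set.mem_preimage, Set.mem_singleton_iff] at hw ⊢
  rw [← hw]
  unfold kk
  rw [wd_dep p (i + 1) w w' h]

theorem meas_idx1 (n : ℕ) : Measurable (fun w : (ℕ → Mv) × (ℕ → Mv) => (w.1 n).i) :=
  (Measurable.of_discrete (f := fun m : Mv => m.i)).comp
    ((measurable_pi_apply n).comp measurable_fst)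

theorem meas_idx2 (n : ℕ) : Measurable (fun w : (ℕ → Mv) × (ℕ → Mv) => (w.2 n).i) :=
  (Measurable.of_discrete (f := fun m : Mv => m.i)).comp
    ((measurable_pi_apply n).comp measurable_snd)

theorem meas_LI (p : List Bool) (r : ℕ) :
    MeasurableSet {w : (ℕ → Mv) × (ℕ → Mv) | LI p w.1 w.2 r} := by
  have h1 : MeasurableSet {w : (ℕ → Mv) × (ℕ → Mv) |
      (w.1 r).i < (wd p w.1 w.2 r ++ blk (w.1 r)).length} := by
    apply fin_dep (r + 1)
    intro w w' h hw
    have e := wd_dep p r w w' (fun i hi => h i (by omega))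
    have e1 := (h r (by omega)).1
    show (w'.1 r).i < (wd p w'.1 w'.2 r ++ blk (w'.1 r)).length
    rw [← e, ← e1]
    exact hw
  have h2 : MeasurableSet {w : (ℕ → Mv) × (ℕ → Mv) | OK r (kk p w.1 w.2) (fun n => (w.1 n).i)} :=
    measurableSet_OK r (meas_kk p) (measurable_pi_lambda _ fun n => meas_idx1 n)
  have h3 : MeasurableSet {w : (ℕ → Mv) × (ℕ → Mv) | r = 0 → p.length ≤ (w.1 0).i} := by
    apply fin_dep 1
    intro w w' h hw hr
    rw [← (h 0 (by omega)).1]
    exact hw hr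
  exact h1.inter (h2.inter h3)

theorem meas_LII (p : List Bool) (r : ℕ) :
    MeasurableSet {w : (ℕ → Mv) × (ℕ → Mv) | LII p w.1 w.2 r} := by
  have h1 : MeasurableSet {w : (ℕ → Mv) × (ℕ → Mv) |
      (w.2 r).i < (wd p w.1 w.2 (r + 1)).length} := by
    apply fin_dep (r + 1)
    intro w w' h hw
    have e := wd_dep p (r + 1) w w' h
    have e1 := (h r (by omega)).2
    show (w'.2 r).i < (wd p w'.1 w'.2 (r + 1)).length
    rw [← e, ← e1]
    exact hw
  have h2 : MeasurableSet {w : (ℕ → Mv) × (ℕ → Mv) |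
      OK (r / 2) (kk p w.1 w.2) (fun j => (w.2 (2 * j + r % 2)).i)} :=
    measurableSet_OK (r / 2) (meas_kk p) (measurable_pi_lambda _ fun n => meas_idx2 _)
  have h3 : MeasurableSet {w : (ℕ → Mv) × (ℕ → Mv) | r = 0 → (w.2 0).i ≠ (w.1 0).i} := by
    apply fin_dep 1
    intro w w' h hw hr
    rw [← (h 0 (by omega)).1, ← (h 0 (by omega)).2]
    exact hw hr
  have h4 : MeasurableSet {w : (ℕ → Mv) × (ℕ → Mv) |
      r = 1 → (w.2 1).i ≠ (w.1 0).i ∧ (w.2 1).i ≠ (w.2 0).i} := by
    apply fin_dep 2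
    intro w w' h hw hr
    rw [← (h 0 (by omega)).1, ← (h 0 (by omega)).2, ← (h 1 (by omega)).2]
    exact hw hr
  exact h1.inter (h2.inter (h3.inter h4))

theorem meas_zz (s : D) (p : List Bool) :
    Measurable (fun w : (ℕ → Mv) × (ℕ → Mv) => zz s p w.1 w.2) := by
  apply Measurable.prodMk (meas_kk p)
  refine measurable_pi_lambda _ fun t => measurable_pi_lambda _ fun n => ?_
  by_cases ht : t = s
  · simp only [ht, if_true]
    exact meas_idx1 n
  · simp only [ht, if_false]
    exact meas_idx2 _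

end MeasGameAux

open MeasGameAux in
theorem measurableSet_WI {c : Z0 → D} (hc : Measurable c) (s : D) (p : List Bool) :
    MeasurableSet (WI c s p) := by
  have h1 : MeasurableSet (⋃ r, ({w : (ℕ → Mv) × (ℕ → Mv) | LII p w.1 w.2 r}ᶜ ∩
      ⋂ r' ∈ Set.Iic r, {w : (ℕ → Mv) × (ℕ → Mv) | LI p w.1 w.2 r'})) :=
    MeasurableSet.iUnion fun r => (meas_LII p r).compl.inter
      (MeasurableSet.biInter (Set.to_countable _) fun r' _ => meas_LI p r')
  have h2 : MeasurableSet ((⋂ r, ({w : (ℕ → Mv) × (ℕ → Mv) | LI p w.1 w.2 r} ∩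
      {w : (ℕ → Mv) × (ℕ → Mv) | LII p w.1 w.2 r})) ∩
      (fun w : (ℕ → Mv) × (ℕ → Mv) => c (zz s p w.1 w.2)) ⁻¹' {s}ᶜ) :=
    (MeasurableSet.iInter fun r => (meas_LI p r).inter (meas_LII p r)).inter
      ((hc.comp (meas_zz s p)) (MeasurableSet.of_discrete))
  convert h1.union h2 using 1
  ext w
  simp only [WI, Set.mem_ofPred_eq, Set.mem_union, Set.mem_iUnion, Set.mem_inter_iff, Set.mem_compl_iff,
    Set.mem_iInter, Set.mem_Iic, Set.mem_preimage, Set.mem_singleton_iff]

end Pool.Agent.Helper85.BFC
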