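import Pool.Agent.Helper85.BFC.GameDefs

/-!
# Three simultaneous games
-/

set_option autoImplicit false

namespace Pool.Agent.Helper85.BFC

namespace ThreeAux

/-- the branches of the common tree -/
def br (a b d : ℕ → Mv) (t : D) (n : ℕ) : ℕ :=
  if t = 0 then (a n).i else if t = 1 then (b n).i else (d n).i

theorem wA_succ (a b d : ℕ → Mv) (r : ℕ) : wd [] a (yA b d) (r + 1) =
    wd [] a (yA b d) r ++ blk (a r) ++ blk (b r) ++ blk (d r) := by
  rw [wd_succ, yA, blk_cat]
  simp only [List.append_assoc]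

theorem wB_eq (a b d : ℕ → Mv) (r : ℕ) : wd (blk (a 0)) b (yB a d) r =
    wd [] a (yA b d) r ++ blk (a r) := by
  induction r with
  | zero => rw [wd_zero, wd_zero, List.nil_append]
  | succ r ih =>
    rw [wd_succ, ih, wA_succ, yB, blk_cat]
    simp only [List.append_assoc]

theorem wC_eq (a b d : ℕ → Mv) (r : ℕ) : wd (blk (a 0) ++ blk (b 0)) d (yC a b) r =
    wd [] a (yA b d) r ++ blk (a r) ++ blk (b r) := by
  induction r with
  | zero => rw [wd_zero, wd_zero, List.nil_append]
  | succ r ih =>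
    rw [wd_succ, ih, wA_succ, yC, blk_cat]
    simp only [List.append_assoc]

theorem kB_eq (a b d : ℕ → Mv) : kk (blk (a 0)) b (yB a d) = kk [] a (yA b d) := by
  funext i
  unfold kk
  rw [wB_eq]
  have h : i < (wd [] a (yA b d) (i + 1)).length := by
    have := wd_length [] a (yA b d) (i + 1)
    omega
  exact (getD_prefix (List.prefix_append _ _) h).symm

theorem kC_eq (a b d : ℕ → Mv) : kk (blk (a 0) ++ blk (b 0)) d (yC a b) = kk [] a (yA b d) := by
  funext i
  unfold kk
  rw [wC_eq]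
  have h : i < (wd [] a (yA b d) (i + 1)).length := by
    have := wd_length [] a (yA b d) (i + 1)
    omega
  rw [List.append_assoc]
  exact (getD_prefix (List.prefix_append _ _) h).symm

theorem mix_even (u v : ℕ → Mv) (j : ℕ) : mixIdx u v (2 * j) = (u j).i := by
  unfold mixIdx
  rw [if_pos (by omega)]
  congr 2
  omega

theorem mix_odd (u v : ℕ → Mv) (j : ℕ) : mixIdx u v (2 * j + 1) = (v j).i := by
  unfold mixIdx
  rw [if_neg (by omega)]
  congr 2
  omega

theorem yA_i (b d : ℕ → Mv) (r : ℕ) : (yA b d r).i = mixIdx b d r := rfl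

theorem yB_i (a d : ℕ → Mv) (r : ℕ) : (yB a d r).i = mixIdx d a r := rfl

theorem yC_i (a b : ℕ → Mv) (r : ℕ) : (yC a b r).i = mixIdx a b r := rfl

theorem bt_vals : bt 0 1 = false ∧ bt 0 2 = true ∧ bt 1 2 = false ∧ bt 1 0 = true ∧
    bt 2 0 = false ∧ bt 2 1 = true := by decide

theorem zA (a b d : ℕ → Mv) : zz 0 [] a (yA b d) = (kk [] a (yA b d), br a b d) := by
  unfold zz
  congr 1
  funext t n
  obtain ⟨h1, h2, -⟩ := bt_vals
  fin_cases t
  · rfl
  · show (if (1 : D) = 0 then (a n).i else (yA b d (2 * n + (bt 0 1).toNat)).i) = (b n).i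
    rw [if_neg (by decide), h1, yA_i, Bool.toNat_false, add_zero, mix_even]
  · show (if (2 : D) = 0 then (a n).i else (yA b d (2 * n + (bt 0 2).toNat)).i) = (d n).i
    rw [if_neg (by decide), h2, yA_i, Bool.toNat_true, mix_odd]

theorem zB (a b d : ℕ → Mv) : zz 1 (blk (a 0)) b (yB a d) = (kk [] a (yA b d), br a b d) := by
  unfold zz
  rw [kB_eq]
  congr 1
  funext t n
  obtain ⟨-, -, h1, h2, -⟩ := bt_vals
  fin_cases t
  · show (if (0 : D) = 1 then (b n).i else (yB a d (2 * n + (bt 1 0).toNat)).i) = (a n).i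
    rw [if_neg (by decide), h2, yB_i, Bool.toNat_true, mix_odd]
  · rfl
  · show (if (2 : D) = 1 then (b n).i else (yB a d (2 * n + (bt 1 2).toNat)).i) = (d n).i
    rw [if_neg (by decide), h1, yB_i, Bool.toNat_false, add_zero, mix_even]

theorem zC (a b d : ℕ → Mv) :
    zz 2 (blk (a 0) ++ blk (b 0)) d (yC a b) = (kk [] a (yA b d), br a b d) := by
  unfold zz
  rw [kC_eq]
  congr 1
  funext t n
  obtain ⟨-, -, -, -, h1, h2⟩ := bt_vals
  fin_cases t
  · show (if (0 : D) = 2 then (d n).i else (yC a b (2 * n + (bt 2 0).toNat)).i) = (a n).i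
    rw [if_neg (by decide), h1, yC_i, Bool.toNat_false, add_zero, mix_even]
  · show (if (1 : D) = 2 then (d n).i else (yC a b (2 * n + (bt 2 1).toNat)).i) = (b n).i
    rw [if_neg (by decide), h2, yC_i, Bool.toNat_true, mix_odd]
  · rfl

/-- the length of the word in the first game -/
def len (a b d : ℕ → Mv) (r : ℕ) : ℕ := (wd [] a (yA b d) r).length

theorem len_mono (a b d : ℕ → Mv) {r r' : ℕ} (h : r ≤ r') : len a b d r ≤ len a b d r' :=
  (wd_prefix [] a (yA b d) h).length_le

theorem len_succ (a b d : ℕ → Mv) (r : ℕ) : len a b d (r + 1) =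
    len a b d r + (blk (a r)).length + (blk (b r)).length + (blk (d r)).length := by
  unfold len
  rw [wA_succ]
  simp only [List.length_append]

/-- the first `r` moves of the three first players are legal -/
def L (a b d : ℕ → Mv) (r : ℕ) : Prop :=
  LI [] a (yA b d) r ∧ LI (blk (a 0)) b (yB a d) r ∧ LI (blk (a 0) ++ blk (b 0)) d (yC a b) r

/-- the consequences of the legality of the first players -/
structure Good (a b d : ℕ → Mv) (r : ℕ) : Prop where
  a_lt : (a r).i < len a b d (r + 1)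
  b_lt : (b r).i < len a b d (r + 1)
  d_lt : (d r).i < len a b d (r + 1)
  a_ok : OK r (kk [] a (yA b d)) (fun n => (a n).i)
  b_ok : OK r (kk [] a (yA b d)) (fun n => (b n).i)
  d_ok : OK r (kk [] a (yA b d)) (fun n => (d n).i)
  ab : r = 0 → (a 0).i < (b 0).i
  bd : r = 0 → (b 0).i < (d 0).i

theorem good_of_L {a b d : ℕ → Mv} {r : ℕ} (h : L a b d r) : Good a b d r := by
  obtain ⟨⟨a1, a2, -⟩, ⟨b1, b2, b3⟩, d1, d2, d3⟩ := h
  rw [kB_eq] at b2
  rw [kC_eq] at d2
  rw [wB_eq] at b1
  rw [wC_eq] at d1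
  simp only [List.length_append] at a1 b1 d1 d3
  have hl := len_succ a b d r
  unfold len at hl
  refine ⟨?_, ?_, ?_, a2, b2, d2, ?_, ?_⟩
  · unfold len; omega
  · unfold len; omega
  · unfold len; omega
  · intro hr
    have := b3 hr
    subst hr
    rw [wd_zero] at a1
    simp only [List.length_nil] at a1
    omega
  · intro hr
    have := d3 hr
    subst hr
    rw [wd_zero] at b1
    simp only [List.length_nil] at b1
    omega

/-- legality of the second player -/
theorem lII_aux {p : List Bool} {x u v : ℕ → Mv} {y : ℕ → Mv} (hy : ∀ r, (y r).i = mixIdx u v r)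
    (r : ℕ) {M : ℕ} (hlen : M ≤ (wd p x y (r + 1)).length)
    (hu : r % 2 = 0 → (u (r / 2)).i < M ∧ OK (r / 2) (kk p x y) (fun n => (u n).i))
    (hv : r % 2 = 1 → (v (r / 2)).i < M ∧ OK (r / 2) (kk p x y) (fun n => (v n).i))
    (h1 : (u 0).i ≠ (x 0).i) (h2 : (v 0).i ≠ (x 0).i) (h3 : (v 0).i ≠ (u 0).i) :
    LII p x y r := by
  have e0 : (y 0).i = (u 0).i := by rw [hy]; exact mix_even u v 0
  have e1 : (y 1).i = (v 0).i := by rw [hy]; exact mix_odd u v 0
  refine ⟨?_, ?_, ?_, ?_⟩
  · rw [hy]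
    unfold mixIdx
    rcases Nat.mod_two_eq_zero_or_one r with h | h
    · rw [if_pos h]
      exact lt_of_lt_of_le (hu h).1 hlen
    · rw [if_neg (by omega)]
      exact lt_of_lt_of_le (hv h).1 hlen
  · rcases Nat.mod_two_eq_zero_or_one r with h | h
    · have : (fun j => (y (2 * j + r % 2)).i) = fun n => (u n).i := by
        funext j
        rw [hy, h, add_zero, mix_even]
      rw [this]
      exact (hu h).2
    · have : (fun j => (y (2 * j + r % 2)).i) = fun n => (v n).i := by
        funext j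
        rw [hy, h, mix_odd]
      rw [this]
      exact (hv h).2
  · intro _
    rw [e0]
    exact h1
  · intro _
    rw [e0, e1]
    exact ⟨h2, h3⟩

theorem lII_A {a b d : ℕ → Mv} {r : ℕ} (h : ∀ j, j ≤ r → Good a b d j) :
    LII [] a (yA b d) r := by
  have g := h (r / 2) (by omega)
  have g0 := h 0 (by omega)
  have m := len_mono a b d (show r / 2 + 1 ≤ r + 1 by omega)
  have i1 := g0.ab rfl
  have i2 := g0.bd rfl
  refine lII_aux (yA_i b d) r (M := len a b d (r + 1)) le_rfl (fun _ => ⟨?_, g.b_ok⟩)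
    (fun _ => ⟨?_, g.d_ok⟩) ?_ ?_ ?_
  · exact lt_of_lt_of_le g.b_lt m
  · exact lt_of_lt_of_le g.d_lt m
  all_goals omega

theorem lII_B {a b d : ℕ → Mv} {r : ℕ} (h : ∀ j, j ≤ r → Good a b d j) :
    LII (blk (a 0)) b (yB a d) r := by
  have g := h (r / 2) (by omega)
  have g0 := h 0 (by omega)
  have m := len_mono a b d (show r / 2 + 1 ≤ r + 1 by omega)
  have i1 := g0.ab rfl
  have i2 := g0.bd rfl
  refine lII_aux (yB_i a d) r (M := len a b d (r + 1)) ?_ (fun _ => ⟨?_, ?_⟩)
    (fun _ => ⟨?_, ?_⟩) ?_ ?_ ?_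
  · rw [wB_eq, List.length_append]
    unfold len
    omega
  · exact lt_of_lt_of_le g.d_lt m
  · rw [kB_eq]; exact g.d_ok
  · exact lt_of_lt_of_le g.a_lt m
  · rw [kB_eq]; exact g.a_ok
  all_goals omega

theorem lII_C {a b d : ℕ → Mv} {r : ℕ} (h : ∀ j, j ≤ r → Good a b d j) :
    LII (blk (a 0) ++ blk (b 0)) d (yC a b) r := by
  have g := h (r / 2) (by omega)
  have g0 := h 0 (by omega)
  have m := len_mono a b d (show r / 2 + 1 ≤ r + 1 by omega)
  have i1 := g0.ab rfl
  have i2 := g0.bd rfl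
  refine lII_aux (yC_i a b) r (M := len a b d (r + 1)) ?_ (fun _ => ⟨?_, ?_⟩)
    (fun _ => ⟨?_, ?_⟩) ?_ ?_ ?_
  · rw [wC_eq, List.length_append, List.length_append]
    unfold len
    omega
  · exact lt_of_lt_of_le g.a_lt m
  · rw [kC_eq]; exact g.a_ok
  · exact lt_of_lt_of_le g.b_lt m
  · rw [kC_eq]; exact g.b_ok
  all_goals omega

/-- if all moves of the second player in rounds before `r` are legal, and the play is won by the first
player, then move `r` of the first player is legal -/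
theorem legal_of_WI {c : Z0 → D} {s : D} {p : List Bool} {x y : ℕ → Mv} (h : (x, y) ∈ WI c s p)
    {r : ℕ} (hr : ∀ j, j < r → LII p x y j) : LI p x y r := by
  by_contra hn
  rcases h with ⟨r0, h1, h2⟩ | ⟨h1, -⟩
  · rcases Nat.lt_or_ge r0 r with h3 | h3
    · exact h1 (hr r0 h3)
    · exact hn (h2 r h3)
  · exact hn (h1 r).1

theorem ne_of_WI {c : Z0 → D} {s : D} {p : List Bool} {x y : ℕ → Mv} (h : (x, y) ∈ WI c s p)
    (hr : ∀ j, LII p x y j) : c (zz s p x y) ≠ s := by
  rcases h with ⟨r0, h1, -⟩ | ⟨-, h2⟩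
  · exact absurd (hr r0) h1
  · exact h2

end ThreeAux

open ThreeAux

theorem three_core (c : Z0 → D) (a b d : ℕ → Mv) (hA : (a, yA b d) ∈ WI c 0 [])
    (hB : (b, yB a d) ∈ WI c 1 (blk (a 0))) (hC : (d, yC a b) ∈ WI c 2 (blk (a 0) ++ blk (b 0))) :
    False := by
  have hL : ∀ r, Good a b d r := by
    intro r
    induction r using Nat.strong_induction_on with
    | _ r ih =>
      refine good_of_L ⟨legal_of_WI hA fun j hj => lII_A fun i hi => ih i (by omega),
        legal_of_WI hB fun j hj => lII_B fun i hi => ih i (by omega),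
        legal_of_WI hC fun j hj => lII_C fun i hi => ih i (by omega)⟩
  have h0 := ne_of_WI hA fun j => lII_A fun i _ => hL i
  have h1 := ne_of_WI hB fun j => lII_B fun i _ => hL i
  have h2 := ne_of_WI hC fun j => lII_C fun i _ => hL i
  rw [zA] at h0
  rw [zB] at h1
  rw [zC] at h2
  generalize c (kk [] a (yA b d), br a b d) = t at h0 h1 h2
  revert t
  decide

end Pool.Agent.Helper85.BFC
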