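import Pool.Agent.Helper85.BFC.Defs

/-!
# The forest and the Walsh weights: definitions
-/

set_option autoImplicit false

namespace Pool.Agent.Helper85.BFC

open MeasureTheory

/-- The forest. -/
def GG : SimpleGraph YY := SimpleGraph.fromRel (fun y y' => ∃ t, nbr y.1 t = y'.1)

/-- the macro vertex -/
def mac (p : PP) (hp : Vld p.1) : YY := ⟨(p, none), hp, fun _ _ h => by cases h⟩

/-- The side of `sig s z` with respect to the macro edge `s` at `z`. -/
def Side (z : Z0) (s : D) (z' : Z0) : Prop :=
  ∃ w : List D, (s :: w).IsChain (· ≠ ·) ∧ z' = act (s :: w) z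

/-! ## Walsh analysis -/

/-- fair coin -/
noncomputable def fair : Measure Bool := (PMF.uniformOfFintype Bool).toMeasure

instance : IsProbabilityMeasure fair := by unfold fair; infer_instance

/-- independent fair coins -/
noncomputable def coins (ι : Type) : Measure (ι → Bool) := Measure.infinitePi (fun _ : ι => fair)

instance (ι : Type) : IsProbabilityMeasure (coins ι) := by unfold coins; infer_instance

/-- sign of a bit -/
def sg (b : Bool) : ℝ := if b then 1 else -1

/-- Walsh function -/
noncomputable def chi {ι : Type} (V : Finset ι) (η : ι → Bool) : ℝ := ∏ i ∈ V, sg (η i)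

/-- Walsh coefficient -/
noncomputable def coef {ι : Type} (g : (ι → Bool) → ℝ) (V : Finset ι) : ℝ :=
  ∫ η, g η * chi V η ∂(coins ι)

/-- re-rooting as a permutation -/
def rhoE (s : D) : Vt ≃ Vt := ⟨rho s, rho s, rho_rho s, rho_rho s⟩

/-- the vertices of the branch `t` -/
def inW (t : D) : Vt → Bool
  | none => false
  | some (s, _) => decide (s = t)

open Classical in
/-- the weight of the sets with majority in the branch `t`, averaged over the family -/
noncomputable def pw {n : ℕ} (g : Fin n → (Vt → Bool) → ℝ) (t : D) : ℝ :=
  (1 / (n : ℝ)) * ∑ j, ∑' V : Finset Vt,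
    if V.card < 2 * (V.filter (fun v => inW t v = true)).card then coef (g j) V ^ 2 else 0

end Pool.Agent.Helper85.BFC
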