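import Pool.Agent.Helper85.BFC.GameDefs
import Pool.Agent.Helper85.BFC.GraphDefs

set_option autoImplicit false

namespace Pool.Agent.Helper85.BFC

/-- fixed points of causal operators on sequences -/
theorem causal_fix {X : Type} [Nonempty X] (T : (ℕ → X) → ℕ → X)
    (hT : ∀ (u v : ℕ → X) (n : ℕ), (∀ m, m < n → u m = v m) → T u n = T v n) :
    ∃ u : ℕ → X, ∀ n, u n = T u n := by
  let x0 : X := Classical.arbitrary X
  let g : ℕ → ℕ → X := fun n => Nat.rec (fun _ => x0) (fun _ h => T h) n
  have hg : ∀ n, g (n + 1) = T (g n) := fun n => rfl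
  have h1 : ∀ n m, m < n → g n m = g (n + 1) m := by
    intro n
    induction n with
    | zero => intro m hm; omega
    | succ n ih =>
      intro m hm
      rw [hg (n + 1)]
      conv_lhs => rw [hg n]
      exact hT _ _ m (fun m' hm' => ih m' (by omega))
  have h2 : ∀ k m, g (m + 1 + k) m = g (m + 1) m := by
    intro k m
    induction k with
    | zero => rfl
    | succ k ih =>
      rw [← ih, show m + 1 + (k + 1) = (m + 1 + k) + 1 by omega]
      exact (h1 (m + 1 + k) m (by omega)).symm
  refine ⟨fun m => g (m + 1) m, fun n => ?_⟩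
  show g (n + 1) n = _
  rw [hg n]
  refine hT _ _ n (fun m hm => ?_)
  have := h2 (n - (m + 1)) m
  rwa [show m + 1 + (n - (m + 1)) = n by omega] at this

theorem three_exists (A0 : List Mv → Mv) (A1 A2 : List Bool → List Mv → Mv) :
    ∃ a b d : ℕ → Mv, (∀ r, a r = A0 ((List.range r).map (yA b d))) ∧
      (∀ r, b r = A1 (blk (a 0)) ((List.range r).map (yB a d))) ∧
      (∀ r, d r = A2 (blk (a 0) ++ blk (b 0)) ((List.range r).map (yC a b))) := by
  let pa : (ℕ → Mv) → ℕ → Mv := fun u r => u (3 * r)
  let pb : (ℕ → Mv) → ℕ → Mv := fun u r => u (3 * r + 1)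
  let pd : (ℕ → Mv) → ℕ → Mv := fun u r => u (3 * r + 2)
  let T : (ℕ → Mv) → ℕ → Mv := fun u n =>
    if n % 3 = 0 then A0 ((List.range (n / 3)).map (yA (pb u) (pd u)))
    else if n % 3 = 1 then A1 (blk (pa u 0)) ((List.range (n / 3)).map (yB (pa u) (pd u)))
    else A2 (blk (pa u 0) ++ blk (pb u 0)) ((List.range (n / 3)).map (yC (pa u) (pb u)))
  obtain ⟨u, hu⟩ := causal_fix T (by
    intro u v n h
    have hmap : ∀ (F G : ℕ → Mv), (∀ r, r < n / 3 → F r = G r) →
        (List.range (n / 3)).map F = (List.range (n / 3)).map G := by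
      intro F G hFG
      apply List.map_congr_left
      intro r hr
      exact hFG r (List.mem_range.mp hr)
    show (if n % 3 = 0 then _ else _) = (if n % 3 = 0 then _ else _)
    by_cases h0 : n % 3 = 0
    · rw [if_pos h0, if_pos h0]
      congr 1
      apply hmap
      intro r hr
      have hb : ∀ k, k ≤ r → pb u k = pb v k := fun k hk => h _ (by omega)
      have hd : ∀ k, k ≤ r → pd u k = pd v k := fun k hk => h _ (by omega)
      unfold yA mixIdx
      rw [hb r le_rfl, hd r le_rfl, hb (r / 2) (Nat.div_le_self _ _),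
        hd (r / 2) (Nat.div_le_self _ _)]
    rw [if_neg h0, if_neg h0]
    by_cases h1 : n % 3 = 1
    · rw [if_pos h1, if_pos h1]
      have ha : ∀ k, k ≤ n / 3 → pa u k = pa v k := fun k hk => h _ (by omega)
      have hd : ∀ k, k < n / 3 → pd u k = pd v k := fun k hk => h _ (by omega)
      have hm : (List.range (n / 3)).map (yB (pa u) (pd u)) =
          (List.range (n / 3)).map (yB (pa v) (pd v)) := by
        apply hmap
        intro r hr
        have := Nat.div_le_self r 2
        unfold yB mixIdx
        rw [ha (r + 1) (by omega), hd r hr, ha (r / 2) (by omega), hd (r / 2) (by omega)]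
      rw [ha 0 (Nat.zero_le _), hm]
    · rw [if_neg h1, if_neg h1]
      have ha : ∀ k, k ≤ n / 3 → pa u k = pa v k := fun k hk => h _ (by omega)
      have hb : ∀ k, k ≤ n / 3 → pb u k = pb v k := fun k hk => h _ (by omega)
      have hm : (List.range (n / 3)).map (yC (pa u) (pb u)) =
          (List.range (n / 3)).map (yC (pa v) (pb v)) := by
        apply hmap
        intro r hr
        have := Nat.div_le_self r 2
        unfold yC mixIdx
        rw [ha (r + 1) (by omega), hb (r + 1) (by omega), ha (r / 2) (by omega),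
          hb (r / 2) (by omega)]
      rw [ha 0 (Nat.zero_le _), hb 0 (Nat.zero_le _), hm])
  refine ⟨pa u, pb u, pd u, fun r => ?_, fun r => ?_, fun r => ?_⟩
  · have := hu (3 * r)
    simp only [T] at this
    rw [if_pos (by omega), show 3 * r / 3 = r by omega] at this
    exact this
  · have := hu (3 * r + 1)
    simp only [T] at this
    rw [if_neg (by omega), if_pos (by omega), show (3 * r + 1) / 3 = r by omega] at this
    exact this
  · have := hu (3 * r + 2)
    simp only [T] at this
    rw [if_neg (by omega), if_neg (by omega), show (3 * r + 2) / 3 = r by omega] at this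
    exact this

end Pool.Agent.Helper85.BFC
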