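import Pool.Agent.Helper85.BFC.GameDefs

/-!
# Two plays against a strategy of player II
-/

set_option autoImplicit false

namespace Pool.Agent.Helper85.BFC

namespace TwoCore

/-- the two plays produce the same words up to bit `n` -/
theorem words {p : List Bool} {n : ℕ} {x y x' y' : ℕ → Mv}
    (hx0 : p ++ blk (x 0) = (List.range n).map (gz n) ++ [false])
    (hx'0 : p ++ blk (x' 0) = (List.range n).map (gz n) ++ [true] ++ blk (y 0))
    (hx : ∀ r, x (r + 1) = y' r)
    (hx' : ∀ r, x' (r + 1) = ⟨(y (r + 1)).b, (y (r + 1)).l, (y r).i⟩) (r : ℕ) :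
    ∃ R : List Bool, wd p x y (r + 1) = (List.range n).map (gz n) ++ false :: R ∧
      wd p x' y' r ++ blk (x' r) = (List.range n).map (gz n) ++ true :: R := by
  induction r with
  | zero =>
    refine ⟨blk (y 0), ?_, ?_⟩
    · rw [wd_succ, wd_zero, hx0, List.append_assoc]; rfl
    · rw [wd_zero, hx'0, List.append_assoc]; rfl
  | succ r ih =>
    obtain ⟨R, h1, h2⟩ := ih
    refine ⟨R ++ blk (y' r) ++ blk (y (r + 1)), ?_, ?_⟩
    · rw [wd_succ, h1, hx r]; simp
    · have : blk (x' (r + 1)) = blk (y (r + 1)) := by rw [hx' r]; rfl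
      rw [wd_succ, h2, this]; simp

theorem getD_G (n : ℕ) (c : Bool) (R : List Bool) (i : ℕ) :
    ((List.range n).map (gz n) ++ c :: R).getD i false =
      if i < n then gz n i else if i = n then c else R.getD (i - n - 1) false := by
  split_ifs with h1 h2
  · rw [List.getD_append _ _ _ _ (by simpa using h1)]
    simp [List.getD, h1]
  · subst h2
    rw [List.getD_append_right _ _ _ _ (by simp)]
    simp
  · rw [List.getD_append_right _ _ _ _ (by simp; omega)]
    obtain ⟨m, hm⟩ : ∃ m, i - n = m + 1 := ⟨i - n - 1, by omega⟩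
    simp [hm]

theorem flip_flip' (n : ℕ) (k : ℕ → Bool) : flip n (flip n k) = k := by
  unfold flip
  funext i
  by_cases h : i = n
  · subst h; simp
  · simp [Function.update_of_ne h]

theorem bool_div (j : ℕ) (b : Bool) : (2 * j + b.toNat) / 2 = j ∧ (2 * j + b.toNat) % 2 = b.toNat := by
  cases b
  · simp
  · simp only [Bool.toNat_true]
    omega

theorem exists_jb (r : ℕ) : ∃ (j : ℕ) (b : Bool), r = 2 * j + b.toNat := by
  rcases heap_cases (r + 1) with h | ⟨j, b, h⟩
  · omega
  · exact ⟨j, b, by omega⟩

/-- a legal answer of player II in one play is a legal move of player I in the other play -/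
theorem OK_transfer {k k' : ℕ → Bool} {n : ℕ} (hk : k' = flip n k) (g v : ℕ → ℕ) (w : ℕ)
    (hg0 : g 0 = n) (hg : ∀ r, g (r + 1) = v r) (hw : w = n) (r : ℕ)
    (h : OK (r / 2) k' (fun j => v (2 * j + r % 2)))
    (h0 : r = 0 → v 0 ≠ w) (h1 : r = 1 → v 1 ≠ w ∧ v 1 ≠ v 0) : OK (r + 1) k g := by
  obtain ⟨j, b, rfl⟩ := exists_jb r
  obtain ⟨e1, e2⟩ := bool_div j b
  rw [e1, e2] at h
  have e3 : 2 * j + b.toNat + 1 = 2 * j + 1 + b.toNat := by omega
  rw [e3, OK_succ, hg0, ← hk]
  constructor
  · have : sub b g = fun i => v (2 * i + b.toNat) := by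
      funext i
      unfold sub
      have e4 : 2 * i + 1 + b.toNat = (2 * i + b.toNat) + 1 := by omega
      rw [e4, hg]
    rw [this]
    exact h
  · intro hj
    subst hj
    subst hw
    cases b
    · refine ⟨?_, fun hb => by cases hb⟩
      have := h0 (by simp)
      show g (0 + 1) ≠ w
      rw [hg 0]
      exact this
    · have := h1 (by simp)
      refine ⟨?_, fun _ => ?_⟩
      · show g (1 + 1) ≠ w
        rw [hg 1]; exact this.1
      · rw [hg 1, hg 0]; exact this.2

end TwoCore

open TwoCore in
theorem two_core (c : Z0 → D) (s : D) (p : List Bool) (n : ℕ) (hn : p.length ≤ n)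
    (hp : ∀ i, i < p.length → gz n i = p.getD i false) (x y x' y' : ℕ → Mv)
    (hx0 : p ++ blk (x 0) = (List.range n).map (gz n) ++ [false]) (hx0i : (x 0).i = n)
    (hx'0 : p ++ blk (x' 0) = (List.range n).map (gz n) ++ [true] ++ blk (y 0))
    (hx'0i : (x' 0).i = n) (hx : ∀ r, x (r + 1) = y' r)
    (hx' : ∀ r, x' (r + 1) = ⟨(y (r + 1)).b, (y (r + 1)).l, (y r).i⟩)
    (h : (x, y) ∉ WI c s p) (h' : (x', y') ∉ WI c s p) :
    ∃ z, Vld z ∧ c z = s ∧ c (sig s z) = s := by
  have hW := words hx0 hx'0 hx hx'
  choose R hR1 hR2 using hW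
  -- labels
  have hk : ∀ i, kk p x y i = if i < n then gz n i else if i = n then false
      else (R i).getD (i - n - 1) false := by
    intro i
    unfold kk
    rw [hR1 i, getD_G]
  have hk1 : ∀ i, kk p x' y' i = if i < n then gz n i else if i = n then true
      else (R i).getD (i - n - 1) false := by
    intro i
    have hl : i < (wd p x' y' i ++ blk (x' i)).length := by
      have h2 := wd_length p x' y' i
      have h3 := blk_length_pos (x' i)
      rw [List.length_append]; omega
    have hpre : wd p x' y' i ++ blk (x' i) <+: wd p x' y' (i + 1) := by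
      rw [wd_succ]; exact List.prefix_append _ _
    rw [kk_eq_of_prefix p x' y' hl hpre, hR2 i, getD_G]
  have hkk : kk p x' y' = flip n (kk p x y) := by
    funext i
    unfold flip
    by_cases hi : i = n
    · subst hi
      rw [Function.update_self, hk1, hk]
      simp
    · rw [Function.update_of_ne hi, hk1, hk]
      simp [hi]
  have hkk' : kk p x y = flip n (kk p x' y') := by rw [hkk, flip_flip']
  -- lengths
  have hlen1 : ∀ r, (wd p x y (r + 1)).length = (wd p x' y' r ++ blk (x' r)).length := by
    intro r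
    rw [hR1 r, hR2 r]; simp
  -- legality
  have a0 : LI p x y 0 := by
    refine ⟨?_, ?_, fun _ => by rw [hx0i]; exact hn⟩
    · rw [wd_zero, hx0, hx0i]; simp
    · rw [OK_zero]
      simp only [hx0i]
      intro i hi
      rw [hk, if_pos hi]
  have a0' : LI p x' y' 0 := by
    refine ⟨?_, ?_, fun _ => by rw [hx'0i]; exact hn⟩
    · rw [wd_zero, hx'0, hx'0i]; simp
    · rw [OK_zero]
      simp only [hx'0i]
      intro i hi
      rw [hk1, if_pos hi]
  have b1 : ∀ r, LII p x' y' r → LI p x y (r + 1) := by
    intro r hr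
    obtain ⟨h1, h2, h3, h4⟩ := hr
    refine ⟨?_, ?_, fun h0 => by omega⟩
    · rw [hx r, List.length_append, hlen1 r]
      rw [wd_succ, List.length_append] at h1
      exact h1
    · refine OK_transfer hkk (fun m => (x m).i) (fun m => (y' m).i) (x' 0).i hx0i
        (fun m => by simp only [hx m]) hx'0i r h2 h3 h4
  have b2 : ∀ r, LII p x y r → LI p x' y' (r + 1) := by
    intro r hr
    obtain ⟨h1, h2, h3, h4⟩ := hr
    refine ⟨?_, ?_, fun h0 => by omega⟩
    · have e1 : (x' (r + 1)).i = (y r).i := by rw [hx' r]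
      rw [hlen1 r] at h1
      rw [e1, wd_succ, List.length_append, List.length_append]
      omega
    · refine OK_transfer hkk' (fun m => (x' m).i) (fun m => (y m).i) (x 0).i hx'0i
        (fun m => by simp only [hx' m]) hx0i r h2 h3 h4
  have c1 : ∀ r, (∀ r', r' ≤ r → LI p x y r') → LII p x y r := by
    intro r hr
    by_contra hno
    exact h (Or.inl ⟨r, hno, hr⟩)
  have c2 : ∀ r, (∀ r', r' ≤ r → LI p x' y' r') → LII p x' y' r := by
    intro r hr
    by_contra hno
    exact h' (Or.inl ⟨r, hno, hr⟩)
  have main : ∀ r, (∀ r', r' ≤ r → LI p x y r') ∧ (∀ r', r' ≤ r → LI p x' y' r') := by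
    intro r
    induction r with
    | zero =>
      constructor
      · intro r' hr'
        have : r' = 0 := by omega
        subst this; exact a0
      · intro r' hr'
        have : r' = 0 := by omega
        subst this; exact a0'
    | succ r ih =>
      constructor
      · intro r' hr'
        rcases Nat.eq_or_lt_of_le hr' with h1 | h1
        · rw [h1]; exact b1 r (c2 r ih.2)
        · exact ih.1 r' (by omega)
      · intro r' hr'
        rcases Nat.eq_or_lt_of_le hr' with h1 | h1
        · rw [h1]; exact b2 r (c1 r ih.1)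
        · exact ih.2 r' (by omega)
  have dI : ∀ r, LI p x y r := fun r => (main r).1 r le_rfl
  have dI' : ∀ r, LI p x' y' r := fun r => (main r).2 r le_rfl
  have dII : ∀ r, LII p x y r := fun r => c1 r (main r).1
  have dII' : ∀ r, LII p x' y' r := fun r => c2 r (main r).2
  have e1 : c (zz s p x y) = s := by
    by_contra hno
    exact h (Or.inr ⟨fun r => ⟨dI r, dII r⟩, hno⟩)
  have e2 : c (zz s p x' y') = s := by
    by_contra hno
    exact h' (Or.inr ⟨fun r => ⟨dI' r, dII' r⟩, hno⟩)
  have zs : ∀ (u v : ℕ → Mv) (m : ℕ), (zz s p u v).2 s m = (u m).i := by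
    intro u v m
    simp [zz]
  have zo : ∀ (u v : ℕ → Mv) (b : Bool) (m : ℕ),
      (zz s p u v).2 (oth s b) m = (v (2 * m + b.toNat)).i := by
    intro u v b m
    simp [zz, oth_ne, bt_oth]
  have hsig : zz s p x' y' = sig s (zz s p x y) := by
    refine Prod.ext ?_ ?_
    · show kk p x' y' = flip ((zz s p x y).2 s 0) (kk p x y)
      rw [zs, hx0i]; exact hkk
    · show (zz s p x' y').2 = rer s (zz s p x y).2
      funext t m
      rcases dir_cases s t with rfl | ⟨b, rfl⟩
      · rcases heap_cases m with rfl | ⟨j, b, rfl⟩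
        · rw [rer_zero, zs, zs, hx0i, hx'0i]
        · rw [rer_self, zs, zo]
          have e4 : 2 * j + 1 + b.toNat = (2 * j + b.toNat) + 1 := by omega
          rw [e4, hx']
      · rw [rer_oth, zo, zs]
        have e4 : 2 * m + 1 + b.toNat = (2 * m + b.toNat) + 1 := by omega
        rw [e4, hx]
  refine ⟨zz s p x y, ⟨?_, ?_⟩, e1, by rw [← hsig]; exact e2⟩
  · intro t j
    rcases dir_cases s t with rfl | ⟨b, rfl⟩
    · have h1 := (dI j).2.1
      have h2 : (zz t p x y).2 t = fun m => (x m).i := funext (fun m => zs x y m)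
      rw [h2]; exact h1
    · have h1 := (dII (2 * j + b.toNat)).2.1
      obtain ⟨e5, e6⟩ := bool_div j b
      rw [e5, e6] at h1
      have h2 : (zz s p x y).2 (oth s b) = fun m => (y (2 * m + b.toNat)).i :=
        funext (fun m => zo x y b m)
      rw [h2]; exact h1
  · have g0 : (zz s p x y).2 (oth s false) 0 ≠ (zz s p x y).2 s 0 := by
      rw [zo, zs]; exact (dII 0).2.2.1 rfl
    have g1 : (zz s p x y).2 (oth s true) 0 ≠ (zz s p x y).2 s 0 := by
      rw [zo, zs]; exact ((dII 1).2.2.2 rfl).1
    have g2 : (zz s p x y).2 (oth s true) 0 ≠ (zz s p x y).2 (oth s false) 0 := by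
      rw [zo, zo]; exact ((dII 1).2.2.2 rfl).2
    intro t t' htt
    rcases dir_cases s t with rfl | ⟨b, rfl⟩
    · rcases dir_cases t t' with rfl | ⟨b', rfl⟩
      · exact absurd rfl htt
      · cases b'
        · exact g0.symm
        · exact g1.symm
    · rcases dir_cases s t' with rfl | ⟨b', rfl⟩
      · cases b
        · exact g0
        · exact g1
      · cases b <;> cases b'
        · exact absurd rfl htt
        · exact g2.symm
        · exact g2
        · exact absurd rfl htt

end Pool.Agent.Helper85.BFC
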