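import Pool.Agent.Helper85.BFC.ThreeExists

set_option autoImplicit false

namespace Pool.Agent.Helper85.BFC

theorem two_exists (B : List Mv → Mv) (m0 : Mv) (f : Mv → Mv) :
    ∃ x y x' y' : ℕ → Mv, x 0 = m0 ∧ x' 0 = f (y 0) ∧
      (∀ r, y r = B ((List.range (r + 1)).map x)) ∧ (∀ r, y' r = B ((List.range (r + 1)).map x')) ∧
      (∀ r, x (r + 1) = y' r) ∧
      (∀ r, x' (r + 1) = ⟨(y (r + 1)).b, (y (r + 1)).l, (y r).i⟩) := by
  let T : (ℕ → Mv) → ℕ → Mv := fun u n =>
    if n % 4 = 0 then (if n = 0 then m0 else u (n - 1))
    else if n % 4 = 1 then B ((List.range (n / 4 + 1)).map (fun r => u (4 * r)))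
    else if n % 4 = 2 then (if n = 2 then f (u 1) else ⟨(u (n - 1)).b, (u (n - 1)).l, (u (n - 5)).i⟩)
    else B ((List.range (n / 4 + 1)).map (fun r => u (4 * r + 2)))
  obtain ⟨u, hu⟩ := causal_fix T (by
    intro u v n h
    have hmap : ∀ (F G : ℕ → Mv), (∀ r, r < n / 4 + 1 → F r = G r) →
        (List.range (n / 4 + 1)).map F = (List.range (n / 4 + 1)).map G := by
      intro F G hFG
      apply List.map_congr_left
      intro r hr
      exact hFG r (List.mem_range.mp hr)
    show (if n % 4 = 0 then _ else _) = (if n % 4 = 0 then _ else _)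
    by_cases h0 : n % 4 = 0
    · rw [if_pos h0, if_pos h0]
      by_cases h1 : n = 0
      · rw [if_pos h1, if_pos h1]
      · rw [if_neg h1, if_neg h1]
        exact h _ (by omega)
    rw [if_neg h0, if_neg h0]
    by_cases h1 : n % 4 = 1
    · rw [if_pos h1, if_pos h1]
      congr 1
      apply hmap
      intro r hr
      exact h _ (by omega)
    rw [if_neg h1, if_neg h1]
    by_cases h2 : n % 4 = 2
    · rw [if_pos h2, if_pos h2]
      by_cases h3 : n = 2
      · rw [if_pos h3, if_pos h3, h 1 (by omega)]
      · rw [if_neg h3, if_neg h3, h (n - 1) (by omega), h (n - 5) (by omega)]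
    · rw [if_neg h2, if_neg h2]
      congr 1
      apply hmap
      intro r hr
      exact h _ (by omega))
  refine ⟨fun r => u (4 * r), fun r => u (4 * r + 1), fun r => u (4 * r + 2),
    fun r => u (4 * r + 3), ?_, ?_, fun r => ?_, fun r => ?_, fun r => ?_, fun r => ?_⟩
  · have := hu 0
    simp only [T] at this
    simpa using this
  · have := hu 2
    simp only [T] at this
    simpa using this
  · have := hu (4 * r + 1)
    simp only [T] at this
    rw [if_neg (by omega), if_pos (by omega), show (4 * r + 1) / 4 = r by omega] at this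
    exact this
  · have := hu (4 * r + 3)
    simp only [T] at this
    rw [if_neg (by omega), if_neg (by omega), if_neg (by omega),
      show (4 * r + 3) / 4 = r by omega] at this
    exact this
  · have := hu (4 * (r + 1))
    simp only [T] at this
    rw [if_pos (by omega), if_neg (by omega), show 4 * (r + 1) - 1 = 4 * r + 3 by omega] at this
    exact this
  · have := hu (4 * (r + 1) + 2)
    simp only [T] at this
    rw [if_neg (by omega), if_neg (by omega), if_pos (by omega), if_neg (by omega),
      show 4 * (r + 1) + 2 - 1 = 4 * (r + 1) + 1 by omega,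
      show 4 * (r + 1) + 2 - 5 = 4 * r + 1 by omega] at this
    exact this

end Pool.Agent.Helper85.BFC
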