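import Pool.Agent.Helper85.BFC.GameDefs
import Pool.Agent.Helper85.BFC.Det.Borel
import Pool.Agent.Helper85.BFC.MeasGame
import Pool.Agent.Helper85.BFC.ThreeCore
import Pool.Agent.Helper85.BFC.ThreeExists
import Pool.Agent.Helper85.BFC.TwoCore
import Pool.Agent.Helper85.BFC.TwoExists

/-!
# The hyperfinite version of the theorem of Marks
-/

set_option autoImplicit false

namespace Pool.Agent.Helper85.BFC

/-- a word extending `p` is reached by one block -/
private theorem marks_block {p u : List Bool} (n : ℕ) (h : p <+: u) (hl : p.length < u.length) :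
    ∃ m : Mv, p ++ blk m = u ∧ m.i = n := by
  obtain ⟨t, rfl⟩ := h
  rcases t with _ | ⟨b, l⟩
  · simp at hl
  · exact ⟨⟨b, l, n⟩, rfl, rfl⟩

private theorem marks_prefix {p : List Bool} {n : ℕ} (hn : p.length ≤ n)
    (hp : ∀ i, i < p.length → gz n i = p.getD i false) : p <+: (List.range n).map (gz n) := by
  rw [List.prefix_iff_getElem]
  have hlen : ((List.range n).map (gz n)).length = n := by simp
  refine ⟨by rw [hlen]; exact hn, fun i hi => ?_⟩
  rw [List.getElem_map, List.getElem_range, hp i hi, List.getD_eq_getElem _ _ hi]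

/-- Hyperfinite version of the theorem of Marks. -/
theorem marks {c : Z0 → D} (hc : Measurable c) :
    ∃ (z : Z0) (s : D), Vld z ∧ c z = s ∧ c (sig s z) = s := by
  by_cases hII : ∃ (s : D) (p : List Bool) (B : List Mv → Mv),
      ∀ x : ℕ → Mv, (x, fun r => B ((List.range (r + 1)).map x)) ∉ WI c s p
  · obtain ⟨s, p, B, hB⟩ := hII
    obtain ⟨n, hn, hp⟩ := gz_dense p
    have hpre := marks_prefix hn hp
    have hlen : ((List.range n).map (gz n)).length = n := by simp
    obtain ⟨m0, hm0, hm0i⟩ := marks_block (u := (List.range n).map (gz n) ++ [false]) n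
      (hpre.trans (List.prefix_append _ _)) (by
        rw [List.length_append, hlen]
        simp only [List.length_singleton]
        omega)
    have hf : ∀ y : Mv, ∃ m : Mv,
        p ++ blk m = (List.range n).map (gz n) ++ [true] ++ blk y ∧ m.i = n := fun y =>
      marks_block n ((hpre.trans (List.prefix_append _ _)).trans (List.prefix_append _ _)) (by
        rw [List.length_append, List.length_append, hlen]
        simp only [List.length_singleton]
        omega)
    choose f hf1 hf2 using hf
    obtain ⟨x, y, x', y', e1, e2, e3, e4, e5, e6⟩ := two_exists B m0 f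
    have hy : y = fun r => B ((List.range (r + 1)).map x) := funext e3
    have hy' : y' = fun r => B ((List.range (r + 1)).map x') := funext e4
    obtain ⟨z, hz⟩ := two_core c s p n hn hp x y x' y' (by rw [e1]; exact hm0) (by rw [e1]; exact hm0i)
      (by rw [e2]; exact hf1 _) (by rw [e2]; exact hf2 _) e5 e6 (by rw [hy]; exact hB x)
      (by rw [hy']; exact hB x')
    exact ⟨z, s, hz⟩
  · exfalso
    have hI : ∀ (s : D) (p : List Bool), ∃ A : List Mv → Mv,
        ∀ y : ℕ → Mv, ((fun r => A ((List.range r).map y)), y) ∈ WI c s p := by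
      intro s p
      rcases Det.borel_det (WI c s p) (measurableSet_WI hc s p) with h | ⟨B, hB⟩
      · exact h
      · exact absurd ⟨s, p, B, hB⟩ hII
    choose A hA using hI
    obtain ⟨a, b, d, ha, hb, hd⟩ := three_exists (A 0 []) (A 1) (A 2)
    refine three_core c a b d ?_ ?_ ?_
    · have h : a = fun r => A 0 [] ((List.range r).map (yA b d)) := funext ha
      have h1 := hA 0 [] (yA b d)
      rw [← h] at h1
      exact h1
    · have h : b = fun r => A 1 (blk (a 0)) ((List.range r).map (yB a d)) := funext hb
      have h1 := hA 1 (blk (a 0)) (yB a d)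
      rw [← h] at h1
      exact h1
    · have h : d = fun r => A 2 (blk (a 0) ++ blk (b 0)) ((List.range r).map (yC a b)) := funext hd
      have h1 := hA 2 (blk (a 0) ++ blk (b 0)) (yC a b)
      rw [← h] at h1
      exact h1

end Pool.Agent.Helper85.BFC
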