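import Pool.Agent.Helper85.BFC.Parseval
import Pool.Agent.Helper85.BFC.Coins

/-!
# Walsh weights: the total weight is at most one, measurability
-/

set_option autoImplicit false

namespace Pool.Agent.Helper85.BFC

open MeasureTheory

theorem inW_rho (s : D) (v : Vt) : inW s (rho s v) = !(inW s v) := by
  rcases v with _ | ⟨t, n⟩
  · rw [rho_none]; simp [inW]
  · rcases dir_cases s t with rfl | ⟨b, rfl⟩
    · rcases heap_cases n with rfl | ⟨j, b, rfl⟩
      · rw [rho_zero]; simp [inW]
      · rw [rho_self]
        have h := oth_ne t b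
        simp [inW, h]
    · rw [rho_oth]
      have h := oth_ne s b
      simp [inW, h]

theorem card_two_branches (V : Finset Vt) {t t' : D} (h : t ≠ t') :
    (V.filter (fun v => inW t v = true)).card + (V.filter (fun v => inW t' v = true)).card
      ≤ V.card := by
  rw [← Finset.card_union_of_disjoint]
  · refine Finset.card_le_card (Finset.union_subset ?_ ?_) <;> exact Finset.filter_subset _ _
  · rw [Finset.disjoint_left]
    intro v hv hv'
    rw [Finset.mem_filter] at hv hv'
    rcases v with _ | ⟨s, n⟩
    · simp [inW] at hv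
    · simp only [inW, decide_eq_true_eq] at hv hv'
      exact h (hv.2.symm.trans hv'.2)

theorem three_ite_le (V : Finset Vt) {x : ℝ} (hx : 0 ≤ x) :
    (if V.card < 2 * (V.filter (fun v => inW 0 v = true)).card then x else 0) +
    (if V.card < 2 * (V.filter (fun v => inW 1 v = true)).card then x else 0) +
    (if V.card < 2 * (V.filter (fun v => inW 2 v = true)).card then x else 0) ≤ x := by
  have h01 := card_two_branches V (t := 0) (t' := 1) (by decide)
  have h02 := card_two_branches V (t := 0) (t' := 2) (by decide)
  have h12 := card_two_branches V (t := 1) (t' := 2) (by decide)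
  by_cases h0 : V.card < 2 * (V.filter (fun v => inW 0 v = true)).card
  · rw [if_pos h0, if_neg (by omega), if_neg (by omega)]; linarith
  · rw [if_neg h0]
    by_cases h1 : V.card < 2 * (V.filter (fun v => inW 1 v = true)).card
    · rw [if_pos h1, if_neg (by omega)]; linarith
    · rw [if_neg h1]
      split_ifs <;> linarith

theorem summable_ite {f : Finset Vt → ℝ} (hf : Summable f) (h0 : ∀ V, 0 ≤ f V)
    (P : Finset Vt → Prop) [DecidablePred P] : Summable (fun V => if P V then f V else 0) := by
  refine Summable.of_nonneg_of_le (fun V => ?_) (fun V => ?_) hf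
  · split_ifs
    · exact h0 V
    · exact le_rfl
  · split_ifs
    · exact le_rfl
    · exact h0 V

theorem pw_sum_le {n : ℕ} (hn : 0 < n) {g : Fin n → (Vt → Bool) → ℝ} (hg : ∀ j, Measurable (g j))
    (hb : ∀ j η, |g j η| ≤ 1) : pw g 0 + pw g 1 + pw g 2 ≤ 1 := by
  classical
  have hP : ∀ j, HasSum (fun V : Finset Vt => coef (g j) V ^ 2) (∫ η, g j η ^ 2 ∂(coins Vt)) :=
    fun j => parseval (hg j) (hb j)
  have hI : ∀ j, ∫ η, g j η ^ 2 ∂(coins Vt) ≤ 1 := by
    intro j
    have h1 : ∫ η, g j η ^ 2 ∂(coins Vt) ≤ ∫ _η, (1 : ℝ) ∂(coins Vt) := by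
      refine integral_mono ?_ (integrable_const _) fun η => ?_
      · refine Integrable.of_bound ((hg j).pow_const 2).aestronglyMeasurable 1 ?_
        refine Filter.Eventually.of_forall fun η => ?_
        rw [Real.norm_eq_abs, abs_pow]
        exact pow_le_one₀ (abs_nonneg _) (hb j η)
      · show g j η ^ 2 ≤ 1
        rw [← sq_abs]
        exact pow_le_one₀ (abs_nonneg _) (hb j η)
    simpa using h1
  have hj : ∀ j, (∑' V : Finset Vt, (if V.card < 2 * (V.filter (fun v => inW 0 v = true)).card
        then coef (g j) V ^ 2 else 0)) +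
      (∑' V : Finset Vt, (if V.card < 2 * (V.filter (fun v => inW 1 v = true)).card
        then coef (g j) V ^ 2 else 0)) +
      (∑' V : Finset Vt, (if V.card < 2 * (V.filter (fun v => inW 2 v = true)).card
        then coef (g j) V ^ 2 else 0)) ≤ 1 := by
    intro j
    have hs := (hP j).summable
    have h0 : ∀ V : Finset Vt, 0 ≤ coef (g j) V ^ 2 := fun V => sq_nonneg _
    have s0 := summable_ite hs h0
      (fun V => V.card < 2 * (V.filter (fun v => inW 0 v = true)).card)
    have s1 := summable_ite hs h0
      (fun V => V.card < 2 * (V.filter (fun v => inW 1 v = true)).card)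
    have s2 := summable_ite hs h0
      (fun V => V.card < 2 * (V.filter (fun v => inW 2 v = true)).card)
    rw [← Summable.tsum_add s0 s1, ← Summable.tsum_add (s0.add s1) s2]
    refine le_trans (Summable.tsum_le_tsum (fun V => three_ite_le V (h0 V)) ((s0.add s1).add s2) hs) ?_
    rw [(hP j).tsum_eq]
    exact hI j
  have hsum := Finset.sum_le_sum (s := Finset.univ) fun j _ => hj j
  rw [Finset.sum_add_distrib, Finset.sum_add_distrib] at hsum
  have hn' : (0 : ℝ) < n := by exact_mod_cast hn
  unfold pw
  rw [← mul_add, ← mul_add, one_div, inv_mul_le_iff₀ hn']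
  simpa using hsum

theorem pw_meas {α : Type} [MeasurableSpace α] {n : ℕ} {g : α → Fin n → (Vt → Bool) → ℝ}
    (hg : ∀ j, Measurable (fun q : α × (Vt → Bool) => g q.1 j q.2)) (t : D) :
    Measurable (fun a => pw (g a) t) := by
  classical
  unfold pw
  refine Measurable.const_mul (Finset.measurable_sum _ fun j _ => Measurable.tsum fun V => ?_) _
  by_cases h : V.card < 2 * (V.filter (fun v => inW t v = true)).card
  · simp only [if_pos h]
    exact (measurable_coef (g := fun a => g a j) (hg j) V).pow_const 2
  · simp only [if_neg h]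
    exact measurable_const

end Pool.Agent.Helper85.BFC
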