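import Pool.Agent.Helper85.BFC.Parseval
import Pool.Agent.Helper85.BFC.Coins
import Pool.Agent.Helper85.BFC.WeightsA

/-!
# The main inequality for the Walsh weights
-/

set_option autoImplicit false

namespace Pool.Agent.Helper85.BFC

open MeasureTheory

namespace WB

theorem measurable_chi' {ι : Type} (V : Finset ι) : Measurable (chi V : (ι → Bool) → ℝ) := by
  unfold chi
  refine Finset.measurable_prod _ fun i _ => ?_
  exact (measurable_of_finite sg).comp (measurable_pi_apply i)

theorem abs_sg (b : Bool) : |sg b| = 1 := by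
  cases b <;> simp [sg]

theorem abs_chi' {ι : Type} (V : Finset ι) (η : ι → Bool) : |chi V η| = 1 := by
  unfold chi
  rw [Finset.abs_prod]
  exact Finset.prod_eq_one fun i _ => abs_sg _

theorem integrable_bdd {ι : Type} {g : (ι → Bool) → ℝ} (hg : Measurable g) {C : ℝ}
    (hC : ∀ η, |g η| ≤ C) : Integrable g (coins ι) :=
  Integrable.of_bound hg.aestronglyMeasurable C (Filter.Eventually.of_forall hC)

theorem integrable_mul_chi {ι : Type} {g : (ι → Bool) → ℝ} (hg : Measurable g) {C : ℝ}
    (hC : ∀ η, |g η| ≤ C) (V : Finset ι) : Integrable (fun η => g η * chi V η) (coins ι) := by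
  refine integrable_bdd (hg.mul (measurable_chi' V)) (C := C) fun η => ?_
  rw [abs_mul, abs_chi', mul_one]
  exact hC η

theorem coef_sub' {ι : Type} {g h : (ι → Bool) → ℝ} (hg : Measurable g) (hh : Measurable h) {C : ℝ}
    (hC : ∀ η, |g η| ≤ C) (hC' : ∀ η, |h η| ≤ C) (V : Finset ι) :
    coef (fun η => g η - h η) V = coef g V - coef h V := by
  unfold coef
  rw [← integral_sub (integrable_mul_chi hg hC V) (integrable_mul_chi hh hC' V)]
  refine integral_congr_ae (Filter.Eventually.of_forall fun η => ?_)
  simp only [sub_mul]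

theorem coef_add' {ι : Type} {g h : (ι → Bool) → ℝ} (hg : Measurable g) (hh : Measurable h) {C : ℝ}
    (hC : ∀ η, |g η| ≤ C) (hC' : ∀ η, |h η| ≤ C) (V : Finset ι) :
    coef (fun η => g η + h η) V = coef g V + coef h V := by
  unfold coef
  rw [← integral_add (integrable_mul_chi hg hC V) (integrable_mul_chi hh hC' V)]
  refine integral_congr_ae (Filter.Eventually.of_forall fun η => ?_)
  simp only [add_mul]

theorem card_rho (s : D) (V : Finset Vt) :
    (V.map (rhoE s).symm.toEmbedding).card = V.card := Finset.card_map _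

theorem card_rho_filter (s : D) (V : Finset Vt) :
    ((V.map (rhoE s).symm.toEmbedding).filter (fun v => inW s v = true)).card =
      (V.filter (fun v => ¬ (inW s v = true))).card := by
  rw [Finset.filter_map, Finset.card_map]
  congr 1
  refine Finset.filter_congr fun v _ => ?_
  show inW s (rho s v) = true ↔ _
  rw [inW_rho]
  cases inW s v <;> simp

theorem pw_single (s : D) {g g' : (Vt → Bool) → ℝ} (hg : Measurable g) (hg' : Measurable g')
    (h1 : ∀ η, g η = 1 ∨ g η = -1) (h1' : ∀ η, g' η = 1 ∨ g' η = -1)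
    (ho : ∀ η, g (fun i => !(η i)) = - g η) {δ : ℝ} (hδ : 0 < δ) :
    1 - ((∫ η, (g η - g' (fun v => η (rho s v))) ^ 2 ∂coins Vt) / (2 * δ) + 2 * δ) ≤
      (∑' V : Finset Vt, if V.card < 2 * (V.filter (fun v => inW s v = true)).card
        then coef g V ^ 2 else 0) +
      ∑' V : Finset Vt, if V.card < 2 * (V.filter (fun v => inW s v = true)).card
        then coef g' V ^ 2 else 0 := by
  set h : (Vt → Bool) → ℝ := fun η => g' (fun v => η (rho s v)) with hh
  have hhm : Measurable h := hg'.comp (measurable_pi_lambda _ fun v => measurable_pi_apply _)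
  have b1 : ∀ η, |g η| ≤ 1 := fun η => by rcases h1 η with e | e <;> rw [e] <;> norm_num
  have b1' : ∀ η, |g' η| ≤ 1 := fun η => by rcases h1' η with e | e <;> rw [e] <;> norm_num
  have b2 : ∀ η, |h η| ≤ 1 := fun η => b1' _
  -- Parseval sums
  have P1 := parseval hg b1
  have e1 : ∫ η, g η ^ 2 ∂coins Vt = 1 := by
    have : ∀ η, g η ^ 2 = 1 := fun η => by rcases h1 η with e | e <;> rw [e] <;> norm_num
    simp [this]
  rw [e1] at P1
  have P2 := parseval (g := fun η => g η - h η) (hg.sub hhm) (C := 2) (fun η => by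
    have := b1 η; have := b2 η; rw [abs_le] at *; constructor <;> linarith)
  have P3 := parseval (g := fun η => g η + h η) (hg.add hhm) (C := 2) (fun η => by
    have := b1 η; have := b2 η; rw [abs_le] at *; constructor <;> linarith)
  have e3 : ∫ η, (g η + h η) ^ 2 ∂coins Vt ≤ 4 := by
    have hb : ∀ η, (g η + h η) ^ 2 ≤ 4 := fun η => by
      have := b1 η; have := b2 η; rw [abs_le] at *; nlinarith
    have hi : Integrable (fun η => (g η + h η) ^ 2) (coins Vt) := by
      refine integrable_bdd ((hg.add hhm).pow_const 2) (C := 4) fun η => ?_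
      rw [abs_of_nonneg (sq_nonneg _)]
      exact hb η
    calc ∫ η, (g η + h η) ^ 2 ∂coins Vt ≤ ∫ _, (4 : ℝ) ∂coins Vt :=
          integral_mono hi (integrable_const _) hb
      _ = 4 := by simp
  -- the first sum
  have S1 : Summable (fun V : Finset Vt => if V.card < 2 * (V.filter (fun v => inW s v = true)).card
        then coef g V ^ 2 else 0) := by
    refine Summable.of_nonneg_of_le (fun V => ?_) (fun V => ?_) P1.summable
    · split_ifs
      · exact sq_nonneg _
      · exact le_refl _
    · split_ifs
      · exact le_refl _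
      · exact sq_nonneg _
  have P4 := parseval hg' b1'
  have S2 : Summable (fun V : Finset Vt => if V.card < 2 * (V.filter (fun v => inW s v = true)).card
        then coef g' V ^ 2 else 0) := by
    refine Summable.of_nonneg_of_le (fun V => ?_) (fun V => ?_) P4.summable
    · split_ifs
      · exact sq_nonneg _
      · exact le_refl _
    · split_ifs
      · exact le_refl _
      · exact sq_nonneg _
  -- reindex the second sum
  let E : Finset Vt ≃ Finset Vt := (rhoE s).symm.finsetCongr
  have hE : ∀ V : Finset Vt, E V = V.map (rhoE s).symm.toEmbedding := fun V => rfl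
  have hF : ∀ V : Finset Vt, (if (E V).card < 2 * ((E V).filter (fun v => inW s v = true)).card
        then coef g' (E V) ^ 2 else 0) =
      (if V.card < 2 * (V.filter (fun v => ¬ (inW s v = true))).card then coef h V ^ 2 else 0) := by
    intro V
    have hc : coef h V = coef g' (V.map (rhoE s).symm.toEmbedding) := coef_perm hg' (rhoE s) V
    rw [hE, card_rho, card_rho_filter, hc]
  have S3 : Summable (fun V : Finset Vt => if V.card < 2 * (V.filter (fun v => ¬ (inW s v = true))).card
        then coef h V ^ 2 else 0) := by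
    have := (E.summable_iff (f := fun V : Finset Vt =>
      if V.card < 2 * (V.filter (fun v => inW s v = true)).card then coef g' V ^ 2 else 0)).2 S2
    exact this.congr fun V => (hF V)
  have T3 : (∑' V : Finset Vt, if V.card < 2 * (V.filter (fun v => inW s v = true)).card
        then coef g' V ^ 2 else 0) =
      ∑' V : Finset Vt, if V.card < 2 * (V.filter (fun v => ¬ (inW s v = true))).card
        then coef h V ^ 2 else 0 := by
    rw [← E.tsum_eq]
    exact tsum_congr hF
  rw [T3, ← Summable.tsum_add S1 S3]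
  -- pointwise bound
  have key : ∀ V : Finset Vt, coef g V ^ 2 -
      (coef (fun η => g η - h η) V ^ 2 / (2 * δ) + δ / 2 * coef (fun η => g η + h η) V ^ 2) ≤
      (if V.card < 2 * (V.filter (fun v => inW s v = true)).card then coef g V ^ 2 else 0) +
      (if V.card < 2 * (V.filter (fun v => ¬ (inW s v = true))).card then coef h V ^ 2 else 0) := by
    intro V
    rw [coef_sub' hg hhm b1 b2, coef_add' hg hhm b1 b2]
    set a := coef g V with ha
    set b := coef h V with hb
    have q : a ^ 2 - b ^ 2 ≤ (a - b) ^ 2 / (2 * δ) + δ / 2 * (a + b) ^ 2 := by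
      have h2 : 0 ≤ ((a - b) / δ - (a + b)) ^ 2 * (δ / 2) := by positivity
      have h3 : ((a - b) / δ - (a + b)) ^ 2 * (δ / 2) =
          (a - b) ^ 2 / (2 * δ) + δ / 2 * (a + b) ^ 2 - (a ^ 2 - b ^ 2) := by
        field_simp
        ring
      linarith
    have q0 : 0 ≤ (a - b) ^ 2 / (2 * δ) + δ / 2 * (a + b) ^ 2 := by positivity
    have hcard : (V.filter (fun v => inW s v = true)).card +
        (V.filter (fun v => ¬ (inW s v = true))).card = V.card :=
      Finset.card_filter_add_card_filter_not _
    rcases Nat.even_or_odd V.card with hV | hV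
    · have h0 : a = 0 := coef_even hg ho hV
      have h7 : a ^ 2 - ((a - b) ^ 2 / (2 * δ) + δ / 2 * (a + b) ^ 2) ≤ 0 := by
        have : a ^ 2 = 0 := by rw [h0]; ring
        linarith
      refine h7.trans (add_nonneg ?_ ?_)
      · split_ifs <;> positivity
      · split_ifs <;> positivity
    · obtain ⟨k, hk⟩ := hV
      by_cases c1 : V.card < 2 * (V.filter (fun v => inW s v = true)).card
      · rw [if_pos c1]
        have : (0 : ℝ) ≤ (if V.card < 2 * (V.filter (fun v => ¬ (inW s v = true))).card then b ^ 2 else 0) := by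
          split_ifs <;> positivity
        linarith
      · have c2 : V.card < 2 * (V.filter (fun v => ¬ (inW s v = true))).card := by omega
        rw [if_neg c1, if_pos c2]
        linarith
  have R := (P1.sub ((P2.div_const (2 * δ)).add (P3.mul_left (δ / 2))))
  have := hasSum_le key R (S1.add S3).hasSum
  refine le_trans ?_ this
  have : δ / 2 * ∫ η, (g η + h η) ^ 2 ∂coins Vt ≤ δ / 2 * 4 :=
    mul_le_mul_of_nonneg_left e3 (by positivity)
  linarith

end WB

set_option linter.unusedVariables false in
/-- the main inequality: `g` odd with values `±1`, `g'` likewise, and `g' (η ∘ rho s)` agrees with `g η`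
for all but `ε n` indices -/
theorem pw_main {n : ℕ} (hn : 0 < n) (s : D) {g g' : Fin n → (Vt → Bool) → ℝ}
    (hg : ∀ j, Measurable (g j)) (hg' : ∀ j, Measurable (g' j))
    (h1 : ∀ j η, g j η = 1 ∨ g j η = -1) (h1' : ∀ j η, g' j η = 1 ∨ g' j η = -1)
    (ho : ∀ j η, g j (fun i => !(η i)) = - g j η) (ho' : ∀ j η, g' j (fun i => !(η i)) = - g' j η)
    {ε δ : ℝ} (hδ : 0 < δ)
    (hd : ∀ η : Vt → Bool,
      ((Finset.univ.filter (fun j => g' j (fun v => η (rho s v)) ≠ g j η)).card : ℝ) ≤ ε * n) :
    1 - (2 * ε / δ + 2 * δ) ≤ pw g s + pw g' s := by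
  have hn' : (0 : ℝ) < n := by exact_mod_cast hn
  have hhm : ∀ j, Measurable (fun η : Vt → Bool => g' j (fun v => η (rho s v))) := fun j =>
    (hg' j).comp (measurable_pi_lambda _ fun v => measurable_pi_apply _)
  have b1 : ∀ j η, |g j η| ≤ 1 := fun j η => by rcases h1 j η with e | e <;> rw [e] <;> norm_num
  have b1' : ∀ j η, |g' j η| ≤ 1 := fun j η => by rcases h1' j η with e | e <;> rw [e] <;> norm_num
  have hint : ∀ j, Integrable (fun η : Vt → Bool => (g j η - g' j (fun v => η (rho s v))) ^ 2)
      (coins Vt) := fun j => by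
    refine WB.integrable_bdd (((hg j).sub (hhm j)).pow_const 2) (C := 4) fun η => ?_
    rw [abs_of_nonneg (sq_nonneg _)]
    have := b1 j η
    have := b1' j (fun v => η (rho s v))
    rw [abs_le] at *
    nlinarith
  have hsum : ∑ j, ∫ η, (g j η - g' j (fun v => η (rho s v))) ^ 2 ∂coins Vt ≤ 4 * ε * n := by
    rw [← integral_finsetSum _ fun j _ => hint j]
    have hb : ∀ η : Vt → Bool, ∑ j, (g j η - g' j (fun v => η (rho s v))) ^ 2 ≤ 4 * ε * n := by
      intro η
      have h4 : ∀ j, (g j η - g' j (fun v => η (rho s v))) ^ 2 =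
          if g' j (fun v => η (rho s v)) ≠ g j η then 4 else 0 := by
        intro j
        rcases h1 j η with e | e <;> rcases h1' j (fun v => η (rho s v)) with e' | e' <;> rw [e, e'] <;>
          norm_num
      have h5 : ∑ j, (g j η - g' j (fun v => η (rho s v))) ^ 2 =
          4 * ((Finset.univ.filter (fun j => g' j (fun v => η (rho s v)) ≠ g j η)).card : ℝ) := by
        rw [Finset.sum_congr rfl fun j _ => h4 j, ← Finset.sum_filter, Finset.sum_const, nsmul_eq_mul]
        ring
      rw [h5]
      have := hd η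
      linarith
    calc ∫ η, ∑ j, (g j η - g' j (fun v => η (rho s v))) ^ 2 ∂coins Vt
        ≤ ∫ _, (4 * ε * n) ∂coins Vt :=
          integral_mono (integrable_finsetSum _ fun j _ => hint j) (integrable_const _) hb
      _ = 4 * ε * n := by simp
  unfold pw
  rw [← mul_add, ← Finset.sum_add_distrib]
  have hj : ∀ j, 1 - ((∫ η, (g j η - g' j (fun v => η (rho s v))) ^ 2 ∂coins Vt) / (2 * δ) + 2 * δ) ≤ _ :=
    fun j => WB.pw_single s (hg j) (hg' j) (h1 j) (h1' j) (ho j) hδ
  have hS := Finset.sum_le_sum fun j (_ : j ∈ (Finset.univ : Finset (Fin n))) => hj j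
  rw [Finset.sum_sub_distrib, Finset.sum_add_distrib, ← Finset.sum_div] at hS
  simp only [Finset.sum_const, Finset.card_univ, Fintype.card_fin, nsmul_eq_mul] at hS
  rw [div_mul_eq_mul_div, one_mul, le_div_iff₀ hn']
  refine le_trans ?_ hS
  have h6 : (∑ j, ∫ η, (g j η - g' j (fun v => η (rho s v))) ^ 2 ∂coins Vt) / (2 * δ) ≤
      2 * ε / δ * n := by
    rw [div_le_iff₀ (by positivity)]
    refine hsum.trans (le_of_eq ?_)
    field_simp
    ring
  nlinarith

end Pool.Agent.Helper85.BFC
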