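import Pool.Agent.Helper85.BFC.Basic
import Pool.Agent.Helper85.BFC.Meas
import Pool.Agent.Helper85.BFC.Marks
import Pool.Agent.Helper85.BFC.Graph
import Pool.Agent.Helper85.BFC.WeightsA
import Pool.Agent.Helper85.BFC.WeightsB
import Pool.Agent.Helper85.BFC.Bits

/-!
# No Borel homomorphism of the forest to a Kneser graph close to `2`
-/

set_option autoImplicit false

namespace Pool.Agent.Helper85.BFC

open MeasureTheory

namespace Fin1

theorem measurable_sg : Measurable sg := measurable_of_countable sg

theorem sg_vals (b : Bool) : sg b = 1 ∨ sg b = -1 := by cases b <;> simp [sg]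

theorem sg_not (b : Bool) : sg (!b) = - sg b := by cases b <;> simp [sg]

variable {n : ℕ} (f : YY → Finset (Fin n))

/-- the points whose macro vertex has `j` in its set -/
def AA (j : Fin n) : Set PP := {p | ∃ h : Vld p.1, j ∈ f (mac p h)}

theorem measurable_mac : Measurable (fun q : {p : PP // Vld p.1} => mac q.1 q.2) := by
  apply Measurable.subtype_mk
  exact measurable_subtype_coe.prodMk measurable_const

theorem measurableSet_AA (hm : ∀ s, MeasurableSet (f ⁻¹' {s})) (j : Fin n) :
    MeasurableSet (AA f j) := by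
  have h1 : MeasurableSet {y : YY | j ∈ f y} := by
    have : {y : YY | j ∈ f y} = ⋃ s ∈ {s : Finset (Fin n) | j ∈ s}, f ⁻¹' {s} := by
      ext y
      simp
    rw [this]
    exact MeasurableSet.biUnion (Set.to_countable _) fun s _ => hm s
  have h2 : MeasurableSet ((fun q : {p : PP // Vld p.1} => mac q.1 q.2) ⁻¹' {y : YY | j ∈ f y}) :=
    measurable_mac h1
  have h3 : MeasurableSet {p : PP | Vld p.1} := measurable_fst measurableSet_vld
  have h4 := MeasurableSet.subtype_image h3 h2
  convert h4 using 1
  ext p
  constructor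
  · rintro ⟨h, hj⟩
    exact ⟨⟨p, h⟩, hj, rfl⟩
  · rintro ⟨q, hq, rfl⟩
    exact ⟨q.2, hq⟩

open Classical in
/-- the sign function -/
noncomputable def gg (x : Z0) (j : Fin n) (η : Vt → Bool) : ℝ :=
  sg (η none) * (if ((x, bits η) : PP) ∈ AA f j then 1 else if Vld x then -1 else 1)

theorem measurable_gg (hm : ∀ s, MeasurableSet (f ⁻¹' {s})) (j : Fin n) :
    Measurable (fun q : Z0 × (Vt → Bool) => gg f q.1 j q.2) := by
  unfold gg
  apply Measurable.mul
  · exact measurable_sg.comp ((measurable_pi_apply none).comp measurable_snd)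
  · have h1 : Measurable (fun q : Z0 × (Vt → Bool) => ((q.1, bits q.2) : PP)) :=
      measurable_fst.prodMk (measurable_bits.comp measurable_snd)
    exact Measurable.ite (h1 (measurableSet_AA f hm j)) measurable_const
      (Measurable.ite (measurable_fst measurableSet_vld) measurable_const measurable_const)

theorem measurable_gg' (hm : ∀ s, MeasurableSet (f ⁻¹' {s})) (x : Z0) (j : Fin n) :
    Measurable (gg f x j) := (measurable_gg f hm j).comp (measurable_const.prodMk measurable_id)

theorem gg_vals (x : Z0) (j : Fin n) (η : Vt → Bool) : gg f x j η = 1 ∨ gg f x j η = -1 := by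
  unfold gg
  rcases sg_vals (η none) with h | h <;> rw [h] <;> split_ifs <;> norm_num

theorem gg_abs (x : Z0) (j : Fin n) (η : Vt → Bool) : |gg f x j η| ≤ 1 := by
  rcases gg_vals f x j η with h | h <;> rw [h] <;> norm_num

theorem gg_odd (x : Z0) (j : Fin n) (η : Vt → Bool) : gg f x j (fun v => !(η v)) = - gg f x j η := by
  unfold gg
  rw [bits_not, sg_not]
  ring

open Classical in
theorem gg_eq {x : Z0} (hx : Vld x) (j : Fin n) (η : Vt → Bool) :
    gg f x j η = sg (η none) * (if j ∈ f (mac (x, bits η) hx) then 1 else -1) := by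
  unfold gg
  have : ((x, bits η) : PP) ∈ AA f j ↔ j ∈ f (mac (x, bits η) hx) :=
    ⟨fun ⟨_, h⟩ => h, fun h => ⟨hx, h⟩⟩
  simp only [this, if_pos hx]

theorem gg_agree {k : ℕ} (hnk : (n : ℝ) < (2 + 1 / 2000) * (k : ℝ))
    (hc : ∀ x, (f x).card = k) (hd : ∀ x y, GG.Adj x y → Disjoint (f x) (f y))
    {x : Z0} (hx : Vld x) (s : D) (η : Vt → Bool) :
    ((Finset.univ.filter (fun j => gg f (sig s x) j (fun v => η (rho s v)) ≠ gg f x j η)).card : ℝ)
      ≤ 1 / 2000 * n := by
  classical
  set p : PP := (x, bits η) with hp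
  have hx' : Vld (sig s x) := vld_sig hx s
  have hpp : (sig s x, bits (fun v => η (rho s v))) = sigP s p := by
    rw [bits_rho]
    rfl
  have hvp : Vld (sigP s p).1 := hx'
  have e0 : ∀ q : PP, ∀ h : Vld q.1, q = sigP s p → f (mac q h) = f (mac (sigP s p) hvp) := by
    intro q h hq
    subst hq
    rfl
  have e1 : f (mac (sig s x, bits (fun v => η (rho s v))) hx') = f (mac (sigP s p) hvp) :=
    e0 _ _ hpp
  have e2 : ∀ j, gg f (sig s x) j (fun v => η (rho s v)) =
      sg (η (some (s, 0))) * (if j ∈ f (mac (sigP s p) hvp) then 1 else -1) := by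
    intro j
    rw [gg_eq f hx', e1]
    rfl
  have e3 : ∀ j, gg f x j η = sg (η none) * (if j ∈ f (mac p hx) then 1 else -1) :=
    fun j => gg_eq f hx j η
  set S := f (mac p hx) with hS
  set S' := f (mac (sigP s p) hvp) with hS'
  have hcS : S.card = k := hc _
  have hcS' : S'.card = k := hc _
  -- the bound
  have key : ∀ T : Finset (Fin n), T.card ≤ 2 * (n - 2 * k) → 2 * k ≤ n → (T.card : ℝ) ≤ 1 / 2000 * n := by
    intro T hT h2k
    have h1 : (T.card : ℝ) ≤ 2 * ((n : ℝ) - 2 * k) := by
      have : (T.card : ℝ) ≤ ((2 * (n - 2 * k) : ℕ) : ℝ) := by exact_mod_cast hT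
      rw [Nat.cast_mul, Nat.cast_sub h2k] at this
      push_cast at this
      exact this
    have h2 : (2 * k : ℝ) ≤ n := by exact_mod_cast h2k
    nlinarith
  have hb : p.2 s 0 = (η none == η (some (s, 0))) := bits_zero s η
  cases hbit : p.2 s 0 with
  | false =>
    have hadj := GG_direct p hx s hvp hbit
    have hdis : Disjoint S S' := hd _ _ hadj
    have hne : η (some (s, 0)) = !(η none) := by
      have h1 : (η none == η (some (s, 0))) = false := hb.symm.trans hbit
      have h2 : η none ≠ η (some (s, 0)) := beq_eq_false_iff_ne.1 h1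
      exact Bool.eq_not.2 (Ne.symm h2)
    have hun : (S ∪ S').card = 2 * k := by
      rw [Finset.card_union_of_disjoint hdis, hcS, hcS']; ring
    have h2k : 2 * k ≤ n := by
      have := Finset.card_le_univ (S ∪ S')
      rw [hun, Fintype.card_fin] at this
      exact this
    apply key _ _ h2k
    have hsub : (Finset.univ.filter (fun j => gg f (sig s x) j (fun v => η (rho s v)) ≠ gg f x j η))
        ⊆ (S ∪ S')ᶜ := by
      intro j hj
      rw [Finset.mem_filter, e2, e3, hne, sg_not] at hj
      rw [Finset.mem_compl, Finset.mem_union]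
      rintro (h | h)
      · have h' : j ∉ S' := fun h'' => (Finset.disjoint_left.1 hdis h) h''
        apply hj.2
        rw [if_pos h, if_neg h']; ring
      · have h' : j ∉ S := fun h'' => (Finset.disjoint_left.1 hdis h'') h
        apply hj.2
        rw [if_pos h, if_neg h']; ring
    have h3 := Finset.card_le_card hsub
    rw [Finset.card_compl, hun, Fintype.card_fin] at h3
    omega
  | true =>
    obtain ⟨m, hm1, hm2⟩ := GG_mid p hx s hvp hbit
    have hd1 : Disjoint S (f m) := hd _ _ hm1
    have hd2 : Disjoint (f m) S' := hd _ _ hm2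
    have hne : η (some (s, 0)) = η none := by
      have h1 : (η none == η (some (s, 0))) = true := hb.symm.trans hbit
      exact (eq_of_beq h1).symm
    have hcm : (f m).card = k := hc m
    have h2k : 2 * k ≤ n := by
      have := Finset.card_le_univ (S ∪ f m)
      rw [Finset.card_union_of_disjoint hd1, hcS, hcm, Fintype.card_fin] at this
      omega
    apply key _ _ h2k
    have hsub : (Finset.univ.filter (fun j => gg f (sig s x) j (fun v => η (rho s v)) ≠ gg f x j η))
        ⊆ (S \ S') ∪ (S' \ S) := by
      intro j hj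
      rw [Finset.mem_filter, e2, e3, hne] at hj
      rw [Finset.mem_union, Finset.mem_sdiff, Finset.mem_sdiff]
      by_contra hcon
      push Not at hcon
      apply hj.2
      by_cases h : j ∈ S
      · have h' : j ∈ S' := by
          by_contra h''
          exact absurd (hcon.1 h) h''
        rw [if_pos h, if_pos h']
      · have h' : j ∉ S' := fun h'' => h (hcon.2 h'')
        rw [if_neg h, if_neg h']
    have h3 := Finset.card_le_card hsub
    have h4 : ((S ∪ S') ∪ f m).card ≤ n := by
      have := Finset.card_le_univ ((S ∪ S') ∪ f m)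
      rwa [Fintype.card_fin] at this
    have h5 : Disjoint (S ∪ S') (f m) := Finset.disjoint_union_left.2 ⟨hd1, hd2.symm⟩
    rw [Finset.card_union_of_disjoint h5, hcm] at h4
    have h6 : ((S \ S') ∪ (S' \ S)).card ≤ (S \ S').card + (S' \ S).card := Finset.card_union_le _ _
    have h7 : (S' ∪ S).card = (S' \ S).card + S.card := by
      rw [← Finset.card_union_of_disjoint Finset.sdiff_disjoint, Finset.sdiff_union_self_eq_union]
    have h8 : (S ∪ S').card = (S \ S').card + S'.card := by
      rw [← Finset.card_union_of_disjoint Finset.sdiff_disjoint, Finset.sdiff_union_self_eq_union]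
    rw [Finset.union_comm S' S] at h7
    omega

open Classical in
/-- the colouring -/
noncomputable def cc (x : Z0) : D :=
  if pw (gg f x) 0 ≤ 1 / 3 then 0 else if pw (gg f x) 1 ≤ 1 / 3 then 1 else 2

theorem measurable_cc (hm : ∀ s, MeasurableSet (f ⁻¹' {s})) : Measurable (cc f) := by
  unfold cc
  have h := fun t : D => pw_meas (g := fun x => gg f x) (measurable_gg f hm) t
  exact Measurable.ite (measurableSet_le (h 0) measurable_const) measurable_const
    (Measurable.ite (measurableSet_le (h 1) measurable_const) measurable_const measurable_const)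

theorem pw_cc (hn : 0 < n) (hm : ∀ s, MeasurableSet (f ⁻¹' {s})) (x : Z0) :
    pw (gg f x) (cc f x) ≤ 1 / 3 := by
  have h := pw_sum_le hn (g := gg f x) (measurable_gg' f hm x) (gg_abs f x)
  unfold cc
  split_ifs with h0 h1
  · exact h0
  · exact h1
  · push Not at h0 h1
    linarith

end Fin1

open Fin1

/-- no Borel homomorphism of the forest to a Kneser graph close to 2 -/
theorem no_hom (n k : ℕ) (hk : 0 < k) (hnk : (n : ℝ) < (2 + 1 / 2000) * (k : ℝ)) (f : YY → Finset (Fin n))
    (hc : ∀ x, (f x).card = k) (hm : ∀ s, MeasurableSet (f ⁻¹' {s}))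
    (hd : ∀ x y, GG.Adj x y → Disjoint (f x) (f y)) : False := by
  obtain ⟨z, s, hz, h1, h2⟩ := marks (measurable_cc f hm)
  have hn : 0 < n := by
    have h := Finset.card_le_univ (f (mac (z, fun _ _ => false) hz))
    rw [hc, Fintype.card_fin] at h
    omega
  have h3 := pw_cc f hn hm z
  have h4 := pw_cc f hn hm (sig s z)
  rw [h1] at h3
  rw [h2] at h4
  have h5 := pw_main hn s (g := gg f z) (g' := gg f (sig s z)) (measurable_gg' f hm z)
    (measurable_gg' f hm (sig s z)) (gg_vals f z) (gg_vals f (sig s z)) (gg_odd f z)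
    (gg_odd f (sig s z)) (ε := 1 / 2000) (δ := 1 / 20) (by norm_num)
    (fun η => gg_agree f hnk hc hd hz s η)
  norm_num at h5
  linarith

end Pool.Agent.Helper85.BFC
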