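import Pool.Agent.Helper85.BFC.Defs

/-!
# The games behind the hyperfinite version of Marks' theorem
-/

set_option autoImplicit false

namespace Pool.Agent.Helper85.BFC

/-- A move: a nonempty block of bits `b :: l` and an index `i`. -/
structure Mv where
  /-- first bit of the block -/
  b : Bool
  /-- the other bits of the block -/
  l : List Bool
  /-- the index -/
  i : ℕ

instance : Nonempty Mv := ⟨⟨false, [], 0⟩⟩

instance : MeasurableSpace Mv := ⊤

instance : DiscreteMeasurableSpace Mv := ⟨fun _ => trivial⟩

instance : Countable Mv := by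
  have h : Function.Injective (fun m : Mv => (m.b, m.l, m.i)) := by
    rintro ⟨b, l, i⟩ ⟨b', l', i'⟩ h
    simp only [Prod.mk.injEq] at h
    obtain ⟨rfl, rfl, rfl⟩ := h
    rfl
  exact h.countable

/-- the block of a move -/
def blk (m : Mv) : List Bool := m.b :: m.l

/-- The word after `n` rounds of the game with starting word `p`; `x` are the moves of player I, `y` those of
player II. -/
def wd (p : List Bool) (x y : ℕ → Mv) : ℕ → List Bool
  | 0 => p
  | n + 1 => wd p x y n ++ blk (x n) ++ blk (y n)

/-- the root label produced by a play -/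
def kk (p : List Bool) (x y : ℕ → Mv) : ℕ → Bool := fun i => (wd p x y (i + 1)).getD i false

/-- The `r`-th move of player I is legal. -/
def LI (p : List Bool) (x y : ℕ → Mv) (r : ℕ) : Prop :=
  (x r).i < (wd p x y r ++ blk (x r)).length ∧ OK r (kk p x y) (fun n => (x n).i) ∧
    (r = 0 → p.length ≤ (x 0).i)

/-- The `r`-th move of player II is legal. -/
def LII (p : List Bool) (x y : ℕ → Mv) (r : ℕ) : Prop :=
  (y r).i < (wd p x y (r + 1)).length ∧ OK (r / 2) (kk p x y) (fun j => (y (2 * j + r % 2)).i) ∧
    (r = 0 → (y 0).i ≠ (x 0).i) ∧ (r = 1 → (y 1).i ≠ (x 0).i ∧ (y 1).i ≠ (y 0).i)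

/-- The labelled tree produced by a play of the game of direction `s`. -/
def zz (s : D) (p : List Bool) (x y : ℕ → Mv) : Z0 :=
  (kk p x y, fun t n => if t = s then (x n).i else (y (2 * n + (bt s t).toNat)).i)

/-- The winning set of player I in the game `(s, p)` for the colouring `c`. -/
def WI (c : Z0 → D) (s : D) (p : List Bool) : Set ((ℕ → Mv) × (ℕ → Mv)) :=
  {w | (∃ r, ¬ LII p w.1 w.2 r ∧ ∀ r', r' ≤ r → LI p w.1 w.2 r') ∨
    ((∀ r, LI p w.1 w.2 r ∧ LII p w.1 w.2 r) ∧ c (zz s p w.1 w.2) ≠ s)}

/-- joined block with a new index -/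
def cat (m m' : Mv) (i : ℕ) : Mv := ⟨m.b, m.l ++ blk m', i⟩

/-- interleaved indices -/
def mixIdx (u v : ℕ → Mv) (r : ℕ) : ℕ := if r % 2 = 0 then (u (r / 2)).i else (v (r / 2)).i

/-- Moves of player II in the first of three simultaneous games. -/
def yA (b d : ℕ → Mv) : ℕ → Mv := fun r => cat (b r) (d r) (mixIdx b d r)

/-- Moves of player II in the second of three simultaneous games. -/
def yB (a d : ℕ → Mv) : ℕ → Mv := fun r => cat (d r) (a (r + 1)) (mixIdx d a r)

/-- Moves of player II in the third of three simultaneous games. -/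
def yC (a b : ℕ → Mv) : ℕ → Mv := fun r => cat (a (r + 1)) (b (r + 1)) (mixIdx a b r)

theorem blk_cat (m m' : Mv) (i : ℕ) : blk (cat m m' i) = blk m ++ blk m' := rfl

theorem blk_length_pos (m : Mv) : 0 < (blk m).length := Nat.succ_pos _

theorem wd_zero (p : List Bool) (x y : ℕ → Mv) : wd p x y 0 = p := rfl

theorem wd_succ (p : List Bool) (x y : ℕ → Mv) (n : ℕ) :
    wd p x y (n + 1) = wd p x y n ++ blk (x n) ++ blk (y n) := rfl

theorem wd_length (p : List Bool) (x y : ℕ → Mv) (n : ℕ) : p.length + 2 * n ≤ (wd p x y n).length := by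
  induction n with
  | zero => rw [wd_zero]; omega
  | succ n ih =>
    have h1 := blk_length_pos (x n)
    have h2 := blk_length_pos (y n)
    rw [wd_succ, List.length_append, List.length_append]
    omega

theorem wd_prefix (p : List Bool) (x y : ℕ → Mv) {n k : ℕ} (h : n ≤ k) :
    wd p x y n <+: wd p x y k := by
  induction k, h using Nat.le_induction with
  | base => exact List.prefix_refl _
  | succ k hk ih =>
    rw [wd_succ, List.append_assoc]
    exact ih.trans (List.prefix_append _ _)

theorem getD_prefix {u v : List Bool} (h : u <+: v) {i : ℕ} (hi : i < u.length) :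
    u.getD i false = v.getD i false := by
  obtain ⟨w, rfl⟩ := h
  rw [List.getD_append _ _ _ _ hi]

/-- the label is read off any long enough prefix -/
theorem kk_eq (p : List Bool) (x y : ℕ → Mv) {i n : ℕ} (hi : i < (wd p x y n).length) :
    kk p x y i = (wd p x y n).getD i false := by
  unfold kk
  have h1 : i < (wd p x y (i + 1)).length := by
    have := wd_length p x y (i + 1)
    omega
  rcases Nat.le_total n (i + 1) with h | h
  · exact (getD_prefix (wd_prefix p x y h) hi).symm
  · exact getD_prefix (wd_prefix p x y h) h1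

/-- the label is determined by being read off arbitrarily long words -/
theorem kk_eq_of_prefix (p : List Bool) (x y : ℕ → Mv) {i : ℕ} {u : List Bool} (hi : i < u.length)
    {n : ℕ} (hu : u <+: wd p x y n) : kk p x y i = u.getD i false := by
  have h : i < (wd p x y n).length := lt_of_lt_of_le hi hu.length_le
  rw [kk_eq p x y h, getD_prefix hu hi]

end Pool.Agent.Helper85.BFC
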