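import Pool.Agent.Helper85.BFC.Basic
import Pool.Agent.Helper85.BFC.Meas
import Pool.Agent.Helper85.BFC.GraphDefs

set_option autoImplicit false

namespace Pool.Agent.Helper85.BFC

open MeasureTheory

theorem FF_equiv (m : ℕ) : Equivalence (fun y y' : YY => FF m y.1 y'.1) := by
  constructor
  · intro y
    exact ⟨⟨[], rfl⟩, fun _ _ => rfl, Or.inl rfl⟩
  · rintro y y' ⟨⟨w, hw⟩, h2, h3⟩
    refine ⟨⟨w.reverse, ?_⟩, fun i hi => (h2 i hi).symm, ?_⟩
    · rw [hw, actP_reverse]
    · rcases h3 with h3 | ⟨h3, h4⟩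
      · exact Or.inl h3.symm
      · exact Or.inr ⟨h4, h3⟩
  · rintro y y' y'' ⟨⟨w, hw⟩, h2, h3⟩ ⟨⟨w', hw'⟩, h2', h3'⟩
    refine ⟨⟨w ++ w', ?_⟩, fun i hi => (h2 i hi).trans (h2' i hi), ?_⟩
    · rw [hw', hw, actP_append]
    · rcases h3 with h3 | ⟨h3, h4⟩
      · rw [h3]
        exact h3'
      · rcases h3' with h3' | ⟨h3', h4'⟩
        · rw [← h3']
          exact Or.inr ⟨h3, h4⟩
        · exact Or.inr ⟨h3, h4'⟩

theorem FF_meas (m : ℕ) : MeasurableSet {p : YY × YY | FF m p.1.1 p.2.1} := by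
  have h1 : Measurable (fun p : YY × YY => (p.1.1 : YR)) :=
    measurable_subtype_coe.comp measurable_fst
  have h2 : Measurable (fun p : YY × YY => (p.2.1 : YR)) :=
    measurable_subtype_coe.comp measurable_snd
  have hA : MeasurableSet {p : YY × YY | ∃ w : List D, p.2.1.1 = actP w p.1.1.1} := by
    have : {p : YY × YY | ∃ w : List D, p.2.1.1 = actP w p.1.1.1} =
        ⋃ w : List D, {p : YY × YY | p.2.1.1 = actP w p.1.1.1} := by
      ext p
      simp only [Set.mem_ofPred_eq, Set.mem_iUnion]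
    rw [this]
    refine MeasurableSet.iUnion fun w => ?_
    exact measurableSet_eq_fun (measurable_fst.comp h2)
      ((measurable_actP w).comp (measurable_fst.comp h1))
  have hB : MeasurableSet {p : YY × YY | ∀ i, m ≤ i → p.1.1.1.1.1 i = p.2.1.1.1.1 i} := by
    have : {p : YY × YY | ∀ i, m ≤ i → p.1.1.1.1.1 i = p.2.1.1.1.1 i} =
        ⋂ i : ℕ, {p : YY × YY | m ≤ i → p.1.1.1.1.1 i = p.2.1.1.1.1 i} := by
      ext p
      simp only [Set.mem_ofPred_eq, Set.mem_iInter]
    rw [this]
    refine MeasurableSet.iInter fun i => ?_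
    by_cases hi : m ≤ i
    · have : {p : YY × YY | m ≤ i → p.1.1.1.1.1 i = p.2.1.1.1.1 i} =
          {p : YY × YY | p.1.1.1.1.1 i = p.2.1.1.1.1 i} := by
        ext p
        simp only [Set.mem_ofPred_eq, hi, true_imp_iff]
      rw [this]
      refine measurableSet_eq_fun ?_ ?_
      · exact (measurable_pi_apply i).comp
          (measurable_fst.comp (measurable_fst.comp (measurable_fst.comp h1)))
      · exact (measurable_pi_apply i).comp
          (measurable_fst.comp (measurable_fst.comp (measurable_fst.comp h2)))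
    · have : {p : YY × YY | m ≤ i → p.1.1.1.1.1 i = p.2.1.1.1.1 i} = Set.univ := by
        ext p
        simp only [Set.mem_ofPred_eq, hi, false_imp_iff, Set.mem_univ]
      rw [this]
      exact MeasurableSet.univ
  have ho : Measurable osize := measurable_of_countable _
  have hC : MeasurableSet {p : YY × YY | p.1.1 = p.2.1} := measurableSet_eq_fun h1 h2
  have hD : MeasurableSet {p : YY × YY | osize p.1.1.2 ≤ m} :=
    (ho.comp (measurable_snd.comp h1)) (measurableSet_Iic (a := m))
  have hE : MeasurableSet {p : YY × YY | osize p.2.1.2 ≤ m} :=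
    (ho.comp (measurable_snd.comp h2)) (measurableSet_Iic (a := m))
  exact hA.inter (hB.inter (hC.union (hD.inter hE)))

theorem FF_mono (m : ℕ) (x y : YY) (h : FF m x.1 y.1) : FF (m + 1) x.1 y.1 := by
  obtain ⟨h1, h2, h3⟩ := h
  refine ⟨h1, fun i hi => h2 i (by omega), ?_⟩
  rcases h3 with h3 | ⟨h3, h4⟩
  · exact Or.inl h3
  · exact Or.inr ⟨by omega, by omega⟩

end Pool.Agent.Helper85.BFC
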