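import Pool.Agent.Helper85.BFC.Free
import Pool.Agent.Helper85.BFC.Graph

/-!
# Finiteness of the classes of the hyperfiniteness witness, and their union
-/

set_option autoImplicit false

namespace Pool.Agent.Helper85.BFC

/-- two points of one orbit with the same label are equal -/
theorem orbit_label_inj {p q : PP} (hp : Vld p.1) {w : List D} (hw : q = actP w p)
    (hl : q.1.1 = p.1.1) : q = p := by
  obtain ⟨v, hv, hvw⟩ := exists_reduced w
  rw [hvw] at hw
  by_cases h : v = []
  · subst h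
    exact hw
  · exfalso
    apply act_ne hp h hv
    rw [← actP_fst, ← hw, hl]

theorem FF_finite (m : ℕ) (x : YY) : {y : YY | FF m x.1 y.1}.Finite := by
  classical
  let T : Set YY := {y : YY | (∃ w : List D, y.1.1 = actP w x.1.1) ∧
    (∀ i, m ≤ i → x.1.1.1.1 i = y.1.1.1.1 i) ∧ osize y.1.2 ≤ m}
  have hT : T.Finite := by
    let φ : YY → (Fin m → Bool) × Option (D × Fin (m + 1)) := fun y =>
      (fun i => y.1.1.1.1 i, y.1.2.map (fun q => (q.1, ⟨min q.2 m, by omega⟩)))
    apply Set.Finite.of_finite_image (f := φ) (Set.toFinite _)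
    rintro y ⟨⟨w, hw⟩, hyl, hyo⟩ y' ⟨⟨w', hw'⟩, hyl', hyo'⟩ hφ
    have h1 : (fun i : Fin m => y.1.1.1.1 i) = fun i : Fin m => y'.1.1.1.1 i :=
      congrArg Prod.fst hφ
    have h2 : y.1.2.map (fun q => (q.1, (⟨min q.2 m, by omega⟩ : Fin (m + 1)))) =
        y'.1.2.map (fun q => (q.1, (⟨min q.2 m, by omega⟩ : Fin (m + 1)))) :=
      congrArg Prod.snd hφ
    have hl : y'.1.1.1.1 = y.1.1.1.1 := by
      funext i
      by_cases hi : i < m
      · exact (congrFun h1 ⟨i, hi⟩).symm
      · rw [← hyl i (by omega), ← hyl' i (by omega)]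
    have hp : y'.1.1 = y.1.1 := by
      apply orbit_label_inj (w := w.reverse ++ w') y.2.1 _ hl
      rw [actP_append, hw, actP_reverse, hw']
    have ho : y'.1.2 = y.1.2 := by
      revert h2 hyo hyo'
      generalize y.1.2 = a
      generalize y'.1.2 = b
      intro hyo hyo' h2
      rcases a with _ | ⟨s, n⟩ <;> rcases b with _ | ⟨s', n'⟩
      · rfl
      · simp at h2
      · simp at h2
      · simp only [Option.map_some, Option.some.injEq, Prod.mk.injEq, Fin.mk.injEq] at h2
        simp only [osize] at hyo hyo'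
        obtain ⟨h3, h4⟩ := h2
        rw [h3]
        congr 2
        omega
    exact Subtype.ext (Prod.ext hp.symm ho.symm)
  apply (hT.insert x).subset
  rintro y ⟨hw, hl, h | ⟨_, h⟩⟩
  · left
    exact Subtype.ext h.symm
  · right
    exact ⟨hw, hl, h⟩

theorem nbr_fst (y : YR) (t : D) : ∃ w : List D, (nbr y t).1 = actP w y.1 := by
  unfold nbr
  split
  · split_ifs
    · exact ⟨[t], rfl⟩
    · exact ⟨[], rfl⟩
    · exact ⟨[t], rfl⟩
  · rename_i s _
    split_ifs
    · exact ⟨[], rfl⟩
    · exact ⟨[s], rfl⟩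
    · exact ⟨[], rfl⟩
  · split_ifs
    · exact ⟨[], rfl⟩
    · exact ⟨[], rfl⟩
    · exact ⟨[], rfl⟩

theorem reach_word {x y : YY} (h : GG.Reachable x y) : ∃ w : List D, y.1.1 = actP w x.1.1 := by
  rw [SimpleGraph.reachable_iff_reflTransGen] at h
  induction h with
  | refl => exact ⟨[], rfl⟩
  | tail _ hbc ih =>
    obtain ⟨w, hw⟩ := ih
    obtain ⟨t, ht⟩ := (GG_adj _ _).1 hbc
    obtain ⟨w', hw'⟩ := nbr_fst _ t
    refine ⟨w ++ w', ?_⟩
    rw [actP_append, ← hw, ← hw', ht]

theorem reach_mac (p : PP) (hp : Vld p.1) (s : D) : ∀ (n : ℕ) (hy : YV (p, some (s, n))),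
    GG.Reachable (mac p hp) ⟨(p, some (s, n)), hy⟩ := by
  intro n
  induction n using Nat.strong_induction_on with
  | _ n ih =>
    intro hy
    rcases n with _ | n
    · apply SimpleGraph.Adj.reachable
      apply SimpleGraph.Adj.symm
      rw [GG_adj]
      exact ⟨0, by simp [nbr, mac]⟩
    · have hv : YV (p, some (s, (n + 1) / 2)) := by
        have := nbr_valid hy 0
        simpa [nbr] using this
      refine (ih ((n + 1) / 2) (by omega) hv).trans ?_
      apply SimpleGraph.Adj.reachable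
      apply SimpleGraph.Adj.symm
      rw [GG_adj]
      exact ⟨0, by simp [nbr]⟩

theorem reach_mac' (y : YY) : GG.Reachable (mac y.1.1 y.2.1) y := by
  obtain ⟨⟨p, o⟩, hy⟩ := y
  rcases o with _ | ⟨s, n⟩
  · exact SimpleGraph.Reachable.refl _
  · exact reach_mac p hy.1 s n hy

theorem reach_act (w : List D) : ∀ (p : PP) (hp : Vld p.1) (hp' : Vld (actP w p).1),
    GG.Reachable (mac p hp) (mac (actP w p) hp') := by
  induction w with
  | nil =>
    intro p hp hp'
    exact SimpleGraph.Reachable.refl _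
  | cons s w ih =>
    intro p hp hp'
    have hs : Vld (sigP s p).1 := vld_sig hp s
    refine SimpleGraph.Reachable.trans ?_ (ih (sigP s p) hs hp')
    rcases h : p.2 s 0 with _ | _
    · exact (GG_direct p hp s hs h).reachable
    · obtain ⟨m, h1, h2⟩ := GG_mid p hp s hs h
      exact h1.reachable.trans h2.reachable

theorem GG_reach (x y : YY) : GG.Reachable x y ↔ ∃ m, FF m x.1 y.1 := by
  constructor
  · intro h
    obtain ⟨w, hw⟩ := reach_word h
    obtain ⟨m, hm⟩ := act_tail w x.1.1.1
    refine ⟨m + osize x.1.2 + osize y.1.2, ⟨w, hw⟩, ?_, Or.inr ⟨by omega, by omega⟩⟩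
    intro i hi
    rw [hw, actP_fst, hm i (by omega)]
  · rintro ⟨m, ⟨w, hw⟩, -, -⟩
    have h1 := reach_mac' x
    have h2 := reach_mac' y
    refine h1.symm.trans (SimpleGraph.Reachable.trans ?_ h2)
    have hv : Vld (actP w x.1.1).1 := hw ▸ y.2.1
    have h3 := reach_act w x.1.1 x.2.1 hv
    have e : mac (actP w x.1.1) hv = mac y.1.1 y.2.1 := by
      apply Subtype.ext
      simp only [mac, hw]
    rw [e] at h3
    exact h3

end Pool.Agent.Helper85.BFC
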