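import Pool.Agent.Helper85.BFC.GraphDefs
import Pool.Agent.Helper85.BFC.Basic
import Pool.Agent.Helper85.BFC.Meas

/-!
# The neighbours of a vertex of the forest
-/

set_option autoImplicit false

namespace Pool.Agent.Helper85.BFC

namespace Nb

end Nb

open MeasureTheory Nb

/-! ### values of `nbr` -/

theorem Nb.nbr_none_direct {p : PP} {t : D} (h : p.2 t 0 = false) :
    nbr (p, none) t = (sigP t p, none) := by
  unfold nbr; simp [h]

theorem Nb.nbr_none_own {p : PP} {t : D} (h : p.2 t 0 = true) (h' : p.1.1 (p.1.2 t 0) = false) :
    nbr (p, none) t = (p, some (t, 0)) := by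
  unfold nbr; simp [h, h']

theorem Nb.nbr_none_other {p : PP} {t : D} (h : p.2 t 0 = true) (h' : p.1.1 (p.1.2 t 0) = true) :
    nbr (p, none) t = (sigP t p, some (t, 0)) := by
  unfold nbr; simp [h, h']

theorem Nb.nbr_zero_zero (p : PP) (s : D) : nbr (p, some (s, 0)) 0 = (p, none) := by
  unfold nbr; simp

theorem Nb.nbr_zero_one (p : PP) (s : D) : nbr (p, some (s, 0)) 1 = (sigP s p, none) := by
  unfold nbr; simp

theorem Nb.nbr_zero_two (p : PP) (s : D) : nbr (p, some (s, 0)) 2 = (p, some (s, 1)) := by
  unfold nbr; simp

theorem Nb.nbr_succ_zero (p : PP) (s : D) (n : ℕ) :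
    nbr (p, some (s, n + 1)) 0 = (p, some (s, (n + 1) / 2)) := by
  unfold nbr; simp

theorem Nb.nbr_succ_one (p : PP) (s : D) (n : ℕ) :
    nbr (p, some (s, n + 1)) 1 = (p, some (s, 2 * (n + 1))) := by
  unfold nbr; simp

theorem Nb.nbr_succ_two (p : PP) (s : D) (n : ℕ) :
    nbr (p, some (s, n + 1)) 2 = (p, some (s, 2 * (n + 1) + 1)) := by
  unfold nbr; simp

theorem Nb.D_cases (t : D) : t = 0 ∨ t = 1 ∨ t = 2 := by
  revert t; decide

theorem Nb.sigP_bit (s : D) (p : PP) : (sigP s p).2 s 0 = p.2 s 0 := rer_zero s p.2

theorem Nb.sigP_idx (s : D) (p : PP) : (sigP s p).1.2 s 0 = p.1.2 s 0 := rer_zero s p.1.2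

theorem Nb.sigP_lab (s : D) (p : PP) :
    (sigP s p).1.1 ((sigP s p).1.2 s 0) = !(p.1.1 (p.1.2 s 0)) := by
  rw [sigP_idx]
  show flip (p.1.2 s 0) p.1.1 (p.1.2 s 0) = _
  unfold flip
  rw [Function.update_self]

theorem Nb.sigP_ne (s : D) (p : PP) : sigP s p ≠ p := by
  intro h
  have h1 := sigP_lab s p
  rw [h] at h1
  cases hb : p.1.1 (p.1.2 s 0) <;> rw [hb] at h1 <;> simp at h1

theorem Nb.flip_eq_iff {m n : ℕ} {k : ℕ → Bool} (h : flip m k = flip n k) : m = n := by
  by_contra hne
  have h1 := congrFun h m
  unfold flip at h1
  rw [Function.update_self, Function.update_of_ne hne] at h1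
  cases hb : k m <;> rw [hb] at h1 <;> simp at h1

theorem Nb.sigP_inj {p : PP} (hp : Vld p.1) {s t : D} (h : sigP s p = sigP t p) : s = t := by
  by_contra hne
  have h1 : flip (p.1.2 s 0) p.1.1 = flip (p.1.2 t 0) p.1.1 := congrArg (fun q : PP => q.1.1) h
  exact hp.2 s t hne (flip_eq_iff h1)

theorem Nb.owns_sigP {p : PP} {s : D} (h : p.2 s 0 = true) (h' : p.1.1 (p.1.2 s 0) = true) :
    Owns (sigP s p) s := by
  refine ⟨?_, ?_⟩
  · rw [sigP_bit, h]
  · rw [sigP_lab, h']; rfl

theorem nbr_valid {y : YR} (hy : YV y) (t : D) : YV (nbr y t) := by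
  obtain ⟨p, o⟩ := y
  obtain ⟨hp, ho⟩ := hy
  rcases o with _ | ⟨s, n⟩
  · by_cases hb : p.2 t 0 = false
    · rw [nbr_none_direct hb]
      exact ⟨vld_sig hp t, fun s n h => by cases h⟩
    · rw [Bool.not_eq_false] at hb
      by_cases hl : p.1.1 (p.1.2 t 0) = false
      · rw [nbr_none_own hb hl]
        refine ⟨hp, fun s n h => ?_⟩
        simp only [Option.some.injEq, Prod.mk.injEq] at h
        rw [← h.1]
        exact ⟨hb, hl⟩
      · rw [Bool.not_eq_false] at hl
        rw [nbr_none_other hb hl]
        refine ⟨vld_sig hp t, fun s n h => ?_⟩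
        simp only [Option.some.injEq, Prod.mk.injEq] at h
        rw [← h.1]
        exact owns_sigP hb hl
  · have hO : Owns p s := ho s n rfl
    have hsame : ∀ m, YV (p, some (s, m)) := by
      intro m
      refine ⟨hp, fun s' n' h => ?_⟩
      simp only [Option.some.injEq, Prod.mk.injEq] at h
      rw [← h.1]
      exact hO
    rcases n with _ | n
    · rcases D_cases t with rfl | rfl | rfl
      · rw [nbr_zero_zero]
        exact ⟨hp, fun s n h => by cases h⟩
      · rw [nbr_zero_one]
        exact ⟨vld_sig hp s, fun s n h => by cases h⟩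
      · rw [nbr_zero_two]
        exact hsame 1
    · rcases D_cases t with rfl | rfl | rfl
      · rw [nbr_succ_zero]; exact hsame _
      · rw [nbr_succ_one]; exact hsame _
      · rw [nbr_succ_two]; exact hsame _

theorem nbr_symm {y : YR} (hy : YV y) (t : D) : ∃ t', nbr (nbr y t) t' = y := by
  obtain ⟨p, o⟩ := y
  obtain ⟨hp, ho⟩ := hy
  rcases o with _ | ⟨s, n⟩
  · by_cases hb : p.2 t 0 = false
    · refine ⟨t, ?_⟩
      rw [nbr_none_direct hb, nbr_none_direct (by rw [sigP_bit, hb]), sigP_sigP]
    · rw [Bool.not_eq_false] at hb
      by_cases hl : p.1.1 (p.1.2 t 0) = false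
      · refine ⟨0, ?_⟩
        rw [nbr_none_own hb hl, nbr_zero_zero]
      · rw [Bool.not_eq_false] at hl
        refine ⟨1, ?_⟩
        rw [nbr_none_other hb hl, nbr_zero_one, sigP_sigP]
  · have hO : Owns p s := ho s n rfl
    rcases n with _ | n
    · rcases D_cases t with rfl | rfl | rfl
      · refine ⟨s, ?_⟩
        rw [nbr_zero_zero, nbr_none_own hO.1 hO.2]
      · refine ⟨s, ?_⟩
        rw [nbr_zero_one, nbr_none_other (by rw [sigP_bit, hO.1]) (by rw [sigP_lab, hO.2]; rfl),
          sigP_sigP]
      · refine ⟨0, ?_⟩
        rw [nbr_zero_two]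
        exact nbr_succ_zero p s 0
    · rcases D_cases t with rfl | rfl | rfl
      · rw [nbr_succ_zero]
        rcases Nat.eq_zero_or_pos ((n + 1) / 2) with h0 | h0
        · refine ⟨2, ?_⟩
          rw [h0, nbr_zero_two]
          have : n = 0 := by omega
          rw [this]
        · obtain ⟨m, hm⟩ : ∃ m, (n + 1) / 2 = m + 1 := ⟨(n + 1) / 2 - 1, by omega⟩
          rw [hm]
          rcases Nat.mod_two_eq_zero_or_one (n + 1) with h | h
          · refine ⟨1, ?_⟩
            rw [nbr_succ_one]
            have : 2 * (m + 1) = n + 1 := by omega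
            rw [this]
          · refine ⟨2, ?_⟩
            rw [nbr_succ_two]
            have : 2 * (m + 1) + 1 = n + 1 := by omega
            rw [this]
      · refine ⟨0, ?_⟩
        rw [nbr_succ_one]
        have e : 2 * (n + 1) = (2 * n + 1) + 1 := by ring
        rw [e, nbr_succ_zero]
        have : (2 * n + 1 + 1) / 2 = n + 1 := by omega
        rw [this]
      · refine ⟨0, ?_⟩
        rw [nbr_succ_two, nbr_succ_zero]
        have : (2 * (n + 1) + 1) / 2 = n + 1 := by omega
        rw [this]

theorem nbr_ne {y : YR} (hy : YV y) (t : D) : nbr y t ≠ y := by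
  obtain ⟨p, o⟩ := y
  obtain ⟨hp, ho⟩ := hy
  intro h
  rcases o with _ | ⟨s, n⟩
  · by_cases hb : p.2 t 0 = false
    · rw [nbr_none_direct hb] at h
      exact sigP_ne t p (congrArg Prod.fst h)
    · rw [Bool.not_eq_false] at hb
      by_cases hl : p.1.1 (p.1.2 t 0) = false
      · rw [nbr_none_own hb hl] at h
        have := congrArg Prod.snd h
        simp at this
      · rw [Bool.not_eq_false] at hl
        rw [nbr_none_other hb hl] at h
        have := congrArg Prod.snd h
        simp at this
  · rcases n with _ | n
    · rcases D_cases t with rfl | rfl | rfl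
      · rw [nbr_zero_zero] at h
        have := congrArg Prod.snd h
        simp at this
      · rw [nbr_zero_one] at h
        have := congrArg Prod.snd h
        simp at this
      · rw [nbr_zero_two] at h
        have := congrArg Prod.snd h
        simp at this
    · rcases D_cases t with rfl | rfl | rfl
      · rw [nbr_succ_zero] at h
        have := congrArg Prod.snd h
        simp only [Option.some.injEq, Prod.mk.injEq, true_and] at this
        omega
      · rw [nbr_succ_one] at h
        have := congrArg Prod.snd h
        simp only [Option.some.injEq, Prod.mk.injEq, true_and] at this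
        omega
      · rw [nbr_succ_two] at h
        have := congrArg Prod.snd h
        simp only [Option.some.injEq, Prod.mk.injEq, true_and] at this
        omega

/-- the second coordinate of a neighbour of a macro vertex -/
theorem Nb.nbr_none_snd (p : PP) (t : D) :
    (p.2 t 0 = false ∧ nbr (p, none) t = (sigP t p, none)) ∨ (nbr (p, none) t).2 = some (t, 0) := by
  by_cases hb : p.2 t 0 = false
  · exact Or.inl ⟨hb, nbr_none_direct hb⟩
  · right
    rw [Bool.not_eq_false] at hb
    by_cases hl : p.1.1 (p.1.2 t 0) = false
    · rw [nbr_none_own hb hl]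
    · rw [Bool.not_eq_false] at hl
      rw [nbr_none_other hb hl]

theorem nbr_inj {y : YR} (hy : YV y) {t t' : D} (h : nbr y t = nbr y t') : t = t' := by
  obtain ⟨p, o⟩ := y
  obtain ⟨hp, ho⟩ := hy
  rcases o with _ | ⟨s, n⟩
  · rcases nbr_none_snd p t with ⟨_, h1⟩ | h1 <;> rcases nbr_none_snd p t' with ⟨_, h2⟩ | h2
    · rw [h1, h2] at h
      exact sigP_inj hp (congrArg Prod.fst h)
    · rw [← h, h1] at h2
      simp at h2
    · rw [h, h2] at h1
      simp at h1
    · rw [h, h2] at h1
      simp only [Option.some.injEq, Prod.mk.injEq, and_true] at h1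
      exact h1.symm
  · rcases n with _ | n
    · have key : ∀ a b : D, a ≠ b → nbr (p, some (s, 0)) a ≠ nbr (p, some (s, 0)) b := by
        intro a b hab h0
        rcases D_cases a with rfl | rfl | rfl <;> rcases D_cases b with rfl | rfl | rfl
        · exact hab rfl
        · rw [nbr_zero_zero, nbr_zero_one] at h0
          exact sigP_ne s p (congrArg Prod.fst h0).symm
        · rw [nbr_zero_zero, nbr_zero_two] at h0
          have := congrArg Prod.snd h0
          simp at this
        · rw [nbr_zero_zero, nbr_zero_one] at h0
          exact sigP_ne s p (congrArg Prod.fst h0)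
        · exact hab rfl
        · rw [nbr_zero_one, nbr_zero_two] at h0
          have := congrArg Prod.snd h0
          simp at this
        · rw [nbr_zero_zero, nbr_zero_two] at h0
          have := congrArg Prod.snd h0
          simp at this
        · rw [nbr_zero_one, nbr_zero_two] at h0
          have := congrArg Prod.snd h0
          simp at this
        · exact hab rfl
      by_contra hne
      exact key t t' hne h
    · have key : ∀ a b : D, a ≠ b → nbr (p, some (s, n + 1)) a ≠ nbr (p, some (s, n + 1)) b := by
        intro a b hab h0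
        rcases D_cases a with rfl | rfl | rfl <;> rcases D_cases b with rfl | rfl | rfl
        · exact hab rfl
        · rw [nbr_succ_zero, nbr_succ_one] at h0
          have := congrArg Prod.snd h0
          simp only [Option.some.injEq, Prod.mk.injEq, true_and] at this
          omega
        · rw [nbr_succ_zero, nbr_succ_two] at h0
          have := congrArg Prod.snd h0
          simp only [Option.some.injEq, Prod.mk.injEq, true_and] at this
          omega
        · rw [nbr_succ_zero, nbr_succ_one] at h0
          have := congrArg Prod.snd h0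
          simp only [Option.some.injEq, Prod.mk.injEq, true_and] at this
          omega
        · exact hab rfl
        · rw [nbr_succ_one, nbr_succ_two] at h0
          have := congrArg Prod.snd h0
          simp only [Option.some.injEq, Prod.mk.injEq, true_and] at this
          omega
        · rw [nbr_succ_zero, nbr_succ_two] at h0
          have := congrArg Prod.snd h0
          simp only [Option.some.injEq, Prod.mk.injEq, true_and] at this
          omega
        · rw [nbr_succ_one, nbr_succ_two] at h0
          have := congrArg Prod.snd h0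
          simp only [Option.some.injEq, Prod.mk.injEq, true_and] at this
          omega
        · exact hab rfl
      by_contra hne
      exact key t t' hne h

theorem Nb.measurable_lab (t : D) : Measurable (fun p : PP => p.1.1 (p.1.2 t 0)) := by
  have h1 : Measurable (fun q : (ℕ → Bool) × ℕ => q.1 q.2) :=
    measurable_from_prod_countable_left fun n => measurable_pi_apply n
  have h2 : Measurable (fun p : PP => (p.1.1, p.1.2 t 0)) := by
    apply Measurable.prodMk
    · exact measurable_fst.comp measurable_fst
    · exact (measurable_pi_apply 0).comp ((measurable_pi_apply t).comp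
        (measurable_snd.comp measurable_fst))
  exact h1.comp h2

theorem Nb.measurable_bit (t : D) : Measurable (fun p : PP => p.2 t 0) :=
  (measurable_pi_apply 0).comp ((measurable_pi_apply t).comp measurable_snd)

theorem measurable_nbr (t : D) : Measurable (fun y : YR => nbr y t) := by
  apply measurable_from_prod_countable_left
  intro o
  rcases o with _ | ⟨s, n⟩
  · have e : (fun p : PP => nbr (p, none) t) = fun p : PP =>
        if p.2 t 0 = false then (sigP t p, (none : Option (D × ℕ)))
        else if p.1.1 (p.1.2 t 0) = false then (p, some (t, 0)) else (sigP t p, some (t, 0)) := by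
      funext p
      by_cases hb : p.2 t 0 = false
      · rw [nbr_none_direct hb, if_pos hb]
      · rw [if_neg hb]
        rw [Bool.not_eq_false] at hb
        by_cases hl : p.1.1 (p.1.2 t 0) = false
        · rw [nbr_none_own hb hl, if_pos hl]
        · rw [if_neg hl]
          rw [Bool.not_eq_false] at hl
          rw [nbr_none_other hb hl]
    rw [e]
    apply Measurable.ite (measurable_bit t (measurableSet_singleton false))
    · exact (measurable_sigP t).prodMk measurable_const
    · apply Measurable.ite (measurable_lab t (measurableSet_singleton false))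
      · exact measurable_id.prodMk measurable_const
      · exact (measurable_sigP t).prodMk measurable_const
  · rcases n with _ | n
    · rcases D_cases t with rfl | rfl | rfl
      · simp only [nbr_zero_zero]
        exact measurable_id.prodMk measurable_const
      · simp only [nbr_zero_one]
        exact (measurable_sigP s).prodMk measurable_const
      · simp only [nbr_zero_two]
        exact measurable_id.prodMk measurable_const
    · rcases D_cases t with rfl | rfl | rfl
      · simp only [nbr_succ_zero]
        exact measurable_id.prodMk measurable_const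
      · simp only [nbr_succ_one]
        exact measurable_id.prodMk measurable_const
      · simp only [nbr_succ_two]
        exact measurable_id.prodMk measurable_const

theorem Nb.measurableSet_owns (s : D) : MeasurableSet {p : PP | Owns p s} := by
  have e : {p : PP | Owns p s} = (fun p : PP => p.2 s 0) ⁻¹' {true} ∩
      (fun p : PP => p.1.1 (p.1.2 s 0)) ⁻¹' {false} := by
    ext p
    simp [Owns]
  rw [e]
  exact (measurable_bit s (measurableSet_singleton true)).inter
    (measurable_lab s (measurableSet_singleton false))

theorem measurableSet_YV : MeasurableSet {y : YR | YV y} := by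
  have e : {y : YR | YV y} = (fun y : YR => y.1.1) ⁻¹' {z : Z0 | Vld z} ∩
      ⋂ s : D, ⋂ n : ℕ, ((fun y : YR => y.2) ⁻¹' {some (s, n)})ᶜ ∪
        (fun y : YR => y.1) ⁻¹' {p : PP | Owns p s} := by
    ext y
    simp only [YV, Set.mem_ofPred_eq, Set.mem_inter_iff, Set.mem_preimage, Set.mem_iInter,
      Set.mem_union, Set.mem_compl_iff, Set.mem_singleton_iff]
    constructor
    · rintro ⟨h1, h2⟩
      refine ⟨h1, fun s n => ?_⟩
      by_cases h : y.2 = some (s, n)
      · exact Or.inr (h2 s n h)
      · exact Or.inl h
    · rintro ⟨h1, h2⟩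
      refine ⟨h1, fun s n h => ?_⟩
      rcases h2 s n with h3 | h3
      · exact absurd h h3
      · exact h3
  rw [e]
  refine ((measurable_fst.comp measurable_fst) measurableSet_vld).inter ?_
  refine MeasurableSet.iInter fun s => MeasurableSet.iInter fun n => ?_
  exact (measurable_snd (measurableSet_singleton _)).compl.union
    (measurable_fst (measurableSet_owns s))

theorem GG_adj (y y' : YY) : GG.Adj y y' ↔ ∃ t, nbr y.1 t = y'.1 := by
  unfold GG
  rw [SimpleGraph.fromRel_adj]
  constructor
  · rintro ⟨_, h | ⟨t, ht⟩⟩
    · exact h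
    · obtain ⟨t', ht'⟩ := nbr_symm y'.2 t
      rw [ht] at ht'
      exact ⟨t', ht'⟩
  · rintro ⟨t, ht⟩
    refine ⟨fun h => ?_, Or.inl ⟨t, ht⟩⟩
    rw [← h] at ht
    exact nbr_ne y.2 t ht

end Pool.Agent.Helper85.BFC
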