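import Pool.Agent.Helper85.BFC.Coins

/-!
# Parseval's identity for Walsh functions (module D0a)
-/

set_option autoImplicit false

namespace Pool.Agent.Helper85.BFC

open MeasureTheory

section Walsh
variable {ι : Type}

/-- flip one coin -/
def flip1 [DecidableEq ι] (i : ι) (η : ι → Bool) : ι → Bool := fun j => if j = i then !(η j) else η j

theorem coins_flip1 [DecidableEq ι] (i : ι) :
    MeasurePreserving (flip1 i) (coins ι) (coins ι) := by
  have hm : ∀ j : ι, Measurable (fun b : Bool => if j = i then !b else b) :=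
    fun _ => measurable_from_top
  refine ⟨?_, ?_⟩
  · exact measurable_pi_lambda _ fun j => (hm j).comp (measurable_pi_apply j)
  · have h := Measure.infinitePi_map_pi (μ := fun _ : ι => fair)
      (f := fun j (b : Bool) => if j = i then !b else b) (hf := hm)
    unfold coins
    change Measure.map (fun (η : ι → Bool) j => if j = i then !(η j) else η j) _ = _
    rw [h]
    congr 1
    funext j
    by_cases hj : j = i
    · simp only [if_pos hj]
      exact fair_map_not
    · simp only [if_neg hj]
      exact Measure.map_id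

theorem chi_flip1_mem [DecidableEq ι] {i : ι} {V : Finset ι} (h : i ∈ V) (η : ι → Bool) :
    chi V (flip1 i η) = - chi V η := by
  unfold chi
  rw [← Finset.mul_prod_erase V _ h, ← Finset.mul_prod_erase V (fun j => sg (η j)) h]
  have h1 : sg (flip1 i η i) = - sg (η i) := by
    unfold flip1
    rw [if_pos rfl, sg_not]
  rw [h1, neg_mul]
  congr 2
  apply Finset.prod_congr rfl
  intro j hj
  unfold flip1
  rw [if_neg (Finset.ne_of_mem_erase hj)]

theorem chi_flip1_notMem [DecidableEq ι] {i : ι} {V : Finset ι} (h : i ∉ V) (η : ι → Bool) :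
    chi V (flip1 i η) = chi V η := by
  unfold chi
  apply Finset.prod_congr rfl
  intro j hj
  unfold flip1
  rw [if_neg]
  rintro rfl
  exact h hj

theorem sg_mul_self (b : Bool) : sg b * sg b = 1 := by
  cases b <;> simp [sg]

theorem chi_mul_self (V : Finset ι) (η : ι → Bool) : chi V η * chi V η = 1 := by
  unfold chi
  rw [← Finset.prod_mul_distrib]
  exact Finset.prod_eq_one fun i _ => sg_mul_self _

theorem abs_chi (V : Finset ι) (η : ι → Bool) : |chi V η| = 1 := by
  have h := chi_mul_self V η
  have h2 : |chi V η| * |chi V η| = 1 := by rw [← abs_mul, h, abs_one]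
  have h3 := abs_nonneg (chi V η)
  nlinarith

theorem integral_chi_mul_of_mem [DecidableEq ι] {V W : Finset ι} {i : ι} (h : i ∈ V) (h' : i ∉ W) :
    ∫ η, chi V η * chi W η ∂(coins ι) = 0 := by
  have hm : AEStronglyMeasurable (fun η => chi V η * chi W η) ((coins ι).map (flip1 i)) :=
    ((measurable_chi V).mul (measurable_chi W)).aestronglyMeasurable
  have h1 : ∫ η, chi V η * chi W η ∂(coins ι) = - ∫ η, chi V η * chi W η ∂(coins ι) := by
    have e1 : ∫ η, chi V η * chi W η ∂(coins ι) =
        ∫ η, chi V η * chi W η ∂((coins ι).map (flip1 i)) := by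
      rw [(coins_flip1 i).map_eq]
    rw [integral_map (coins_flip1 i).measurable.aemeasurable hm] at e1
    refine e1.trans ?_
    rw [← integral_neg]
    congr 1
    funext η
    rw [chi_flip1_mem h, chi_flip1_notMem h']
    ring
  linarith

theorem integral_chi_mul [DecidableEq ι] (V W : Finset ι) :
    ∫ η, chi V η * chi W η ∂(coins ι) = if V = W then 1 else 0 := by
  by_cases hVW : V = W
  · subst hVW
    rw [if_pos rfl]
    simp only [chi_mul_self]
    simp
  · rw [if_neg hVW]
    by_cases h : V ⊆ W
    · have h2 : ¬ W ⊆ V := fun h2 => hVW (Finset.Subset.antisymm h h2)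
      rw [Finset.not_subset] at h2
      obtain ⟨i, hi, hi'⟩ := h2
      have := integral_chi_mul_of_mem hi hi'
      rw [← this]
      congr 1
      funext η
      ring
    · rw [Finset.not_subset] at h
      obtain ⟨i, hi, hi'⟩ := h
      exact integral_chi_mul_of_mem hi hi'

theorem memLp_of_bdd {g : (ι → Bool) → ℝ} (hg : Measurable g) {C : ℝ} (hC : ∀ η, |g η| ≤ C) :
    MemLp g 2 (coins ι) :=
  MemLp.of_bound hg.aestronglyMeasurable C (Filter.Eventually.of_forall fun η => by
    rw [Real.norm_eq_abs]; exact hC η)

theorem memLp_chi (V : Finset ι) : MemLp (chi V) 2 (coins ι) :=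
  memLp_of_bdd (measurable_chi V) (C := 1) fun η => (abs_chi V η).le

/-- Walsh functions in `L²` -/
noncomputable def walsh (V : Finset ι) : Lp ℝ 2 (coins ι) := (memLp_chi V).toLp (chi V)

theorem inner_toLp {g h : (ι → Bool) → ℝ} (hg : MemLp g 2 (coins ι)) (hh : MemLp h 2 (coins ι)) :
    inner ℝ (hg.toLp g) (hh.toLp h) = ∫ η, g η * h η ∂(coins ι) := by
  rw [L2.inner_def]
  apply integral_congr_ae
  filter_upwards [hg.coeFn_toLp, hh.coeFn_toLp] with η h1 h2
  rw [h1, h2]
  simp [mul_comm]

theorem inner_walsh_left (V : Finset ι) (f : Lp ℝ 2 (coins ι)) :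
    inner ℝ (walsh V) f = ∫ η, chi V η * f η ∂(coins ι) := by
  rw [L2.inner_def]
  apply integral_congr_ae
  unfold walsh
  filter_upwards [(memLp_chi V).coeFn_toLp] with η h1
  rw [h1]
  simp [mul_comm]

theorem orthonormal_walsh : Orthonormal ℝ (walsh : Finset ι → Lp ℝ 2 (coins ι)) := by
  classical
  rw [orthonormal_iff_ite]
  intro V W
  unfold walsh
  rw [inner_toLp, integral_chi_mul]

/-- the indicator of a square cylinder is a combination of Walsh functions -/
theorem indicator_cyl [DecidableEq ι] (s : Finset ι) (t : ι → Set Bool) :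
    ∃ c : Finset ι → ℝ, ∀ η : ι → Bool, (((s : Set ι).pi t).indicator (fun _ => (1 : ℝ)) η) =
      ∑ u ∈ s.powerset, c u * chi u η := by
  classical
  let α : ι → ℝ := fun i => ((if true ∈ t i then 1 else 0) + (if false ∈ t i then 1 else 0)) / 2
  let β : ι → ℝ := fun i => ((if true ∈ t i then 1 else 0) - (if false ∈ t i then 1 else 0)) / 2
  refine ⟨fun u => (∏ i ∈ u, β i) * ∏ i ∈ s \ u, α i, fun η => ?_⟩
  have h1 : (((s : Set ι).pi t).indicator (fun _ => (1 : ℝ)) η) =
      ∏ i ∈ s, (β i * sg (η i) + α i) := by
    have h2 : ∀ i, β i * sg (η i) + α i = if η i ∈ t i then (1 : ℝ) else 0 := by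
      intro i
      simp only [α, β]
      cases hη : η i
      · simp only [sg]
        by_cases h3 : true ∈ t i <;> by_cases h4 : false ∈ t i <;> simp [h3, h4] <;> norm_num
      · simp only [sg]
        by_cases h3 : true ∈ t i <;> by_cases h4 : false ∈ t i <;> simp [h3, h4] <;> norm_num
    simp only [h2]
    rw [Finset.prod_ite_zero]
    simp only [Finset.prod_const_one]
    rw [Set.indicator_apply]
    congr 1
  rw [h1, Finset.prod_add]
  apply Finset.sum_congr rfl
  intro u _
  rw [Finset.prod_mul_distrib]
  unfold chi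
  ring

theorem walsh_complete (f : Lp ℝ 2 (coins ι)) (hf : ∀ V, inner ℝ (walsh V) f = 0) : f = 0 := by
  classical
  have hfi : Integrable f (coins ι) := (Lp.memLp f).integrable one_le_two
  have h0 : ∀ V, ∫ η, chi V η * f η ∂(coins ι) = 0 := fun V => by
    rw [← inner_walsh_left]; exact hf V
  have hint : ∀ V, Integrable (fun η => chi V η * f η) (coins ι) := fun V => by
    refine hfi.bdd_mul (c := 1) (measurable_chi V).aestronglyMeasurable ?_
    exact Filter.Eventually.of_forall fun η => by rw [Real.norm_eq_abs, abs_chi]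
  have hcyl : ∀ S ∈ squareCylinders (fun _ : ι => {s : Set Bool | MeasurableSet s}),
      ∫ η in S, f η ∂(coins ι) = 0 := by
    rintro S ⟨s, t, ht, rfl⟩
    have hS : MeasurableSet ((s : Set ι).pi t) :=
      MeasurableSet.pi s.countable_toSet fun i _ => ht i (Set.mem_univ i)
    obtain ⟨c, hc⟩ := indicator_cyl s t
    rw [← integral_indicator hS]
    have e1 : ∀ η, ((s : Set ι).pi t).indicator (fun η => f η) η =
        ∑ u ∈ s.powerset, c u * (chi u η * f η) := by
      intro η
      have : ((s : Set ι).pi t).indicator (fun η => f η) η =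
          ((s : Set ι).pi t).indicator (fun _ => (1 : ℝ)) η * f η := by
        by_cases h : η ∈ (s : Set ι).pi t
        · rw [Set.indicator_of_mem h, Set.indicator_of_mem h, one_mul]
        · rw [Set.indicator_of_notMem h, Set.indicator_of_notMem h, zero_mul]
      rw [this, hc η, Finset.sum_mul]
      apply Finset.sum_congr rfl
      intro u _
      ring
    rw [integral_congr_ae (Filter.Eventually.of_forall e1), integral_finsetSum]
    · apply Finset.sum_eq_zero
      intro u _
      rw [integral_const_mul, h0 u, mul_zero]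
    · intro u _
      exact (hint u).const_mul _
  have hall : ∀ S : Set (ι → Bool), MeasurableSet S → ∫ η in S, f η ∂(coins ι) = 0 := by
    intro S hS
    induction S, hS using MeasurableSpace.induction_on_inter
      (s := squareCylinders (fun _ : ι => {s : Set Bool | MeasurableSet s}))
      (generateFrom_squareCylinders (α := fun _ : ι => Bool)).symm
      (isPiSystem_squareCylinders (fun _ => MeasurableSpace.isPiSystem_measurableSet)
        (fun _ => by simp)) with
    | empty => simp
    | basic t ht => exact hcyl t ht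
    | compl t htm ht =>
      have h1 := integral_add_compl htm hfi
      rw [ht, zero_add] at h1
      rw [h1]
      have h2 := h0 ∅
      unfold chi at h2
      simpa using h2
    | iUnion g hd hg ih =>
      rw [integral_iUnion hg hd hfi.integrableOn]
      simp [ih]
  have hae := Lp.ae_eq_zero_of_forall_setIntegral_eq_zero f (by norm_num) (by norm_num)
    (fun s _ _ => hfi.integrableOn) (fun s hs _ => hall s hs)
  exact (Lp.eq_zero_iff_ae_eq_zero).2 hae

/-- Parseval -/
theorem parseval [Countable ι] {g : (ι → Bool) → ℝ} (hg : Measurable g) {C : ℝ} (hC : ∀ η, |g η| ≤ C) :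
    HasSum (fun V : Finset ι => coef g V ^ 2) (∫ η, g η ^ 2 ∂(coins ι)) := by
  have hsp : (Submodule.span ℝ (Set.range (walsh : Finset ι → Lp ℝ 2 (coins ι))))ᗮ = ⊥ := by
    rw [Submodule.eq_bot_iff]
    intro f hf
    apply walsh_complete
    intro V
    exact hf (walsh V) (Submodule.subset_span ⟨V, rfl⟩)
  let b := HilbertBasis.mkOfOrthogonalEqBot orthonormal_walsh hsp
  have hb : ∀ V, b V = walsh V := fun V => by
    simp only [b, HilbertBasis.coe_mkOfOrthogonalEqBot]
  have hgL := memLp_of_bdd hg hC
  have h1 := b.hasSum_inner_mul_inner (hgL.toLp g) (hgL.toLp g)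
  rw [inner_toLp hgL hgL] at h1
  have e1 : ∀ V, inner ℝ (hgL.toLp g) (b V) * inner ℝ (b V) (hgL.toLp g) = coef g V ^ 2 := by
    intro V
    rw [hb V]
    unfold walsh
    rw [inner_toLp, inner_toLp]
    unfold coef
    rw [sq]
    congr 1
    congr 1
    funext η
    ring
  simp only [e1] at h1
  have e2 : ∫ η, g η ^ 2 ∂(coins ι) = ∫ η, g η * g η ∂(coins ι) := by
    congr 1
    funext η
    ring
  rw [e2]
  exact h1

end Walsh

end Pool.Agent.Helper85.BFC
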