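import Pool.Agent.Helper85.BFC.GraphDefs
import Pool.Agent.Helper85.BFC.Free

/-!
# Sides of macro edges
-/

set_option autoImplicit false

namespace Pool.Agent.Helper85.BFC

theorem side_sig (z : Z0) (s : D) : Side z s (sig s z) :=
  ⟨[], List.isChain_singleton _, rfl⟩

theorem not_side_self {z : Z0} (hz : Vld z) (s : D) : ¬ Side z s z := by
  rintro ⟨w, hc, h⟩
  exact act_ne hz (List.cons_ne_nil s w) hc (congrArg Prod.fst h).symm

/-- the only macro edge crossing the side is the edge itself -/
theorem side_step {z z' : Z0} (hz : Vld z) {s t : D} (h : Side z s z')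
    (h' : ¬ Side z s (sig t z')) : z' = sig s z ∧ t = s := by
  have _ := hz
  obtain ⟨w, hc, rfl⟩ := h
  rcases List.eq_nil_or_concat w with rfl | ⟨u, a, rfl⟩
  · refine ⟨rfl, ?_⟩
    by_contra hts
    apply h'
    refine ⟨[t], ?_, rfl⟩
    rw [List.isChain_cons_cons]
    exact ⟨fun h => hts h.symm, List.isChain_singleton _⟩
  · rw [List.concat_eq_append] at hc h'
    exfalso
    apply h'
    have e1 : s :: (u ++ [a]) = (s :: u) ++ [a] := rfl
    by_cases hta : t = a
    · subst hta
      refine ⟨u, ?_, ?_⟩
      · rw [e1] at hc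
        exact hc.left_of_append
      · rw [e1, act_append]
        show sig t (sig t (act (s :: u) z)) = _
        rw [sig_sig]
    · refine ⟨u ++ [a] ++ [t], ?_, ?_⟩
      · have e2 : s :: (u ++ [a] ++ [t]) = (s :: (u ++ [a])) ++ [t] := rfl
        rw [e2, List.isChain_append]
        refine ⟨hc, List.isChain_singleton _, ?_⟩
        intro x hx y hy
        rw [e1, List.getLast?_append] at hx
        simp at hx hy
        rw [← hx, ← hy]
        exact fun h => hta h.symm
      · have e2 : s :: (u ++ [a] ++ [t]) = (s :: (u ++ [a])) ++ [t] := rfl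
        rw [e2, act_append _ [t]]
        rfl

end Pool.Agent.Helper85.BFC
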